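import Pool.Agent.ThO2.Szk
import Pool.Agent.ThO2.Ab3

/-! # Fields with a square root of the Frobenius map, the group `Sz(q)` in `SL_4(K)`, and `SL_2(K)`, as groups of rank one -/

namespace Pool.Agent.ThO2

open ThG

variable {K : Type*} [Field K] {θ : K →+* K}

/-- `θ` is a square root of the inverse of the Frobenius map: `2 θ² = 1` -/
def Rt (θ : K →+* K) : Prop := ∀ t, θ (θ t) ^ 2 = t

/-- `θ` on the units -/
def tu (θ : K →+* K) : Kˣ →* Kˣ := Units.map θ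

/-- the exponent `p.1 + p.2 θ` -/
def mo (θ : K →+* K) (z : Kˣ) (p : ℤ × ℤ) : Kˣ := z ^ p.1 * tu θ z ^ p.2

-- BEGIN ia
/-- ROW ia. `t = -1`: `θ (θ (-1)) ^ 2 = 1`. -/
theorem Rt.two (h : Rt θ) : (2 : K) = 0 := by
  have e := h (-1)
  rw [map_neg, map_one, map_neg, map_one] at e
  linear_combination e

theorem Rt.add (h : Rt θ) (a : K) : a + a = 0 := by
  linear_combination a * h.two

theorem Rt.fixed (h : Rt θ) {t : K} (h1 : θ t = t) : t = 0 ∨ t = 1 := by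
  have e := h t
  rw [h1, h1] at e
  have e2 : t * (t - 1) = 0 := by linear_combination e
  rcases mul_eq_zero.mp e2 with h0 | h0
  · exact Or.inl h0
  · exact Or.inr (sub_eq_zero.mp h0)

theorem Rt.unit (h : Rt θ) (z : Kˣ) : tu θ (tu θ z) ^ 2 = z :=
  Units.ext (h (z : K))

/-- characteristic two: `z ^ 2 = 1` gives `(z - 1) ^ 2 = 0` -/
theorem Rt.sq_one (h : Rt θ) {z : Kˣ} (k : ℕ) (h1 : z ^ 2 ^ k = 1) : z = 1 := by
  have key : ∀ w : Kˣ, w ^ 2 = 1 → w = 1 := by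
    intro w hw
    have e : (w : K) ^ 2 = 1 := by
      rw [← Units.val_pow_eq_pow_val, hw, Units.val_one]
    have e2 : ((w : K) - 1) ^ 2 = 0 := by
      linear_combination e + (1 - (w : K)) * h.two
    have e3 : (w : K) - 1 = 0 := pow_eq_zero_iff (two_ne_zero) |>.1 e2
    exact Units.ext (sub_eq_zero.mp e3)
  induction k with
  | zero => simpa using h1
  | succ k ih =>
    rw [pow_succ, pow_mul] at h1
    exact ih (key _ h1)

theorem mo_mul (z w : Kˣ) (p : ℤ × ℤ) : mo θ (z * w) p = mo θ z p * mo θ w p := by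
  unfold mo
  rw [map_mul, mul_zpow, mul_zpow, mul_mul_mul_comm]

theorem mo_add (z : Kˣ) (p q : ℤ × ℤ) : mo θ z (p + q) = mo θ z p * mo θ z q := by
  unfold mo
  rw [Prod.fst_add, Prod.snd_add, zpow_add, zpow_add, mul_mul_mul_comm]

/-- the product in `ℤ[θ]`, `θ² = 1/2`, for `p.2 * q.2 = 2 * r` -/
theorem mo_mo (h : Rt θ) (z : Kˣ) (p q : ℤ × ℤ) {r : ℤ} (hr : p.2 * q.2 = 2 * r) : mo θ (mo θ z p) q = mo θ z (p.1 * q.1 + r, p.1 * q.2 + p.2 * q.1) := by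
  unfold mo
  have hv : tu θ (tu θ z) ^ (p.2 * q.2) = z ^ r := by
    rw [hr, zpow_mul]
    congr 1
    exact_mod_cast h.unit z
  rw [map_mul, map_zpow, map_zpow, mul_zpow, mul_zpow, ← zpow_mul, ← zpow_mul, ← zpow_mul, ← zpow_mul, hv, zpow_add, zpow_add]
  generalize z ^ (p.1 * q.1) = A
  generalize tu θ z ^ (p.1 * q.2) = B
  generalize tu θ z ^ (p.2 * q.1) = C
  generalize z ^ r = D
  ac_rfl

/-- `mo θ z p = 1` is `z ^ α * w ^ β = 1` (`w = tu θ z`), apply `tu θ` and square: `w ^ (2 α) * z ^ β = 1`; hence `z ^ (2 α² - β²) = 1`, `Rt.sq_one` -/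
theorem mo_inj (h : Rt θ) {p : ℤ × ℤ} {k : ℕ} (hp : 2 * p.1 ^ 2 - p.2 ^ 2 = 2 ^ k ∨ 2 * p.1 ^ 2 - p.2 ^ 2 = -2 ^ k) {z : Kˣ} (h1 : mo θ z p = 1) : z = 1 := by
  obtain ⟨α, β⟩ := p
  have e1 : z ^ α * tu θ z ^ β = 1 := h1
  have e2 : tu θ z ^ (2 * α) * z ^ β = 1 := by
    have e := congrArg (tu θ) e1
    rw [map_mul, map_zpow, map_zpow, map_one] at e
    have e' : (tu θ z ^ α * tu θ (tu θ z) ^ β) ^ (2 : ℤ) = 1 := by rw [e, one_zpow]
    rw [mul_zpow, ← zpow_mul, ← zpow_mul, mul_comm α 2, mul_comm β 2, zpow_mul (tu θ (tu θ z))] at e'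
    have e3 : tu θ (tu θ z) ^ (2 : ℤ) = z := by exact_mod_cast h.unit z
    rw [e3] at e'
    exact e'
  have e3 : z ^ (2 * α ^ 2 - β ^ 2) = 1 := by
    have a1 : z ^ (2 * α ^ 2) * tu θ z ^ (2 * α * β) = 1 := by
      have e := congrArg (fun x => x ^ (2 * α)) e1
      simp only [mul_zpow, ← zpow_mul, one_zpow] at e
      rw [show α * (2 * α) = 2 * α ^ 2 by ring, show β * (2 * α) = 2 * α * β by ring] at e
      exact e
    have a2 : tu θ z ^ (2 * α * β) * z ^ (β ^ 2) = 1 := by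
      have e := congrArg (fun x => x ^ β) e2
      simp only [mul_zpow, ← zpow_mul, one_zpow] at e
      rw [show β * β = β ^ 2 by ring] at e
      exact e
    have b1 := mul_eq_one_iff_eq_inv.mp a1
    have b2 := mul_eq_one_iff_inv_eq.mp a2
    rw [zpow_sub, b1, b2, mul_inv_cancel]
  have e4 : z ^ (2 ^ k : ℤ) = 1 := by
    rcases hp with hp | hp
    · have hp' : 2 * α ^ 2 - β ^ 2 = 2 ^ k := hp
      rw [← hp']
      exact e3
    · have hp' : 2 * α ^ 2 - β ^ 2 = -2 ^ k := hp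
      rw [hp', zpow_neg, inv_eq_one] at e3
      exact e3
  apply h.sq_one k
  exact_mod_cast e4
-- END ia

variable (θ) in
/-- the element `p(t, d)` -/
def pQ (t d : K) : Matrix.SpecialLinearGroup (Fin 4) K :=
  ⟨!![1, θ t, t * θ t + θ d, t * θ t ^ 2 + θ t * θ d + d; 0, 1, t, θ d; 0, 0, 1, θ t; 0, 0, 0, 1], by simp [Matrix.det_succ_row_zero, Fin.sum_univ_succ]⟩

variable (θ) in
/-- the torus element: diagonal `c θ(c)², c, c⁻¹, (c θ(c)²)⁻¹` -/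
def tQ (c : Kˣ) : Matrix.SpecialLinearGroup (Fin 4) K :=
  ⟨!![((c * tu θ c ^ 2 : Kˣ) : K), 0, 0, 0; 0, (c : K), 0, 0; 0, 0, ((c⁻¹ : Kˣ) : K), 0; 0, 0, 0, (((c * tu θ c ^ 2)⁻¹ : Kˣ) : K)], by
    rw [Matrix.det_succ_row_zero]
    simp [Matrix.det_succ_row_zero, Fin.sum_univ_succ]
    field_simp⟩

-- BEGIN ib
/-- ROW ib. The group law (entries; `θ (θ t) ^ 2 = t`, `Rt.two`).  Checked by computer for `q = 8, 32`, as all formulas below. -/
theorem pQ_mul (h : Rt θ) (t d u c : K) : pQ θ t d * pQ θ u c = pQ θ (t + u) (d + c + θ t ^ 2 * u) := by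
  have h1 : θ (θ t) ^ 2 = t := h t
  have h2 : (2 : K) = 0 := h.two
  apply Subtype.ext
  show (pQ θ t d).1 * (pQ θ u c).1 = (pQ θ (t + u) (d + c + θ t ^ 2 * u)).1
  unfold pQ
  simp only [map_add, map_mul, map_pow, h1]
  ext i j
  fin_cases i <;> fin_cases j <;> simp [Matrix.mul_apply, Fin.sum_univ_four]
  · ring
  · linear_combination ((-1) * θ u * t) * h2
  · linear_combination ((-1) * θ t * θ u * t + (-1) * θ t * θ u * u + (-1) * θ t ^ 2 * u + (-1) * θ u ^ 2 * t) * h2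
  · ring
  · ring
  · ring

theorem pQ_zero : pQ θ (0 : K) 0 = 1 := by
  apply Subtype.ext
  show (pQ θ 0 0).1 = (1 : Matrix (Fin 4) (Fin 4) K)
  unfold pQ
  ext i j
  fin_cases i <;> fin_cases j <;> simp

theorem pQ_inv (h : Rt θ) (t d : K) : (pQ θ t d)⁻¹ = pQ θ t (d + θ t ^ 2 * t) := by
  apply inv_eq_of_mul_eq_one_right
  rw [pQ_mul h, ← pQ_zero (θ := θ)]
  have e1 : t + t = 0 := h.add t
  have e2 : d + (d + θ t ^ 2 * t) + θ t ^ 2 * t = 0 := by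
    linear_combination (d + θ t ^ 2 * t) * h.two
  rw [e1, e2]
-- END ib

-- BEGIN ic
private theorem ic_tu (b : Kˣ) : (tu θ b : K) = θ b := rfl

/-- ROW ic. -/
theorem tQ_mul (b c : Kˣ) : tQ θ (b * c) = tQ θ b * tQ θ c := by
  apply Subtype.ext
  show (tQ θ (b * c)).1 = (tQ θ b).1 * (tQ θ c).1
  unfold tQ
  ext i j
  fin_cases i <;> fin_cases j <;> simp [Matrix.mul_apply, Fin.sum_univ_four]
  all_goals ring

theorem tQ_one : tQ θ (1 : Kˣ) = 1 := by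
  apply Subtype.ext
  show (tQ θ 1).1 = (1 : Matrix (Fin 4) (Fin 4) K)
  unfold tQ
  ext i j
  fin_cases i <;> fin_cases j <;> simp

theorem JS_tQ (b : Kˣ) : JS K * tQ θ b * JS K = (tQ θ b)⁻¹ := by
  apply eq_inv_of_mul_eq_one_left
  apply Subtype.ext
  show (JS K).1 * (tQ θ b).1 * (JS K).1 * (tQ θ b).1 = (1 : Matrix (Fin 4) (Fin 4) K)
  unfold JS tQ
  have h1 : (tu θ b : K) ≠ 0 := Units.ne_zero _
  have h2 : (b : K) ≠ 0 := Units.ne_zero _
  ext i j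
  fin_cases i <;> fin_cases j <;> simp [Matrix.mul_apply, Fin.sum_univ_four]
  all_goals field_simp

theorem tQ_pQ (h : Rt θ) (c : Kˣ) (t d : K) : tQ θ c * pQ θ t d * (tQ θ c)⁻¹ = pQ θ ((c : K) ^ 2 * t) ((c : K) ^ 2 * θ (c : K) ^ 4 * d) := by
  rw [mul_inv_eq_iff_eq_mul]
  have hc : θ (θ (c : K)) ^ 2 = (c : K) := h (c : K)
  have h0 : (c : K) ≠ 0 := Units.ne_zero c
  have h1 : θ (c : K) ≠ 0 := (map_ne_zero θ).2 h0
  have hc4 : θ (θ (c : K)) ^ 4 = (c : K) ^ 2 := by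
    rw [show 4 = 2 * 2 from rfl, pow_mul, hc]
  apply Subtype.ext
  show (tQ θ c).1 * (pQ θ t d).1 = (pQ θ ((c : K) ^ 2 * t) ((c : K) ^ 2 * θ (c : K) ^ 4 * d)).1 * (tQ θ c).1
  unfold tQ pQ
  simp only [map_mul, map_pow, hc4]
  ext i j
  fin_cases i <;> fin_cases j <;> simp [Matrix.mul_apply, Fin.sum_univ_four, ic_tu]
  all_goals generalize θ (c : K) = s at *
  all_goals generalize (c : K) = b at *
  all_goals field_simp
-- END ic

-- BEGIN id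
private theorem id_inv (h : Rt θ) (x : K) : θ (θ x ^ 2) = x := by
  rw [map_pow]
  exact h x

/-- ROW id. `N ≠ 0`: apply `σ x = θ x ^ 2`: `N' = t² σ(t) + t d + σ(d)`.  `t = 0`: `N = d`.  `t ≠ 0`: `d = t σ(t) s`: `N' = t² σ(t) (1 + s + σ(s))`; `1 + s + σ(s) = 0` gives (apply `σ`, `σ (σ s) = s ^ 2`) `1 + σ(s) + s ^ 2 = 0`, so `s ^ 2 = s`, `s = 0` or `1`, contradiction. -/
theorem nrm_ne (h : Rt θ) {t d : K} (h1 : ¬ (t = 0 ∧ d = 0)) : t * θ t ^ 2 + θ t * θ d + d ≠ 0 := by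
  intro h0
  by_cases ht : t = 0
  · apply h1
    refine ⟨ht, ?_⟩
    rw [ht, map_zero] at h0
    linear_combination h0
  · have hst : θ t ≠ 0 := (map_ne_zero θ).2 ht
    obtain ⟨e, he⟩ : ∃ e, e = d * (θ t ^ 2 * t)⁻¹ := ⟨_, rfl⟩
    have hd : d = θ t ^ 2 * t * e := by
      rw [he]
      field_simp
    have hsd : θ d = t * θ t * θ e := by
      rw [hd, map_mul, map_mul, id_inv h]
    rw [hsd] at h0
    rw [hd] at h0
    have h3 : t * θ t ^ 2 * (1 + θ e + e) = 0 := by linear_combination h0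
    have h4 : 1 + θ e + e = 0 := (mul_eq_zero.1 h3).resolve_left (mul_ne_zero ht (pow_ne_zero _ hst))
    have h5 : θ e = 1 + e := by linear_combination h4 - (1 + e) * h.two
    have h6 : θ (θ e) = e := by
      rw [h5, map_add, map_one, h5]
      linear_combination h.two
    have h7 : θ (θ e) ^ 2 = e := h e
    rw [h6] at h7
    have h8 : e * (e - 1) = 0 := by linear_combination h7
    rcases mul_eq_zero.1 h8 with h9 | h9
    · rw [h9, map_zero] at h5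
      exact zero_ne_one (by linear_combination h5)
    · have h10 : e = 1 := by linear_combination h9
      rw [h10, map_one] at h5
      apply one_ne_zero (α := K)
      linear_combination -h5

private theorem id_mat {K : Type*} [Field K] (t d T D E F : K) (h2 : (2 : K) = 0) (hE : t * T ^ 2 + T * D + d = E) (hF : t ^ 2 * T ^ 2 + t * d + D ^ 2 = F)
    (hE0 : E ≠ 0) (hF0 : F ≠ 0) :
    (!![1, 0, 0, 0; T, 1, 0, 0; D, t, 1, 0; E, t * T + D, T, 1] : Matrix (Fin 4) (Fin 4) K) =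
      !![1, D / E, (T * F + d * D) / (E * F), 1 / E; 0, 1, d / F, T / E; 0, 0, 1, D / E; 0, 0, 0, 1] *
      !![0, 0, 0, 1 / E; 0, 0, E / F, 0; 0, F / E, 0, 0; E, 0, 0, 0] *
      !![1, (t * T + D) / E, T / E, 1 / E; 0, 1, (t * T ^ 2 + d) / F, D / F; 0, 0, 1, (t * T + D) / E; 0, 0, 0, 1] := by
  ext i j
  fin_cases i <;> fin_cases j <;> simp [Matrix.mul_apply, Fin.sum_univ_four]
  all_goals field_simp
  · subst hE hF; linear_combination ((-1) * D * T ^ 2 * t + (-1) * D * d + (-1) * D ^ 2 * T + (-1) * T * d * t + (-1) * T ^ 3 * t ^ 2) * h2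
  · subst hE hF; linear_combination ((-2) * D * T ^ 2 * d * t + (-1) * D * T ^ 4 * t ^ 2 + (-1) * D * d ^ 2 + (-2) * D ^ 2 * T * d + (-2) * D ^ 2 * T ^ 3 * t + (-1) * D ^ 3 * T ^ 2 + (-1) * T * d ^ 2 * t + (-2) * T ^ 3 * d * t ^ 2 + (-1) * T ^ 5 * t ^ 3) * h2
  · subst hE hF; linear_combination ((-2) * D * T * d * t + (-2) * D * T ^ 3 * t ^ 2 + (-2) * D ^ 2 * T ^ 2 * t + (-2) * D ^ 2 * d + (-2) * D ^ 3 * T + (-2) * T ^ 2 * d * t ^ 2 + (-1) * T ^ 4 * t ^ 3 + (-1) * d ^ 2 * t) * h2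
  · subst hE hF; linear_combination (0) * h2
  · subst hE hF; linear_combination ((-1) * D * T * d + (-1) * D * T ^ 3 * t + (-1) * D ^ 2 * T ^ 2 + (-2) * T ^ 2 * d * t + (-1) * T ^ 4 * t ^ 2 + (-1) * d ^ 2) * h2
  · subst hE hF; linear_combination ((-1) * D * T ^ 2 * t + (-1) * D * d + (-1) * D ^ 2 * T + (-1) * T * d * t + (-1) * T ^ 3 * t ^ 2) * h2
  · subst hE hF; linear_combination ((-1) * D ^ 2) * h2
  · subst hE hF; linear_combination (0) * h2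
  · subst hE hF; linear_combination ((-1) * D) * h2

private theorem id_z1 {K : Type*} [Field K] (t d T D E F : K) (h2 : (2 : K) = 0) (hE : t * T ^ 2 + T * D + d = E) (hF : t ^ 2 * T ^ 2 + t * d + D ^ 2 = F) :
    D * (d * D + F * T) + E ^ 2 * t = F * E := by
  subst hE hF
  linear_combination (D * T * d * t + D * T ^ 3 * t ^ 2) * h2

private theorem id_z2 {K : Type*} [Field K] (t d T D E F : K) (h2 : (2 : K) = 0) (hE : t * T ^ 2 + T * D + d = E) (hF : t ^ 2 * T ^ 2 + t * d + D ^ 2 = F) :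
    (t * T ^ 2 + d) * (t * T + D) + D * E = T * F := by
  subst hE hF
  linear_combination (D * T ^ 2 * t + D * d) * h2

private theorem id_z3 {K : Type*} [Field K] (t d T D E F : K) (h2 : (2 : K) = 0) (hE : t * T ^ 2 + T * D + d = E) (hF : t ^ 2 * T ^ 2 + t * d + D ^ 2 = F) :
    (t * T + D) * ((t * T ^ 2 + d) * (t * T + D) + D * E) + d * F = F * E := by
  subst hE hF
  linear_combination (D * T * d * t + D * T ^ 3 * t ^ 2 + D ^ 2 * T ^ 2 * t + D ^ 2 * d) * h2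

private theorem id_F (h : Rt θ) (t d : K) : θ (t * θ t ^ 2 + θ t * θ d + d) ^ 2 = t ^ 2 * θ t ^ 2 + t * d + θ d ^ 2 := by
  have h1 : θ (θ t) ^ 2 = t := h t
  have h2 : θ (θ d) ^ 2 = d := h d
  rw [map_add, map_add, map_mul, map_mul, map_pow, h1]
  linear_combination (θ (θ t) ^ 2) * h2 + d * h1 + (t * θ t * θ (θ t) * θ (θ d) + t * θ t * θ d + θ (θ t) * θ (θ d) * θ d) * h.two

private theorem id_JS : (JS K).1 = !![0, 0, 0, 1; 0, 0, 1, 0; 0, 1, 0, 0; 1, 0, 0, 0] := rfl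

private theorem id_pQ (t d : K) : (pQ θ t d).1 = !![1, θ t, t * θ t + θ d, t * θ t ^ 2 + θ t * θ d + d; 0, 1, t, θ d; 0, 0, 1, θ t; 0, 0, 0, 1] := rfl

private theorem id_tQ (b : Kˣ) : (tQ θ b).1 = !![(b : K) * θ (b : K) ^ 2, 0, 0, 0; 0, (b : K), 0, 0; 0, 0, (b : K)⁻¹, 0; 0, 0, 0, ((b : K) * θ (b : K) ^ 2)⁻¹] := by
  unfold tQ
  ext i j
  fin_cases i <;> fin_cases j <;> simp [tu]

/-- the Suzuki formula: `s = θ(N)²`, `c = s / N` (so `c θ(c)² = N`), `t₁ = d / s`, `d₁ = t / s`, `t₂ = (t θ(t)² + d) / s`, `d₂ = t / s + θ(t₂)² t₂` -/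
theorem r0Q (h : Rt θ) {t d : K} (h1 : ¬ (t = 0 ∧ d = 0)) : ∃ (N : K) (c : Kˣ) (t₂ d₂ : K), N = t * θ t ^ 2 + θ t * θ d + d ∧ (c : K) = θ N ^ 2 / N ∧
    JS K * pQ θ t d * JS K = pQ θ (d / θ N ^ 2) (t / θ N ^ 2) * JS K * tQ θ c * pQ θ t₂ d₂ := by
  have h2 : (2 : K) = 0 := h.two
  obtain ⟨E, hE⟩ : ∃ E, E = t * θ t ^ 2 + θ t * θ d + d := ⟨_, rfl⟩
  obtain ⟨F, hF⟩ : ∃ F, F = θ E ^ 2 := ⟨_, rfl⟩
  have hE0 : E ≠ 0 := by
    rw [hE]
    exact nrm_ne h h1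
  have hF0 : F ≠ 0 := by
    rw [hF]
    exact pow_ne_zero _ ((map_ne_zero θ).2 hE0)
  have hE' : t * θ t ^ 2 + θ t * θ d + d = E := hE.symm
  have hF' : t ^ 2 * θ t ^ 2 + t * d + θ d ^ 2 = F := by
    rw [hF, hE]
    exact (id_F h t d).symm
  have hFs : θ F = E := by
    rw [hF]
    exact id_inv h E
  refine ⟨E, Units.mk0 (F / E) (div_ne_zero hF0 hE0), (t * θ t ^ 2 + d) / F, d / E ^ 2, hE, ?_, ?_⟩
  · rw [Units.val_mk0, hF]
  rw [← hF]
  have e1 : θ (d / F) = θ d / E := by rw [map_div₀, hFs]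
  have e2 : θ (t / F) = θ t / E := by rw [map_div₀, hFs]
  have e3 : θ ((t * θ t ^ 2 + d) / F) = (t * θ t + θ d) / E := by
    rw [map_div₀, hFs, map_add, map_mul, id_inv h, mul_comm (θ t) t]
  have e4 : θ (d / E ^ 2) = θ d / F := by rw [map_div₀, map_pow, hF]
  have e5 : θ (F / E) ^ 2 = E ^ 2 / F := by rw [map_div₀, div_pow, hFs, hF]
  have key := id_mat t d (θ t) (θ d) E F h2 hE' hF' hE0 hF0
  apply Subtype.ext
  show (JS K).1 * (pQ θ t d).1 * (JS K).1 = (pQ θ (d / F) (t / F)).1 * (JS K).1 * (tQ θ (Units.mk0 (F / E) (div_ne_zero hF0 hE0))).1 * (pQ θ ((t * θ t ^ 2 + d) / F) (d / E ^ 2)).1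
  have m1 : (JS K).1 * (pQ θ t d).1 * (JS K).1 = !![1, 0, 0, 0; θ t, 1, 0, 0; θ d, t, 1, 0; E, t * θ t + θ d, θ t, 1] := by
    rw [id_JS, id_pQ, ← hE]
    ext i j
    fin_cases i <;> fin_cases j <;> simp [Matrix.mul_apply, Fin.sum_univ_four]
  have m2 : (pQ θ (d / F) (t / F)).1 = !![1, θ d / E, (θ t * F + d * θ d) / (E * F), 1 / E; 0, 1, d / F, θ t / E; 0, 0, 1, θ d / E; 0, 0, 0, 1] := by
    rw [id_pQ, e1, e2]
    ext i j
    fin_cases i <;> fin_cases j <;> simp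
    · field_simp
      ring
    · field_simp
      exact id_z1 t d (θ t) (θ d) E F h2 hE' hF'
  have m3 : (JS K).1 * (tQ θ (Units.mk0 (F / E) (div_ne_zero hF0 hE0))).1 = !![0, 0, 0, 1 / E; 0, 0, E / F, 0; 0, F / E, 0, 0; E, 0, 0, 0] := by
    rw [id_JS, id_tQ, Units.val_mk0, e5]
    ext i j
    fin_cases i <;> fin_cases j <;> simp [Matrix.mul_apply, Fin.sum_univ_four]
    · field_simp
    · field_simp
  have m4 : (pQ θ ((t * θ t ^ 2 + d) / F) (d / E ^ 2)).1 = !![1, (t * θ t + θ d) / E, θ t / E, 1 / E; 0, 1, (t * θ t ^ 2 + d) / F, θ d / F; 0, 0, 1, (t * θ t + θ d) / E; 0, 0, 0, 1] := by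
    rw [id_pQ, e3, e4]
    ext i j
    fin_cases i <;> fin_cases j <;> simp
    · field_simp
      exact id_z2 t d (θ t) (θ d) E F h2 hE' hF'
    · field_simp
      exact id_z3 t d (θ t) (θ d) E F h2 hE' hF'
  rw [m1, Matrix.mul_assoc (pQ θ (d / F) (t / F)).1, m3, m2, m4]
  exact key
-- END id

-- BEGIN ie
/-- ROW ie. as `uniqK` -/
theorem uniqQ (s c : K) (b : Kˣ) (t d : K) (h : JS K * pQ θ s c * JS K * tQ θ b * pQ θ t d = 1) : (s = 0 ∧ c = 0) ∧ b = 1 ∧ t = 0 ∧ d = 0 := by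
  have e : ∀ i j, (JS K * pQ θ s c * JS K * tQ θ b * pQ θ t d).1 i j = (1 : Matrix (Fin 4) (Fin 4) K) i j := fun i j => by
    rw [h]
    rfl
  have e00 := e 0 0
  have e10 := e 1 0
  have e20 := e 2 0
  have e01 := e 0 1
  have e02 := e 0 2
  have e11 := e 1 1
  simp [JS, pQ, tQ, Matrix.mul_apply, Fin.sum_univ_four] at e00 e10 e20 e01 e02 e11
  subst e01
  rw [map_zero, mul_zero, zero_add] at e11
  rw [map_zero, mul_zero, zero_add, map_eq_zero] at e02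
  exact ⟨⟨e10, e20⟩, Units.ext e11, rfl, e02⟩
-- END ie

variable (θ) in
/-- the group `Sz(q)` -/
def Sq : Subgroup (Matrix.SpecialLinearGroup (Fin 4) K) := Subgroup.closure ({g | ∃ t d, g = pQ θ t d} ∪ {JS K} ∪ {g | ∃ b : Kˣ, g = tQ θ b})

variable (θ) in
/-- elements of `Sz(q)` -/
def pY (t d : K) : Sq θ := ⟨pQ θ t d, Subgroup.subset_closure (Or.inl (Or.inl ⟨t, d, rfl⟩))⟩

variable (θ) in
/-- elements of `Sz(q)` -/
def JY : Sq θ := ⟨JS K, Subgroup.subset_closure (Or.inl (Or.inr rfl))⟩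

variable (θ) in
/-- elements of `Sz(q)` -/
def tY (b : Kˣ) : Sq θ := ⟨tQ θ b, Subgroup.subset_closure (Or.inr ⟨b, rfl⟩)⟩

variable (θ) in
/-- the unipotent subgroup -/
def PY : Subgroup (Sq θ) := Subgroup.closure {g | ∃ t d, g = pY θ t d}

variable (θ) in
/-- the torus -/
def TY : Subgroup (Sq θ) := Subgroup.closure {g | ∃ b, g = tY θ b}

-- BEGIN ig
/-- ROW ig. as `mem_PZ`, `mem_TZ` -/
theorem mem_PY (h : Rt θ) {g : Sq θ} : g ∈ PY θ ↔ ∃ t d, g = pY θ t d := by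
  constructor
  · intro hg
    unfold PY at hg
    refine Subgroup.closure_induction (p := fun g _ => ∃ t d : K, g = pY θ t d) ?_ ?_ ?_ ?_ hg
    · intro g hg
      exact hg
    · exact ⟨0, 0, Subtype.ext pQ_zero.symm⟩
    · rintro _ _ _ _ ⟨t, d, rfl⟩ ⟨u, c, rfl⟩
      exact ⟨t + u, d + c + θ t ^ 2 * u, Subtype.ext (pQ_mul h t d u c)⟩
    · rintro _ _ ⟨t, d, rfl⟩
      exact ⟨t, d + θ t ^ 2 * t, Subtype.ext (pQ_inv h t d)⟩
  · rintro ⟨t, d, rfl⟩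
    exact Subgroup.subset_closure ⟨t, d, rfl⟩

theorem mem_TY {g : Sq θ} : g ∈ TY θ ↔ ∃ b, g = tY θ b := by
  constructor
  · intro hg
    unfold TY at hg
    refine Subgroup.closure_induction (p := fun g _ => ∃ b : Kˣ, g = tY θ b) ?_ ?_ ?_ ?_ hg
    · intro g hg
      exact hg
    · exact ⟨1, Subtype.ext tQ_one.symm⟩
    · rintro _ _ _ _ ⟨b, rfl⟩ ⟨c, rfl⟩
      exact ⟨b * c, Subtype.ext (tQ_mul b c).symm⟩
    · rintro _ _ ⟨b, rfl⟩
      refine ⟨b⁻¹, Subtype.ext ?_⟩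
      have h : tQ θ b * tQ θ b⁻¹ = 1 := by rw [← tQ_mul, mul_inv_cancel, tQ_one]
      exact inv_eq_of_mul_eq_one_right h
  · rintro ⟨b, rfl⟩
    exact Subgroup.subset_closure ⟨b, rfl⟩
-- END ig

-- BEGIN ih
private theorem ih_sq (h : Rt θ) (b : Kˣ) : tu θ (tu θ b) * tu θ (tu θ b) = b := by
  rw [← pow_two]
  exact h.unit b

private theorem ih_tp (h : Rt θ) (b : Kˣ) (t d : K) : tY θ b * pY θ t d * (tY θ b)⁻¹ = pY θ ((b : K) ^ 2 * t) ((b : K) ^ 2 * θ (b : K) ^ 4 * d) :=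
  Subtype.ext (tQ_pQ h b t d)

private theorem ih_mul (b c : Kˣ) : tY θ (b * c) = tY θ b * tY θ c := Subtype.ext (tQ_mul b c)

private theorem ih_one : tY θ (1 : Kˣ) = 1 := Subtype.ext tQ_one

private theorem ih_J (b : Kˣ) : JY θ * tY θ b * JY θ = (tY θ b)⁻¹ := Subtype.ext (JS_tQ b)

private theorem ih_JJ : JY θ * JY θ = 1 := Subtype.ext JS_JS

private theorem ih_zero : pY θ (0 : K) 0 = 1 := Subtype.ext pQ_zero

private theorem ih_r0 (h : Rt θ) (t d : K) (h1 : ¬ (t = 0 ∧ d = 0)) :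
    ∃ (t₁ d₁ : K) (b : Kˣ) (t₂ d₂ : K), JY θ * pY θ t d * JY θ = pY θ t₁ d₁ * JY θ * tY θ b * pY θ t₂ d₂ := by
  obtain ⟨N, c, t₂, d₂, -, -, e⟩ := r0Q h h1
  exact ⟨_, _, c, t₂, d₂, Subtype.ext e⟩

private theorem ih_ent {t d u c : K} (h : pY θ t d = pY θ u c) : t = u := by
  have h1 := congrArg (fun g : Sq θ => (g.1.1 : Matrix (Fin 4) (Fin 4) K) 1 2) h
  exact h1

private theorem ih_g {G : Type*} [Group G] {J p t q : G} (hJ : J * J = 1) : t = J * p⁻¹ * (p * J * t * q) * q⁻¹ := by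
  have e : J * p⁻¹ * (p * J * t * q) * q⁻¹ = J * J * t := by group
  rw [e, hJ, one_mul]

private theorem ih_tor (h : Rt θ) (b : Kˣ) : tY θ b ∈ Subgroup.closure ((PY θ : Set (Sq θ)) ∪ {JY θ}) := by
  have hP : ∀ t d : K, pY θ t d ∈ Subgroup.closure ((PY θ : Set (Sq θ)) ∪ {JY θ}) := fun t d =>
    Subgroup.subset_closure (Or.inl ((mem_PY h).2 ⟨t, d, rfl⟩))
  have hJ : JY θ ∈ Subgroup.closure ((PY θ : Set (Sq θ)) ∪ {JY θ}) := Subgroup.subset_closure (Or.inr rfl)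
  have hb0 : (b : K) ≠ 0 := b.ne_zero
  have hs0 : θ (b : K) ≠ 0 := (map_ne_zero θ).2 hb0
  obtain ⟨N, c, t₂, d₂, hN, hc, e⟩ := r0Q h (t := (b : K)) (d := 0) (fun h0 => hb0 h0.1)
  have hN' : N = (b : K) * θ (b : K) ^ 2 := by
    rw [hN, map_zero, mul_zero, add_zero, add_zero]
  have hθN : θ N = θ (b : K) * (b : K) := by
    rw [hN', map_mul, map_pow]
    congr 1
    exact h (b : K)
  have hcb : c = b := by
    apply Units.ext
    rw [hc, hθN, hN']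
    field_simp
  have e' : JY θ * pY θ (b : K) 0 * JY θ = pY θ (0 / θ N ^ 2) ((b : K) / θ N ^ 2) * JY θ * tY θ b * pY θ t₂ d₂ := by
    rw [hcb] at e
    exact Subtype.ext e
  have e2 : tY θ b = JY θ * (pY θ (0 / θ N ^ 2) ((b : K) / θ N ^ 2))⁻¹ * (JY θ * pY θ (b : K) 0 * JY θ) * (pY θ t₂ d₂)⁻¹ := by
    rw [e']
    exact ih_g ih_JJ
  rw [e2]
  exact mul_mem (mul_mem (mul_mem hJ (inv_mem (hP _ _))) (mul_mem (mul_mem hJ (hP _ _)) hJ)) (inv_mem (hP _ _))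

/-- ROW ih. as `r1Z`.  `sq`: `c = (tu θ (tu θ c)) ^ 2`; `gen`: `r0Q` with `d = 0`: `N = t θ(t)²`, `θ N ^ 2 / N = t`, so `tY θ c` is in the closure of `PY`, `JY` for every `c` (`t = c`). -/
theorem r1Y (h : Rt θ) : R1 (PY θ) (TY θ) (JY θ) := by
  have hJ : JY θ ∈ Subgroup.closure ((PY θ : Set (Sq θ)) ∪ {JY θ}) := Subgroup.subset_closure (Or.inr rfl)
  constructor
  · exact ih_JJ
  · intro t ht
    obtain ⟨b, rfl⟩ := mem_TY.1 ht
    exact ih_J b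
  · intro t ht p hp
    obtain ⟨b, rfl⟩ := mem_TY.1 ht
    obtain ⟨u, d, rfl⟩ := (mem_PY h).1 hp
    rw [ih_tp h]
    exact (mem_PY h).2 ⟨_, _, rfl⟩
  · intro t ht
    obtain ⟨b, rfl⟩ := mem_TY.1 ht
    exact ⟨tY θ (tu θ (tu θ b)), mem_TY.2 ⟨_, rfl⟩, by rw [← ih_mul, ih_sq h]⟩
  · intro p hp h1
    obtain ⟨u, d, rfl⟩ := (mem_PY h).1 hp
    obtain ⟨t₁, d₁, b, t₂, d₂, e⟩ := ih_r0 h u d (by
      rintro ⟨rfl, rfl⟩
      exact h1 ih_zero)
    exact ⟨_, (mem_PY h).2 ⟨t₁, d₁, rfl⟩, _, mem_TY.2 ⟨b, rfl⟩, _, (mem_PY h).2 ⟨t₂, d₂, rfl⟩, e⟩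
  · intro q hq t ht p hp h1
    obtain ⟨s, c, rfl⟩ := (mem_PY h).1 hq
    obtain ⟨b, rfl⟩ := mem_TY.1 ht
    obtain ⟨u, d, rfl⟩ := (mem_PY h).1 hp
    obtain ⟨⟨rfl, rfl⟩, rfl, rfl, rfl⟩ := uniqQ s c b u d (congrArg Subtype.val h1)
    exact ⟨ih_zero, ih_one, ih_zero⟩
  · intro t ht h1
    obtain ⟨b, rfl⟩ := mem_TY.1 ht
    refine ⟨pY θ 1 0, (mem_PY h).2 ⟨1, 0, rfl⟩, fun h2 => h1 ?_⟩
    rw [ih_tp h] at h2
    have h3 : (b : K) ^ 2 * 1 = 1 := ih_ent h2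
    rw [mul_one] at h3
    have h4 : b ^ 2 ^ 1 = 1 := by
      apply Units.ext
      rw [pow_one, Units.val_pow_eq_pow_val, Units.val_one]
      exact h3
    rw [h.sq_one 1 h4, ih_one]
  · refine ⟨pY θ 1 0, (mem_PY h).2 ⟨1, 0, rfl⟩, fun h2 => ?_⟩
    have h3 : (1 : K) = 0 := ih_ent (h2.trans ih_zero.symm)
    exact one_ne_zero h3
  · rw [eq_top_iff]
    rintro g -
    have h0 : Subgroup.closure ({g | ∃ t d, g = pQ θ t d} ∪ {JS K} ∪ {g | ∃ b : Kˣ, g = tQ θ b}) ≤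
        (Subgroup.closure ((PY θ : Set (Sq θ)) ∪ {JY θ})).map (Sq θ).subtype := by
      rw [Subgroup.closure_le]
      rintro x ((⟨t, d, rfl⟩ | hx) | ⟨b, rfl⟩)
      · exact ⟨pY θ t d, Subgroup.subset_closure (Or.inl ((mem_PY h).2 ⟨t, d, rfl⟩)), rfl⟩
      · exact ⟨JY θ, hJ, (Set.mem_singleton_iff.1 hx).symm⟩
      · exact ⟨tY θ b, ih_tor h b, rfl⟩
    obtain ⟨g', hg', e⟩ := h0 g.2
    have e1 : g' = g := Subtype.ext e
    rw [← e1]
    exact hg'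
-- END ih

-- BEGIN ii
private theorem ii_ext {M N : SL2 K} (h0 : M.1 0 0 = N.1 0 0) (h1 : M.1 0 1 = N.1 0 1) (h2 : M.1 1 0 = N.1 1 0) (h3 : M.1 1 1 = N.1 1 1) : M = N := by
  apply Subtype.ext
  ext i j
  fin_cases i <;> fin_cases j
  · exact h0
  · exact h1
  · exact h2
  · exact h3

private theorem ii_dinv (b : Kˣ) : (dg b)⁻¹ = dg b⁻¹ := by
  rw [inv_eq_iff_mul_eq_one, ← dg_mul, mul_inv_cancel, dg_one]

private theorem ii_dud (b : Kˣ) (a : K) : dg b * up a * (dg b)⁻¹ = up ((b : K) * (b : K) * a) := by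
  rw [ii_dinv]
  apply ii_ext <;> simp only [Matrix.SpecialLinearGroup.coe_mul, Matrix.mul_apply, Fin.sum_univ_two] <;> simp [dg, up]
  ring

private theorem ii_nA : (nA K).1 = !![0, 1; -1, 0] := by
  have h : nA K = ⟨!![0, 1; -1, 0], by simp [Matrix.det_fin_two]⟩ := by
    apply ii_ext <;> simp only [nA, Matrix.SpecialLinearGroup.coe_mul, Matrix.mul_apply, Fin.sum_univ_two] <;> simp [up, lo]
  rw [h]

private theorem ii_neg (h : Rt θ) (a : K) : -a = a := by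
  linear_combination (-1 : K) * h.add a

private theorem ii_nn (h : Rt θ) : nA K * nA K = 1 := by
  have := ii_neg h (1 : K)
  apply ii_ext <;> simp only [Matrix.SpecialLinearGroup.coe_mul, ii_nA, Matrix.mul_apply, Fin.sum_univ_two] <;> simp [this]

private theorem ii_ndn (h : Rt θ) (b : Kˣ) : nA K * dg b * nA K = (dg b)⁻¹ := by
  have h1 := ii_neg h
  rw [ii_dinv]
  apply ii_ext <;> simp only [Matrix.SpecialLinearGroup.coe_mul, ii_nA, Matrix.mul_apply, Fin.sum_univ_two] <;> simp [dg, h1]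

private theorem ii_nun (h : Rt θ) (a : K) : nA K * up a * nA K = lo a := by
  have h1 := ii_neg h
  apply ii_ext <;> simp only [Matrix.SpecialLinearGroup.coe_mul, ii_nA, Matrix.mul_apply, Fin.sum_univ_two] <;> simp [up, lo, h1]

private theorem ii_r0 (h : Rt θ) (a : Kˣ) : lo (a : K) = up ((a⁻¹ : Kˣ) : K) * nA K * dg a * up ((a⁻¹ : Kˣ) : K) := by
  have h1 := ii_neg h
  have h2 := h.add
  apply ii_ext <;> simp only [Matrix.SpecialLinearGroup.coe_mul, ii_nA, Matrix.mul_apply, Fin.sum_univ_two] <;> simp [up, lo, dg, h1, h2]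

/-- ROW ii. as `mem_PA` .. `r1A`, for every field with such a `θ` (`sq`: `b = (tu θ (tu θ b)) ^ 2`; `dg b * up a * (dg b)⁻¹ = up (b ^ 2 * a)`) -/
theorem r1B (h : Rt θ) : R1 (PA K) (TA K) (nA K) := by
  refine ⟨ii_nn h, ?_, ?_, ?_, ?_, ?_, ?_, ?_, ?_⟩
  · intro t ht
    obtain ⟨b, rfl⟩ := mem_TA.1 ht
    exact ii_ndn h b
  · intro t ht p hp
    obtain ⟨b, rfl⟩ := mem_TA.1 ht
    obtain ⟨a, rfl⟩ := mem_PA.1 hp
    exact mem_PA.2 ⟨_, ii_dud b a⟩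
  · intro t ht
    obtain ⟨b, rfl⟩ := mem_TA.1 ht
    refine ⟨dg (tu θ (tu θ b)), mem_TA.2 ⟨_, rfl⟩, ?_⟩
    rw [← dg_mul, ← pow_two, h.unit]
  · intro p hp h1
    obtain ⟨a, rfl⟩ := mem_PA.1 hp
    have ha : a ≠ 0 := by
      rintro rfl
      exact h1 up_zero
    refine ⟨up a⁻¹, mem_PA.2 ⟨_, rfl⟩, dg (Units.mk0 a ha), mem_TA.2 ⟨_, rfl⟩, up a⁻¹, mem_PA.2 ⟨_, rfl⟩, ?_⟩
    have := ii_r0 h (Units.mk0 a ha)
    rw [ii_nun h]
    simpa using this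
  · intro q hq t ht p hp h1
    obtain ⟨c, rfl⟩ := mem_PA.1 hq
    obtain ⟨b, rfl⟩ := mem_TA.1 ht
    obtain ⟨a, rfl⟩ := mem_PA.1 hp
    rw [ii_nun h] at h1
    have e00 := congrArg (fun M : SL2 K => M.1 0 0) h1
    have e01 := congrArg (fun M : SL2 K => M.1 0 1) h1
    have e10 := congrArg (fun M : SL2 K => M.1 1 0) h1
    simp only [Matrix.SpecialLinearGroup.coe_mul, Matrix.mul_apply, Fin.sum_univ_two] at e00 e01 e10
    simp [up, lo, dg] at e00 e01 e10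
    have hb : b = 1 := Units.ext (by simpa using e00)
    subst hb
    subst e01
    subst e10
    exact ⟨up_zero, dg_one, up_zero⟩
  · intro t ht h1
    obtain ⟨b, rfl⟩ := mem_TA.1 ht
    refine ⟨up 1, mem_PA.2 ⟨_, rfl⟩, ?_⟩
    intro h3
    rw [ii_dud] at h3
    have e01 := congrArg (fun M : SL2 K => M.1 0 1) h3
    simp [up] at e01
    have hb2 : b ^ 2 ^ 1 = 1 := by
      apply Units.ext
      simpa [pow_two] using e01
    apply h1
    rw [h.sq_one 1 hb2, dg_one]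
  · refine ⟨up 1, mem_PA.2 ⟨_, rfl⟩, ?_⟩
    intro h3
    have e01 := congrArg (fun M : SL2 K => M.1 0 1) h3
    simp [up] at e01
  · rw [eq_top_iff, ← sl2_gen, Subgroup.closure_le]
    rintro g ⟨a, rfl | rfl⟩
    · exact Subgroup.subset_closure (Or.inl (mem_PA.2 ⟨a, rfl⟩))
    · rw [← ii_nun h]
      exact Subgroup.mul_mem _ (Subgroup.mul_mem _ (Subgroup.subset_closure (Or.inr rfl)) (Subgroup.subset_closure (Or.inl (mem_PA.2 ⟨a, rfl⟩)))) (Subgroup.subset_closure (Or.inr rfl))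

theorem nA_nA (h : Rt θ) : nA K * nA K = 1 := by
  exact ii_nn h

theorem nA_up (h : Rt θ) (t : K) : nA K * up t * nA K = lo t := by
  exact ii_nun h t
-- END ii

-- BEGIN ij
/-- ROW ij. Groups of rank one: if the torus element `t₀` has no fixed element `≠ 1` in the finite group `P`, the class of `t₀` has the square `S`.  `m = 1`: `t₀ * t₀⁻¹`, `n * t₀ * n = t₀⁻¹`.  `m ≠ 1`: `R1.move` with `t = 1`: `y m y⁻¹ = (n q n) * p = ((n q n) * t₀) * (t₀⁻¹ * p)`; `conj_of_fix` for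
`W = n P n`, `conj_of_fix'` for `P`. -/
theorem R1.square {S : Type*} [Group S] {P T : Subgroup S} {n : S} (h : R1 P T n) (hf : (P : Set S).Finite) {t₀ : S} (ht : t₀ ∈ T) (h1 : ∀ p ∈ P, t₀ * p * t₀⁻¹ = p → p = 1) :
    ∀ m : S, ∃ x y : S, IsConj t₀ x ∧ IsConj t₀ y ∧ x * y = m := by
  have hn : n⁻¹ = n := inv_eq_of_mul_eq_one_right h.nn
  have hi : IsConj t₀ t₀⁻¹ := isConj_iff.2 ⟨n, by rw [hn, h.nt t₀ ht]⟩
  intro m
  by_cases hm : m = 1
  · exact ⟨t₀, t₀⁻¹, IsConj.refl _, hi, by rw [hm, mul_inv_cancel]⟩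
  obtain ⟨y, q, hq, p, hp, e⟩ := h.move hm T.one_mem
  -- the opposite unipotent subgroup
  have hV : ∀ v, v ∈ P.map (MulAut.conj n).toMonoidHom ↔ ∃ p ∈ P, v = n * p * n := fun v => by
    rw [Subgroup.mem_map]
    constructor
    · rintro ⟨p, hp, rfl⟩
      exact ⟨p, hp, by
        show n * p * n⁻¹ = n * p * n
        rw [hn]⟩
    · rintro ⟨p, hp, rfl⟩
      exact ⟨p, hp, by
        show n * p * n⁻¹ = n * p * n
        rw [hn]⟩
  have hc : ∀ p, t₀ * (n * p * n) * t₀⁻¹ = n * (t₀⁻¹ * p * t₀) * n := fun p => by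
    have e1 : n * t₀⁻¹ = t₀ * n := by
      rw [← h.nt t₀ ht, ← mul_assoc, ← mul_assoc, h.nn, one_mul]
    have e2 : t₀ * n = n * t₀⁻¹ := e1.symm
    have e3 : n * t₀⁻¹ * p * (t₀ * n) = n * (t₀⁻¹ * p * t₀) * n := by group
    calc t₀ * (n * p * n) * t₀⁻¹ = (t₀ * n) * p * (n * t₀⁻¹) := by group
      _ = (n * t₀⁻¹) * p * (t₀ * n) := by rw [e2]
      _ = n * (t₀⁻¹ * p * t₀) * n := e3
  have hcon : ∀ p ∈ P, t₀⁻¹ * p * t₀ ∈ P := fun p hp => by
    have h2 := h.tp t₀⁻¹ (T.inv_mem ht) p hp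
    rwa [inv_inv] at h2
  obtain ⟨a, -, ea⟩ := conj_of_fix (W := P.map (MulAut.conj n).toMonoidHom) (b := t₀) (v := n * q * n) (by
      rw [Subgroup.coe_map]
      exact hf.image _) (by
      intro v hv
      obtain ⟨p, hp, rfl⟩ := (hV v).1 hv
      rw [hc]
      exact (hV _).2 ⟨_, hcon p hp, rfl⟩) (by
      intro v hv hfix
      obtain ⟨p, hp, rfl⟩ := (hV v).1 hv
      rw [hc] at hfix
      have h2 : t₀⁻¹ * p * t₀ = p := mul_left_cancel (mul_right_cancel hfix)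
      have h3 : t₀ * p * t₀⁻¹ = p := by
        calc t₀ * p * t₀⁻¹ = t₀ * (t₀⁻¹ * p * t₀) * t₀⁻¹ := by rw [h2]
          _ = p := by group
      rw [h1 p hp h3, mul_one, h.nn]) ((hV _).2 ⟨q, hq, rfl⟩)
  obtain ⟨c, -, ec⟩ := conj_of_fix' (W := P) (b := t₀⁻¹) hf (by
      intro v hv
      rw [inv_inv]
      exact hcon v hv) (by
      intro v hv hfix
      rw [inv_inv] at hfix
      refine h1 v hv ?_
      calc t₀ * v * t₀⁻¹ = t₀ * (t₀⁻¹ * v * t₀) * t₀⁻¹ := by rw [hfix]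
        _ = v := by group) hp
  have k1 : IsConj t₀ (n * q * n * t₀) := by
    rw [ea]
    exact isConj_iff.2 ⟨a, rfl⟩
  have k2 : IsConj t₀ (t₀⁻¹ * p) := by
    rw [ec]
    exact hi.trans (isConj_iff.2 ⟨c, rfl⟩)
  refine ⟨y⁻¹ * (n * q * n * t₀) * y, y⁻¹ * (t₀⁻¹ * p) * y, k1.trans (isConj_iff.2 ⟨y⁻¹, by rw [inv_inv]⟩),
    k2.trans (isConj_iff.2 ⟨y⁻¹, by rw [inv_inv]⟩), ?_⟩
  have e3 : y⁻¹ * (n * q * n * t₀) * y * (y⁻¹ * (t₀⁻¹ * p) * y) = y⁻¹ * (n * q * n * 1 * p) * y := by group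
  rw [e3, ← e]
  group

/-- Thompson's conjecture for the Suzuki groups -/
theorem suzuki [Finite K] (h : Rt θ) (h2 : 2 < Nat.card K) : ∃ w : Sq θ, ∀ m : Sq θ, ∃ x y : Sq θ, IsConj w x ∧ IsConj w y ∧ x * y = m := by
  classical
  obtain ⟨c, hc0, hc1⟩ : ∃ c : K, c ≠ 0 ∧ c ≠ 1 := by
    by_contra hcon
    push Not at hcon
    have hle : Nat.card K ≤ 2 := by
      have hs : (Set.univ : Set K) ⊆ {0, 1} := fun x _ => by
        by_cases hx : x = 0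
        · exact Or.inl hx
        · exact Or.inr (hcon x hx)
      rw [← Set.ncard_univ]
      exact (Set.ncard_le_ncard hs (Set.toFinite _)).trans (Set.ncard_insert_le 0 {1} |>.trans (by rw [Set.ncard_singleton]))
    omega
  have hu1 : Units.mk0 c hc0 ≠ 1 := fun e => hc1 (congrArg Units.val e)
  refine ⟨tY θ (Units.mk0 c hc0), R1.square (r1Y h) ?_ (mem_TY.2 ⟨_, rfl⟩) ?_⟩
  · refine (Set.finite_range fun p : K × K => pY θ p.1 p.2).subset fun g hg => ?_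
    obtain ⟨t, d, rfl⟩ := (mem_PY h).1 hg
    exact ⟨(t, d), rfl⟩
  · intro p hp e
    obtain ⟨t, d, rfl⟩ := (mem_PY h).1 hp
    have e1 : tQ θ (Units.mk0 c hc0) * pQ θ t d * (tQ θ (Units.mk0 c hc0))⁻¹ = pQ θ t d := congrArg Subtype.val e
    rw [tQ_pQ h] at e1
    have e2 : c ^ 2 * t = t := congrArg (fun M : Matrix.SpecialLinearGroup (Fin 4) K => M.1 1 2) e1
    have ht : t = 0 := by
      by_contra ht
      have e3 : c ^ 2 = 1 := mul_right_cancel₀ ht (by rw [e2, one_mul])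
      exact hu1 (h.sq_one 1 (Units.ext (by
        show c ^ 2 ^ 1 = 1
        rw [pow_one, e3])))
    subst ht
    have e4 := congrArg (fun M : Matrix.SpecialLinearGroup (Fin 4) K => M.1 0 3) e1
    have e5 : c ^ 2 * θ c ^ 4 * d = d := by
      have e6 : (c ^ 2 * 0) * θ (c ^ 2 * 0) ^ 2 + θ (c ^ 2 * 0) * θ (c ^ 2 * θ c ^ 4 * d) + c ^ 2 * θ c ^ 4 * d =
          0 * θ (0 : K) ^ 2 + θ (0 : K) * θ d + d := e4
      simpa using e6
    have hd : d = 0 := by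
      by_contra hd
      have e3 : c ^ 2 * θ c ^ 4 = 1 := mul_right_cancel₀ hd (by rw [e5, one_mul])
      refine hu1 (mo_inj (θ := θ) (p := (2, 4)) (k := 3) h (Or.inr (by norm_num)) ?_)
      apply Units.ext
      show ((Units.mk0 c hc0 ^ (2 : ℤ) * tu θ (Units.mk0 c hc0) ^ (4 : ℤ) : Kˣ) : K) = 1
      rw [zpow_ofNat, zpow_ofNat, Units.val_mul, Units.val_pow_eq_pow_val, Units.val_pow_eq_pow_val]
      exact e3
    subst hd
    exact Subtype.ext pQ_zero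
-- END ij

end Pool.Agent.ThO2
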