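import Pool.Agent.ThO2.Ray
import Pool.Agent.ThO3.Szq

/-! # The groups `²F_4(q)`, `q = 2 ^ (2 m + 1)`: sixteen root subgroups, the two nodes (`A`: `SL_2(q)`, ray `1`; `B`: `Sz(q)`, ray `8`), and the theorem for `q > 8`

As `Pool/Agent/ThO2/Ray.lean` with `θ` (`2 θ² = 1`) in place of `t ↦ t²`; the torus is a copy of `Kˣ × Kˣ`, its characters are pairs of exponents in `ℤ[θ]`.
-/

namespace Pool.Agent.ThO2

open ThG

variable {K : Type*} [Field K] {θ : K →+* K} {G : Type*} [Group G]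

/-- the characters: `fA (dg b)` acts on `e i t` by `mo θ b (cA i)`, `fB (tY θ b)` by `mo θ b (cB i)` -/
def cA (i : Fin 16) : ℤ × ℤ := (![(1, 0), (2, 0), (1, 0), (0, 2), (-1, 2), (0, 0), (1, -2), (0, -2), (-1, 0), (-2, 0), (-1, 0), (0, -2), (1, -2), (0, 0), (-1, 2), (0, 2)] : Fin 16 → ℤ × ℤ) i

/-- the second character -/
def cB (i : Fin 16) : ℤ × ℤ := (![(-2, 0), (-2, -2), (0, -2), (0, -2), (0, 0), (0, 2), (0, 2), (2, 2), (2, 0), (2, 2), (0, 2), (0, 2), (0, 0), (0, -2), (0, -2), (-2, -2)] : Fin 16 → ℤ × ℤ) i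

/-- the element `s` with `θ(s)² s = d` -/
def zt (θ : K →+* K) (d : K) : K := θ d ^ 2 * d⁻¹

/-- the data of `²F_4(q)` -/
structure RayQ (θ : K →+* K) (e : Fin 16 → K → G) (fA : SL2 K →* G) (fB : Sq θ →* G) : Prop where
  gen : Subgroup.closure {g : G | ∃ i t, g = e i t} = ⊤
  wA : ∀ i t, fA (nA K) * e i t * (fA (nA K))⁻¹ = e (10 - i) t
  wB : ∀ i t, fB (JY θ) * e i t * (fB (JY θ))⁻¹ = e (8 - i) t
  e1 : ∀ t, fA (up t) = e 1 t
  e8 : ∀ t, fB (pY θ t 0) = e 8 t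
  tA : ∀ (b : Kˣ) i t, fA (dg b) * e i t * (fA (dg b))⁻¹ = e i ((mo θ b (cA i) : K) * t)
  tB : ∀ (b : Kˣ) i t, fB (tY θ b) * e i t * (fB (tY θ b))⁻¹ = e i ((mo θ b (cB i) : K) * t)
  cm : ∀ b c : Kˣ, fA (dg b) * fB (tY θ c) = fB (tY θ c) * fA (dg b)
  nAt : ∀ b : Kˣ, fA (nA K) * fB (tY θ b) * (fA (nA K))⁻¹ = fA (dg (b ^ 2 * tu θ b ^ 2)) * fB (tY θ b)
  nBt : ∀ b : Kˣ, fB (JY θ) * fA (dg b) * (fB (JY θ))⁻¹ = fA (dg b) * fB (tY θ b)
  com : ∀ i k : Fin 16, 1 ≤ k → k ≤ 7 → ∀ t u, e i t * e (i + k) u * (e i t)⁻¹ * (e (i + k) u)⁻¹ ∈ Bet e i k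

/-- the torus -/
def HQ (fA : SL2 K →* G) (fB : Sq θ →* G) : Subgroup G := Subgroup.closure {g | ∃ a b : Kˣ, g = fA (dg a) * fB (tY θ b)}

/-- the part of the torus that commutes with node `B` (`Sz(q)`) -/
def ZBQ (fA : SL2 K →* G) (fB : Sq θ →* G) : Subgroup G := Subgroup.closure {g | ∃ a : Kˣ, g = fA (dg (a ^ 2)) * fB (tY θ a)}

/-- the part of the torus that commutes with node `A` (`SL_2(q)`) -/
def ZAQ (fA : SL2 K →* G) (fB : Sq θ →* G) : Subgroup G := Subgroup.closure {g | ∃ b : Kˣ, g = fA (dg (b * tu θ b)) * fB (tY θ b)}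

variable {e : Fin 16 → K → G} {fA : SL2 K →* G} {fB : Sq θ →* G}

-- BEGIN zz
theorem zt_sq (h : Rt θ) (d : K) : θ (zt θ d) ^ 2 * zt θ d = d := by
  unfold zt
  by_cases hd : d = 0
  · rw [hd]
    simp
  · have h1 : θ d ≠ 0 := fun h2 => hd ((map_eq_zero θ).1 h2)
    rw [map_mul, map_pow, map_inv₀, h d]
    field_simp

theorem mo_ne (h : Rt θ) {p : ℤ × ℤ} {k : ℕ} (hp : 2 * p.1 ^ 2 - p.2 ^ 2 = 2 ^ k ∨ 2 * p.1 ^ 2 - p.2 ^ 2 = -2 ^ k) {z w : Kˣ} (h1 : mo θ z p = mo θ w p) : z = w := by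
  have h2 : mo θ (z * w⁻¹) p * mo θ w p = mo θ w p := by
    rw [← mo_mul, inv_mul_cancel_right, h1]
  have h3 := mo_inj h hp (mul_eq_right.1 h2)
  exact mul_inv_eq_one.1 h3
-- END zz

-- BEGIN fz
private theorem fz_fin (i : Fin 16) : 10 - (8 - i) = i + 2 := by
  revert i
  decide

/-- ROW fz. Rotation: `c = (fA (nA K) * fB (JY θ)) ^ m` maps the ray `i` to `i + 2 m` (`wB`, `wA`: `10 - (8 - i) = i + 2`) -/
theorem RayQ.rot (h : RayQ θ e fA fB) (i : Fin 16) (t : K) : (fA (nA K) * fB (JY θ)) * e i t * (fA (nA K) * fB (JY θ))⁻¹ = e (i + 2) t := by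
  have h1 : (fA (nA K) * fB (JY θ)) * e i t * (fA (nA K) * fB (JY θ))⁻¹ = fA (nA K) * (fB (JY θ) * e i t * (fB (JY θ))⁻¹) * (fA (nA K))⁻¹ := by group
  rw [h1, h.wB, h.wA, fz_fin]

private theorem fz_o1 (i : Fin 16) : (i : ℕ) % 2 = 1 → (1 : Fin 16) + Fin.ofNat 16 (2 * ((i : ℕ) / 2)) = i := by
  revert i
  decide

private theorem fz_o8 (i : Fin 16) : (i : ℕ) % 2 = 0 → (8 : Fin 16) + Fin.ofNat 16 (2 * ((i : ℕ) / 2 + 4)) = i := by
  revert i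
  decide

private theorem fz_step (h : RayQ θ e fA fB) (i : Fin 16) : ∀ m : ℕ, ∃ c : G, ∀ t, e (i + Fin.ofNat 16 (2 * m)) t = c * e i t * c⁻¹ := by
  intro m
  induction m with
  | zero =>
    refine ⟨1, fun t => ?_⟩
    have h0 : i + Fin.ofNat 16 (2 * 0) = i := by
      revert i
      decide
    rw [h0]
    group
  | succ m ih =>
    obtain ⟨c, hc⟩ := ih
    refine ⟨(fA (nA K) * fB (JY θ)) * c, fun t => ?_⟩
    have h0 : i + Fin.ofNat 16 (2 * (m + 1)) = i + Fin.ofNat 16 (2 * m) + 2 := by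
      apply Fin.ext
      simp only [Fin.val_add, Fin.ofNat_eq_cast, Fin.val_natCast]
      have h2 : ((2 : Fin 16) : ℕ) = 2 := rfl
      rw [h2]
      omega
    rw [h0, ← h.rot, hc]
    group

theorem RayQ.rot1 (h : RayQ θ e fA fB) {i : Fin 16} (hi : (i : ℕ) % 2 = 1) : ∃ c : G, ∀ t, e i t = c * e 1 t * c⁻¹ := by
  obtain ⟨c, hc⟩ := fz_step h 1 ((i : ℕ) / 2)
  refine ⟨c, fun t => ?_⟩
  rw [← hc, fz_o1 i hi]

theorem RayQ.rot8 (h : RayQ θ e fA fB) {i : Fin 16} (hi : (i : ℕ) % 2 = 0) : ∃ c : G, ∀ t, e i t = c * e 8 t * c⁻¹ := by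
  obtain ⟨c, hc⟩ := fz_step h 8 ((i : ℕ) / 2 + 4)
  refine ⟨c, fun t => ?_⟩
  rw [← hc, fz_o8 i hi]
-- END fz

-- BEGIN fa
private theorem fa_inv {W : Subgroup G} {x : G} (h4 : x ^ 4 = 1) (h : ∀ u ∈ W, x * u * x⁻¹ ∈ W) : ∀ u ∈ W, x⁻¹ * u * x ∈ W := by
  intro u hu
  have h3 : x⁻¹ = x * (x * x) := by
    rw [inv_eq_iff_mul_eq_one, ← h4]
    simp only [pow_succ, pow_zero, one_mul, mul_assoc]
  have h5 := h _ (h _ (h u hu))
  have h6 : x⁻¹ * u * x = x * (x * (x * u * x⁻¹) * x⁻¹) * x⁻¹ := by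
    have h7 : x = x⁻¹ * (x⁻¹ * x⁻¹) := by
      have h8 := congrArg (fun y => y⁻¹) h3
      simp only [inv_inv, mul_inv_rev] at h8
      calc x = x⁻¹ * x⁻¹ * x⁻¹ := h8
        _ = x⁻¹ * (x⁻¹ * x⁻¹) := mul_assoc _ _ _
    calc x⁻¹ * u * x = x * (x * x) * u * (x⁻¹ * (x⁻¹ * x⁻¹)) := by rw [← h7, ← h3]
      _ = x * (x * (x * u * x⁻¹) * x⁻¹) * x⁻¹ := by simp only [mul_assoc]
  rw [h6]
  exact h5

private theorem fa_clo {W : Subgroup G} {S : Set G} (h4 : ∀ x ∈ S, x ^ 4 = 1) (h : ∀ x ∈ S, ∀ u ∈ W, x * u * x⁻¹ ∈ W) {x u : G} (hx : x ∈ Subgroup.closure S) (hu : u ∈ W) : x * u * x⁻¹ ∈ W := by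
  have key : ∀ x ∈ Subgroup.closure S, (∀ u ∈ W, x * u * x⁻¹ ∈ W) ∧ (∀ u ∈ W, x⁻¹ * u * x ∈ W) := by
    intro x hx
    induction hx using Subgroup.closure_induction with
    | mem x hx => exact ⟨h x hx, fa_inv (h4 x hx) (h x hx)⟩
    | one => exact ⟨fun u hu => by simpa using hu, fun u hu => by simpa using hu⟩
    | mul x y _ _ hx hy =>
      refine ⟨fun u hu => ?_, fun u hu => ?_⟩
      · have := hx.1 _ (hy.1 u hu)
        have h2 : x * y * u * (x * y)⁻¹ = x * (y * u * y⁻¹) * x⁻¹ := by group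
        rw [h2]
        exact this
      · have := hy.2 _ (hx.2 u hu)
        have h2 : (x * y)⁻¹ * u * (x * y) = y⁻¹ * (x⁻¹ * u * x) * y := by group
        rw [h2]
        exact this
    | inv x _ hx =>
      refine ⟨fun u hu => ?_, fun u hu => ?_⟩
      · rw [inv_inv]
        exact hx.2 u hu
      · rw [inv_inv]
        exact hx.1 u hu
  exact (key x hx).1 u hu

private theorem fa_gen {W : Subgroup G} {T : Set G} (hW : W = Subgroup.closure T) {x : G} (h : ∀ g ∈ T, x * g * x⁻¹ ∈ W) : ∀ u ∈ W, x * u * x⁻¹ ∈ W := by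
  intro u hu
  rw [hW] at hu
  induction hu using Subgroup.closure_induction with
  | mem g hg => exact h g hg
  | one => simp
  | mul a b _ _ ha hb =>
    have h2 : x * (a * b) * x⁻¹ = (x * a * x⁻¹) * (x * b * x⁻¹) := by group
    rw [h2]
    exact W.mul_mem ha hb
  | inv a _ ha =>
    have h2 : x * a⁻¹ * x⁻¹ = (x * a * x⁻¹)⁻¹ := by group
    rw [h2]
    exact W.inv_mem ha

private theorem fa_p4 (hθ : Rt θ) (t : K) : (pY θ t 0) ^ 4 = 1 := by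
  have h2 : (pY θ t 0) * (pY θ t 0) = pY θ 0 (θ t ^ 2 * t) := by
    apply Subtype.ext
    change pQ θ t 0 * pQ θ t 0 = pQ θ 0 (θ t ^ 2 * t)
    rw [pQ_mul hθ, hθ.add]
    congr 1
    ring
  have h3 : (pY θ 0 (θ t ^ 2 * t)) * (pY θ 0 (θ t ^ 2 * t)) = 1 := by
    apply Subtype.ext
    change pQ θ 0 (θ t ^ 2 * t) * pQ θ 0 (θ t ^ 2 * t) = 1
    rw [pQ_mul hθ, hθ.add, hθ.add, ← pQ_zero]
    congr 1
    simp
  have h4 : (pY θ t 0) ^ 4 = (pY θ t 0 * pY θ t 0) * (pY θ t 0 * pY θ t 0) := by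
    simp only [pow_succ, pow_zero, one_mul, mul_assoc]
  rw [h4, h2, h3]

private theorem fa_u4 (hθ : Rt θ) (t : K) : (up t) ^ 4 = 1 := by
  have h4 : (up t) ^ 4 = (up t * up t) * (up t * up t) := by
    simp only [pow_succ, pow_zero, one_mul, mul_assoc]
  rw [h4, ← up_add, hθ.add, up_zero, one_mul]

/-- ROW fa. `e_four`: `rot1`, `rot8`, `e1`, `e8`, `pS_mul`.  Ray `i` normalizes the group of the rays `i + 1, .., i + 1 + k`, `k ≤ 6`: generators: `e i t * e (i + 1 + l) s * (e i t)⁻¹ = [e i t, e (i + (1 + l)) s] * e (i + 1 + l) s`, and `Bet e i (1 + l) ≤ Iv e (i + 1) k` (`com`); closure induction for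
`x` (inverses of generators: `(e i t)⁻¹ = (e i t) ^ 3`, `e_four`) -/
theorem RayQ.e_four (hθ : Rt θ) (h : RayQ θ e fA fB) (i : Fin 16) (t : K) : e i t ^ 4 = 1 := by
  rcases Nat.mod_two_eq_zero_or_one (i : ℕ) with hi | hi
  · obtain ⟨c, hc⟩ := h.rot8 hi
    rw [hc t, conj_pow, ← h.e8 t, ← map_pow, fa_p4 hθ, map_one, mul_one, mul_inv_cancel]
  · obtain ⟨c, hc⟩ := h.rot1 hi
    rw [hc t, conj_pow, ← h.e1 t, ← map_pow, fa_u4 hθ, map_one, mul_one, mul_inv_cancel]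

theorem RayQ.left (hθ : Rt θ) (h : RayQ θ e fA fB) {i k : Fin 16} (hk : k ≤ 6) {x u : G} (hx : x ∈ Xg e i) (hu : u ∈ Iv e (i + 1) k) : x * u * x⁻¹ ∈ Iv e (i + 1) k := by
  refine fa_clo (S := {g | ∃ t, g = e i t}) ?_ ?_ hx hu
  · rintro x ⟨t, rfl⟩
    exact h.e_four hθ i t
  · rintro x ⟨t, rfl⟩
    refine fa_gen rfl ?_
    rintro g ⟨l, s, hl, rfl⟩
    have h1 : (1 : Fin 16) ≤ 1 + l := by
      rw [Fin.le_def, Fin.val_add] at *
      have : ((1 : Fin 16) : ℕ) = 1 := rfl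
      have : ((6 : Fin 16) : ℕ) = 6 := rfl
      omega
    have h7 : 1 + l ≤ (7 : Fin 16) := by
      rw [Fin.le_def] at *
      rw [Fin.val_add]
      have : ((1 : Fin 16) : ℕ) = 1 := rfl
      have : ((6 : Fin 16) : ℕ) = 6 := rfl
      have : ((7 : Fin 16) : ℕ) = 7 := rfl
      omega
    have h2 := h.com i (1 + l) h1 h7 t s
    have h3 : Bet e i (1 + l) ≤ Iv e (i + 1) k := by
      rw [Bet, Iv, Subgroup.closure_le]
      rintro g ⟨m, s', hm0, hm, rfl⟩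
      apply Subgroup.subset_closure
      refine ⟨m - 1, s', ?_, ?_⟩
      · have ha : ((1 : Fin 16) : ℕ) = 1 := rfl
        have hb : ((6 : Fin 16) : ℕ) = 6 := rfl
        have hc : ((0 : Fin 16) : ℕ) = 0 := rfl
        rw [Fin.le_def] at hl hk ⊢
        rw [Fin.lt_def] at hm0 hm
        rw [Fin.val_add] at hm
        rw [Fin.sub_def]
        change (16 - (1 : Fin 16).val + m.val) % 16 ≤ k.val
        omega
      · congr 1
        abel
    have h4 : e i t * e (i + 1 + l) s * (e i t)⁻¹ = (e i t * e (i + (1 + l)) s * (e i t)⁻¹ * (e (i + (1 + l)) s)⁻¹) * e (i + 1 + l) s := by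
      rw [← add_assoc]
      group
    rw [h4]
    exact (Iv e (i + 1) k).mul_mem (h3 h2) (Subgroup.subset_closure ⟨l, s, hl, rfl⟩)

/-- ray `i + k + 1` normalizes the group of the rays `i, .., i + k`, `k ≤ 6` -/
theorem RayQ.right (hθ : Rt θ) (h : RayQ θ e fA fB) {i k : Fin 16} (hk : k ≤ 6) {x u : G} (hx : x ∈ Xg e (i + k + 1)) (hu : u ∈ Iv e i k) : x * u * x⁻¹ ∈ Iv e i k := by
  refine fa_clo (S := {g | ∃ t, g = e (i + k + 1) t}) ?_ ?_ hx hu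
  · rintro x ⟨t, rfl⟩
    exact h.e_four hθ _ t
  · rintro x ⟨t, rfl⟩
    refine fa_gen rfl ?_
    rintro g ⟨l, s, hl, rfl⟩
    have ha : ((1 : Fin 16) : ℕ) = 1 := rfl
    have hb : ((6 : Fin 16) : ℕ) = 6 := rfl
    have hc : ((0 : Fin 16) : ℕ) = 0 := rfl
    have hd : ((7 : Fin 16) : ℕ) = 7 := rfl
    have hv : ((k + 1 - l : Fin 16) : ℕ) = (16 - l.val + (k.val + 1) % 16) % 16 := by
      rw [Fin.sub_def]
      change (16 - l.val + (k + 1).val) % 16 = _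
      rw [Fin.val_add, ha]
    have h1 : (1 : Fin 16) ≤ k + 1 - l := by
      rw [Fin.le_def] at *
      omega
    have h7 : k + 1 - l ≤ (7 : Fin 16) := by
      rw [Fin.le_def] at *
      omega
    have h2 := h.com (i + l) (k + 1 - l) h1 h7 s t
    have h5 : i + l + (k + 1 - l) = i + k + 1 := by abel
    rw [h5] at h2
    have h3 : Bet e (i + l) (k + 1 - l) ≤ Iv e i k := by
      rw [Bet, Iv, Subgroup.closure_le]
      rintro g ⟨m, s', hm0, hm, rfl⟩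
      apply Subgroup.subset_closure
      refine ⟨l + m, s', ?_, ?_⟩
      · rw [Fin.le_def] at hl hk ⊢
        rw [Fin.lt_def] at hm0 hm
        rw [Fin.val_add]
        omega
      · congr 1
        abel
    have h4 : e (i + k + 1) t * e (i + l) s * (e (i + k + 1) t)⁻¹ = (e (i + l) s * e (i + k + 1) t * (e (i + l) s)⁻¹ * (e (i + k + 1) t)⁻¹)⁻¹ * e (i + l) s := by
      group
    rw [h4]
    exact (Iv e i k).mul_mem ((Iv e i k).inv_mem (h3 h2)) (Subgroup.subset_closure ⟨l, s, hl, rfl⟩)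
-- END fa

-- BEGIN fb
private theorem fb_split {X W : Subgroup G} {S : Set G} (hS : ∀ g ∈ S, g ∈ X ∨ g ∈ W) (hn : ∀ x ∈ X, ∀ w ∈ W, x * w * x⁻¹ ∈ W) {u : G} (hu : u ∈ Subgroup.closure S) :
    ∃ x ∈ X, ∃ w ∈ W, u = x * w := by
  refine Subgroup.closure_induction (p := fun u _ => ∃ x ∈ X, ∃ w ∈ W, u = x * w) ?_ ?_ ?_ ?_ hu
  · intro g hg
    rcases hS g hg with h | h
    · exact ⟨g, h, 1, W.one_mem, (mul_one g).symm⟩
    · exact ⟨1, X.one_mem, g, h, (one_mul g).symm⟩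
  · exact ⟨1, X.one_mem, 1, W.one_mem, (one_mul 1).symm⟩
  · rintro _ _ _ _ ⟨x, hx, w, hw, rfl⟩ ⟨x', hx', w', hw', rfl⟩
    refine ⟨x * x', X.mul_mem hx hx', x'⁻¹ * w * x'⁻¹⁻¹ * w', W.mul_mem (hn _ (X.inv_mem hx') w hw) hw', ?_⟩
    group
  · rintro _ _ ⟨x, hx, w, hw, rfl⟩
    refine ⟨x⁻¹, X.inv_mem hx, x * w⁻¹ * x⁻¹, hn x hx _ (W.inv_mem hw), ?_⟩
    group

private theorem fb_L : ∀ k l : Fin 16, k ≤ 6 → l ≤ k + 1 → l = 0 ∨ (l - 1 ≤ k ∧ l = 1 + (l - 1)) := by decide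

private theorem fb_R : ∀ k l : Fin 16, k ≤ 6 → l ≤ k + 1 → l ≤ k ∨ l = k + 1 := by decide

/-- ROW fb. Splitting: `k ≤ 6`; the set of the `x * u'` is stable under left multiplication by the generators of `Iv e i (k + 1)` (`RayQ.left`) -/
theorem RayQ.splitL (hθ : Rt θ) (h : RayQ θ e fA fB) {i k : Fin 16} (hk : k ≤ 6) {u : G} (hu : u ∈ Iv e i (k + 1)) : ∃ x ∈ Xg e i, ∃ u' ∈ Iv e (i + 1) k, u = x * u' := by
  refine fb_split (X := Xg e i) (W := Iv e (i + 1) k) ?_ (fun x hx w hw => RayQ.left hθ h hk hx hw) hu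
  rintro g ⟨l, s, hl, rfl⟩
  rcases fb_L k l hk hl with h0 | ⟨h1, h2⟩
  · left
    rw [h0, add_zero]
    exact Subgroup.subset_closure ⟨s, rfl⟩
  · right
    rw [h2, ← add_assoc]
    exact Subgroup.subset_closure ⟨l - 1, s, h1, rfl⟩

theorem RayQ.splitR (hθ : Rt θ) (h : RayQ θ e fA fB) {i k : Fin 16} (hk : k ≤ 6) {u : G} (hu : u ∈ Iv e i (k + 1)) : ∃ x ∈ Xg e (i + k + 1), ∃ u' ∈ Iv e i k, u = x * u' := by
  refine fb_split (X := Xg e (i + k + 1)) (W := Iv e i k) ?_ (fun x hx w hw => RayQ.right hθ h hk hx hw) hu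
  rintro g ⟨l, s, hl, rfl⟩
  rcases fb_R k l hk hl with h1 | h1
  · right
    exact Subgroup.subset_closure ⟨l, s, h1, rfl⟩
  · left
    rw [h1, ← add_assoc]
    exact Subgroup.subset_closure ⟨s, rfl⟩
-- END fb

-- BEGIN fc
private theorem fc_JJ : JY θ * JY θ = 1 := Subtype.ext JS_JS

private theorem fc_conj {c : G} {i j : Fin 16} (hc : ∀ t, c * e i t * c⁻¹ = e j t) {g : G} (hg : g ∈ Xg e i) : c * g * c⁻¹ ∈ Xg e j := by
  have h : Xg e i ≤ (Xg e j).comap (MulAut.conj c).toMonoidHom := by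
    refine (Subgroup.closure_le _).2 ?_
    rintro x ⟨t, rfl⟩
    refine Subgroup.mem_comap.2 ?_
    show c * e i t * c⁻¹ ∈ Xg e j
    rw [hc]
    exact Subgroup.subset_closure ⟨t, rfl⟩
  exact h hg

/-- ROW fc. The rays `0, 9` at the nodes: `nA * up t * nA⁻¹ = lo (-t)`, `-t = t`; `wA`, `wB` -/
theorem RayQ.e9 (hθ : Rt θ) (h : RayQ θ e fA fB) (t : K) : fA (lo t) = e 9 t := by
  have h1 := h.wA 1 t
  rw [← h.e1 t, ← map_inv, ← map_mul, ← map_mul, inv_eq_of_mul_eq_one_right (nA_nA hθ), nA_up hθ] at h1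
  exact h1

theorem RayQ.e0 (h : RayQ θ e fA fB) (t : K) : fB (JY θ * pY θ t 0 * JY θ) = e 0 t := by
  have h1 := h.wB 8 t
  rw [← h.e8 t, ← map_inv, ← map_mul, ← map_mul, inv_eq_of_mul_eq_one_right fc_JJ] at h1
  exact h1

/-- `pY θ t d = pY θ t 0 * pY θ 0 d`, `pY θ 0 d = pY θ (zt θ d) 0 * pY θ (zt θ d) 0` (`pQ_mul`, `zt_sq`) -/
theorem RayQ.mem8 (hθ : Rt θ) (h : RayQ θ e fA fB) {g : G} : g ∈ Xg e 8 ↔ ∃ p ∈ PY θ, g = fB p := by
  constructor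
  · intro hg
    have h1 : Xg e 8 ≤ (PY θ).map fB := by
      refine (Subgroup.closure_le _).2 ?_
      rintro x ⟨t, rfl⟩
      rw [← h.e8 t]
      exact Subgroup.mem_map_of_mem _ (Subgroup.subset_closure ⟨t, 0, rfl⟩)
    obtain ⟨p, hp, rfl⟩ := Subgroup.mem_map.1 (h1 hg)
    exact ⟨p, hp, rfl⟩
  · rintro ⟨p, hp, rfl⟩
    have h1 : PY θ ≤ (Xg e 8).comap fB := by
      refine (Subgroup.closure_le _).2 ?_
      rintro x ⟨t, d, rfl⟩
      refine Subgroup.mem_comap.2 ?_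
      have k : ∀ s : K, fB (pY θ s 0) ∈ Xg e 8 := fun s => by
        rw [h.e8 s]
        exact Subgroup.subset_closure ⟨s, rfl⟩
      have e1 : pY θ (zt θ d) 0 * pY θ (zt θ d) 0 = pY θ 0 d := by
        refine Subtype.ext ?_
        show pQ θ (zt θ d) 0 * pQ θ (zt θ d) 0 = pQ θ 0 d
        rw [pQ_mul hθ, hθ.add, zt_sq hθ, add_zero, zero_add]
      have e2 : pY θ t d = pY θ t 0 * (pY θ (zt θ d) 0 * pY θ (zt θ d) 0) := by
        rw [e1]
        refine Subtype.ext ?_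
        show pQ θ t d = pQ θ t 0 * pQ θ 0 d
        rw [pQ_mul hθ]
        congr 1
        · ring
        · ring
      rw [e2, map_mul, map_mul]
      exact (Xg e 8).mul_mem (k t) ((Xg e 8).mul_mem (k _) (k _))
    exact h1 hp

theorem RayQ.mem0 (hθ : Rt θ) (h : RayQ θ e fA fB) {g : G} : g ∈ Xg e 0 ↔ ∃ p ∈ PY θ, g = fB (JY θ * p * JY θ) := by
  have hJ : (fB (JY θ))⁻¹ = fB (JY θ) := by
    rw [← map_inv, inv_eq_of_mul_eq_one_right fc_JJ]
  have hJ2 : fB (JY θ) * fB (JY θ) = 1 := by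
    rw [← map_mul, fc_JJ, map_one]
  constructor
  · intro hg
    have h1 := fc_conj (h.wB 0) hg
    obtain ⟨p, hp, hp2⟩ := (h.mem8 hθ).1 h1
    refine ⟨p, hp, ?_⟩
    rw [map_mul, map_mul, ← hp2, hJ]
    calc g = (fB (JY θ) * fB (JY θ)) * g * (fB (JY θ) * fB (JY θ)) := by rw [hJ2, one_mul, mul_one]
      _ = _ := by simp only [mul_assoc]
  · rintro ⟨p, hp, rfl⟩
    have h1 := fc_conj (h.wB 8) ((h.mem8 hθ).2 ⟨p, hp, rfl⟩)
    rw [hJ] at h1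
    rw [map_mul, map_mul]
    exact h1

theorem RayQ.mem1 (h : RayQ θ e fA fB) {g : G} : g ∈ Xg e 1 ↔ ∃ p ∈ PA K, g = fA p := by
  constructor
  · intro hg
    have h1 : Xg e 1 ≤ (PA K).map fA := by
      refine (Subgroup.closure_le _).2 ?_
      rintro x ⟨t, rfl⟩
      rw [← h.e1 t]
      exact Subgroup.mem_map_of_mem _ (Subgroup.subset_closure ⟨t, rfl⟩)
    obtain ⟨p, hp, rfl⟩ := Subgroup.mem_map.1 (h1 hg)
    exact ⟨p, hp, rfl⟩
  · rintro ⟨p, hp, rfl⟩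
    have h1 : PA K ≤ (Xg e 1).comap fA := by
      refine (Subgroup.closure_le _).2 ?_
      rintro x ⟨t, rfl⟩
      refine Subgroup.mem_comap.2 ?_
      rw [h.e1 t]
      exact Subgroup.subset_closure ⟨t, rfl⟩
    exact h1 hp

theorem RayQ.mem9 (hθ : Rt θ) (h : RayQ θ e fA fB) {g : G} : g ∈ Xg e 9 ↔ ∃ p ∈ PA K, g = fA (nA K * p * nA K) := by
  have hJ : (fA (nA K))⁻¹ = fA (nA K) := by
    rw [← map_inv, inv_eq_of_mul_eq_one_right (nA_nA hθ)]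
  have hJ2 : fA (nA K) * fA (nA K) = 1 := by
    rw [← map_mul, nA_nA hθ, map_one]
  constructor
  · intro hg
    have h1 := fc_conj (h.wA 9) hg
    obtain ⟨p, hp, hp2⟩ := h.mem1.1 h1
    refine ⟨p, hp, ?_⟩
    rw [map_mul, map_mul, ← hp2, hJ]
    calc g = (fA (nA K) * fA (nA K)) * g * (fA (nA K) * fA (nA K)) := by rw [hJ2, one_mul, mul_one]
      _ = _ := by simp only [mul_assoc]
  · rintro ⟨p, hp, rfl⟩
    have h1 := fc_conj (h.wA 1) (h.mem1.2 ⟨p, hp, rfl⟩)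
    rw [hJ] at h1
    rw [map_mul, map_mul]
    exact h1
-- END fc

-- BEGIN fd
private theorem fd_norm {S : Type*} [Group S] (f : S →* G) (A : Set S) (hA : Subgroup.closure A = ⊤) (W : Subgroup G)
    (h : ∀ a ∈ A, ∀ u ∈ W, f a * u * (f a)⁻¹ ∈ W ∧ (f a)⁻¹ * u * f a ∈ W) (s : S) : ∀ u ∈ W, f s * u * (f s)⁻¹ ∈ W ∧ (f s)⁻¹ * u * f s ∈ W := by
  have hs : s ∈ Subgroup.closure A := by rw [hA]; exact Subgroup.mem_top s
  induction hs using Subgroup.closure_induction with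
  | mem x hx => exact h x hx
  | one =>
    intro u hu
    rw [map_one, inv_one, mul_one, one_mul]
    exact ⟨hu, hu⟩
  | mul x y _ _ ihx ihy =>
    intro u hu
    constructor
    · have e1 := (ihx _ (ihy u hu).1).1
      have e2 : f (x * y) * u * (f (x * y))⁻¹ = f x * (f y * u * (f y)⁻¹) * (f x)⁻¹ := by rw [map_mul]; group
      rw [e2]
      exact e1
    · have e1 := (ihy _ (ihx u hu).2).2
      have e2 : (f (x * y))⁻¹ * u * f (x * y) = (f y)⁻¹ * ((f x)⁻¹ * u * f x) * f y := by rw [map_mul]; group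
      rw [e2]
      exact e1
  | inv x _ ihx =>
    intro u hu
    rw [map_inv, inv_inv]
    exact ⟨(ihx u hu).2, (ihx u hu).1⟩

private theorem fd_both {X W : Subgroup G} (hX : ∀ x ∈ X, ∀ u ∈ W, x * u * x⁻¹ ∈ W) {x u : G} (hx : x ∈ X) (hu : u ∈ W) : x * u * x⁻¹ ∈ W ∧ x⁻¹ * u * x ∈ W := by
  refine ⟨hX x hx u hu, ?_⟩
  have h1 := hX x⁻¹ (X.inv_mem hx) u hu
  rw [inv_inv] at h1
  exact h1

private theorem fd_A (hθ : Rt θ) (h : RayQ θ e fA fB) {W : Subgroup G} (h1 : ∀ x ∈ Xg e 1, ∀ u ∈ W, x * u * x⁻¹ ∈ W) (h9 : ∀ x ∈ Xg e 9, ∀ u ∈ W, x * u * x⁻¹ ∈ W)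
    (s : SL2 K) {u : G} (hu : u ∈ W) : fA s * u * (fA s)⁻¹ ∈ W := by
  refine (fd_norm fA _ sl2_gen W ?_ s u hu).1
  rintro g ⟨a, rfl | rfl⟩ v hv
  · rw [h.e1]
    exact fd_both h1 (Subgroup.subset_closure ⟨a, rfl⟩) hv
  · rw [h.e9 hθ]
    exact fd_both h9 (Subgroup.subset_closure ⟨a, rfl⟩) hv

private theorem fd_B (hθ : Rt θ) (h : RayQ θ e fA fB) {W : Subgroup G} (h8 : ∀ x ∈ Xg e 8, ∀ u ∈ W, x * u * x⁻¹ ∈ W) (h0 : ∀ x ∈ Xg e 0, ∀ u ∈ W, x * u * x⁻¹ ∈ W)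
    (s : Sq θ) {u : G} (hu : u ∈ W) : fB s * u * (fB s)⁻¹ ∈ W := by
  refine (fd_norm fB _ (R1.gen2 (r1Y hθ)) W ?_ s u hu).1
  rintro g (hg | ⟨p, hp, rfl⟩) v hv
  · exact fd_both h8 ((h.mem8 hθ).2 ⟨g, hg, rfl⟩) hv
  · exact fd_both h0 ((h.mem0 hθ).2 ⟨p, hp, rfl⟩) hv

/-- ROW fd. Normalization: the set of the `s` with `fA s u (fA s)⁻¹ ∈ W` and `(fA s)⁻¹ u fA s ∈ W` for `u ∈ W` is a subgroup; generators `up t`, `lo t` (`sl2_gen`), resp. `R1.gen2 (r1Y hθ)`, `mem8`, `mem0`; `left`, `right` with `10 = 9 + 1`, `i + 8 + 8 = i`. `UA`: rays `2, .., 8`; `VA`: rays `10, .., 16`; `UB`: rays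
`1, .., 7`; `VB`: rays `9, .., 15`. -/
theorem RayQ.nUA (hθ : Rt θ) (h : RayQ θ e fA fB) (s : SL2 K) {u : G} (hu : u ∈ Iv e 2 6) : fA s * u * (fA s)⁻¹ ∈ Iv e 2 6 := by
  have e2 : (1 + 1 : Fin 16) = 2 := by decide
  have e9 : (2 + 6 + 1 : Fin 16) = 9 := by decide
  refine fd_A hθ h (fun x hx u hu => ?_) (fun x hx u hu => ?_) s hu
  · rw [← e2] at hu ⊢
    exact h.left hθ (by decide) hx hu
  · rw [← e9] at hx
    exact h.right hθ (by decide) hx hu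

theorem RayQ.nVA (hθ : Rt θ) (h : RayQ θ e fA fB) (s : SL2 K) {u : G} (hu : u ∈ Iv e 10 6) : fA s * u * (fA s)⁻¹ ∈ Iv e 10 6 := by
  have e2 : (9 + 1 : Fin 16) = 10 := by decide
  have e9 : (10 + 6 + 1 : Fin 16) = 1 := by decide
  refine fd_A hθ h (fun x hx u hu => ?_) (fun x hx u hu => ?_) s hu
  · rw [← e9] at hx
    exact h.right hθ (by decide) hx hu
  · rw [← e2] at hu ⊢
    exact h.left hθ (by decide) hx hu

theorem RayQ.nUB (hθ : Rt θ) (h : RayQ θ e fA fB) (s : Sq θ) {u : G} (hu : u ∈ Iv e 1 6) : fB s * u * (fB s)⁻¹ ∈ Iv e 1 6 := by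
  have e2 : (0 + 1 : Fin 16) = 1 := by decide
  have e9 : (1 + 6 + 1 : Fin 16) = 8 := by decide
  refine fd_B hθ h (fun x hx u hu => ?_) (fun x hx u hu => ?_) s hu
  · rw [← e9] at hx
    exact h.right hθ (by decide) hx hu
  · rw [← e2] at hu ⊢
    exact h.left hθ (by decide) hx hu

theorem RayQ.nVB (hθ : Rt θ) (h : RayQ θ e fA fB) (s : Sq θ) {u : G} (hu : u ∈ Iv e 9 6) : fB s * u * (fB s)⁻¹ ∈ Iv e 9 6 := by
  have e2 : (8 + 1 : Fin 16) = 9 := by decide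
  have e9 : (9 + 6 + 1 : Fin 16) = 0 := by decide
  refine fd_B hθ h (fun x hx u hu => ?_) (fun x hx u hu => ?_) s hu
  · rw [← e2] at hu ⊢
    exact h.left hθ (by decide) hx hu
  · rw [← e9] at hx
    exact h.right hθ (by decide) hx hu
-- END fd

-- BEGIN fe
private theorem fe_hom {A : Type*} [Group A] (F : A → G) (h1 : ∀ a b, F (a * b) = F a * F b) {g : G} : g ∈ Subgroup.closure {g | ∃ a, g = F a} ↔ ∃ a, g = F a := by
  have h0 : F 1 = 1 := by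
    have h2 := h1 1 1
    rw [mul_one] at h2
    exact mul_eq_left.1 h2.symm
  refine ⟨fun hg => ?_, fun hg => Subgroup.subset_closure hg⟩
  induction hg using Subgroup.closure_induction with
  | mem x hx => exact hx
  | one => exact ⟨1, h0.symm⟩
  | mul x y _ _ ihx ihy =>
    obtain ⟨a, rfl⟩ := ihx
    obtain ⟨b, rfl⟩ := ihy
    exact ⟨a * b, (h1 a b).symm⟩
  | inv x _ ihx =>
    obtain ⟨a, rfl⟩ := ihx
    refine ⟨a⁻¹, inv_eq_of_mul_eq_one_right ?_⟩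
    rw [← h1, mul_inv_cancel, h0]

private theorem fe_tZ (b c : Kˣ) : (tY θ (b * c) : Sq θ) = tY θ b * tY θ c := Subtype.ext (tQ_mul b c)

private theorem fe_mul (h : RayQ θ e fA fB) (a b c d : Kˣ) : fA (dg (a * c)) * fB (tY θ (b * d)) = fA (dg a) * fB (tY θ b) * (fA (dg c) * fB (tY θ d)) := by
  rw [dg_mul, fe_tZ, map_mul, map_mul]
  have e1 := h.cm c b
  calc fA (dg a) * fA (dg c) * (fB (tY θ b) * fB (tY θ d)) = fA (dg a) * (fA (dg c) * fB (tY θ b)) * fB (tY θ d) := by group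
    _ = _ := by rw [e1]; group

private theorem fe_act (h : RayQ θ e fA fB) (a b : Kˣ) (i : Fin 16) (t : K) : (fA (dg a) * fB (tY θ b)) * e i t * (fA (dg a) * fB (tY θ b))⁻¹ = e i ((mo θ a (cA i) : K) * ((mo θ b (cB i) : K) * t)) := by
  rw [← h.tA, ← h.tB]
  group

/-- ROW fe. The torus: `cm`, `dg_mul`, `tQ_mul` -/
theorem RayQ.mem_HH (h : RayQ θ e fA fB) {g : G} : g ∈ HQ fA fB ↔ ∃ a b : Kˣ, g = fA (dg a) * fB (tY θ b) := by
  have h1 : {g : G | ∃ a b : Kˣ, g = fA (dg a) * fB (tY θ b)} = {g : G | ∃ p : Kˣ × Kˣ, g = fA (dg p.1) * fB (tY θ p.2)} := by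
    ext g
    constructor
    · rintro ⟨a, b, rfl⟩
      exact ⟨(a, b), rfl⟩
    · rintro ⟨p, rfl⟩
      exact ⟨p.1, p.2, rfl⟩
  unfold HQ
  rw [h1, fe_hom (A := Kˣ × Kˣ) (fun p => fA (dg p.1) * fB (tY θ p.2)) (fun p q => fe_mul h p.1 p.2 q.1 q.2)]
  constructor
  · rintro ⟨p, rfl⟩
    exact ⟨p.1, p.2, rfl⟩
  · rintro ⟨a, b, rfl⟩
    exact ⟨(a, b), rfl⟩

theorem RayQ.mem_ZB (h : RayQ θ e fA fB) {g : G} : g ∈ ZBQ fA fB ↔ ∃ a : Kˣ, g = fA (dg (a ^ 2)) * fB (tY θ a) :=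
  fe_hom (fun a : Kˣ => fA (dg (a ^ 2)) * fB (tY θ a)) (fun a b => by
    show fA (dg ((a * b) ^ 2)) * fB (tY θ (a * b)) = _
    rw [mul_pow]
    exact fe_mul h _ _ _ _)

theorem RayQ.mem_ZA (h : RayQ θ e fA fB) {g : G} : g ∈ ZAQ fA fB ↔ ∃ b : Kˣ, g = fA (dg (b * tu θ b)) * fB (tY θ b) :=
  fe_hom (fun b : Kˣ => fA (dg (b * tu θ b)) * fB (tY θ b)) (fun a b => by
    show fA (dg ((a * b) * tu θ (a * b))) * fB (tY θ (a * b)) = _
    have h1 : (a * b) * tu θ (a * b) = (a * tu θ a) * (b * tu θ b) := by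
      rw [map_mul]
      exact mul_mul_mul_comm a b _ _
    rw [h1]
    exact fe_mul h _ _ _ _)

/-- `tA`, `tB` -/
theorem RayQ.hIv (h : RayQ θ e fA fB) (i k : Fin 16) {g u : G} (hg : g ∈ HQ fA fB) (hu : u ∈ Iv e i k) : g * u * g⁻¹ ∈ Iv e i k := by
  obtain ⟨a, b, rfl⟩ := h.mem_HH.1 hg
  unfold Iv at hu
  induction hu using Subgroup.closure_induction with
  | mem x hx =>
    obtain ⟨l, s, hl, rfl⟩ := hx
    rw [fe_act h]
    exact Subgroup.subset_closure ⟨l, _, hl, rfl⟩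
  | one =>
    rw [mul_one, mul_inv_cancel]
    exact Subgroup.one_mem _
  | mul x y _ _ ihx ihy =>
    have e1 : ∀ z : G, z * (x * y) * z⁻¹ = z * x * z⁻¹ * (z * y * z⁻¹) := fun z => by group
    rw [e1]
    exact Subgroup.mul_mem _ ihx ihy
  | inv x _ ihx =>
    have e1 : ∀ z : G, z * x⁻¹ * z⁻¹ = (z * x * z⁻¹)⁻¹ := fun z => by group
    rw [e1]
    exact Subgroup.inv_mem _ ihx

private theorem fe_cm {A : Set G} {z u : G} (h : ∀ a ∈ A, z * a = a * z) (hu : u ∈ Subgroup.closure A) : z * u = u * z := by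
  induction hu using Subgroup.closure_induction with
  | mem x hx => exact h x hx
  | one => rw [mul_one, one_mul]
  | mul x y _ _ ihx ihy => rw [← mul_assoc, ihx, mul_assoc, ihy, mul_assoc]
  | inv x _ ihx => exact (Commute.inv_right (show Commute z x from ihx)).eq

private theorem fe_cmS {S : Type*} [Group S] (f : S →* G) {A : Set S} (hA : Subgroup.closure A = ⊤) {z : G} (h : ∀ a ∈ A, z * f a = f a * z) (s : S) : z * f s = f s * z := by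
  have hs : s ∈ Subgroup.closure A := by rw [hA]; exact Subgroup.mem_top s
  induction hs using Subgroup.closure_induction with
  | mem x hx => exact h x hx
  | one => rw [map_one, mul_one, one_mul]
  | mul x y _ _ ihx ihy => rw [map_mul, ← mul_assoc, ihx, mul_assoc, ihy, mul_assoc]
  | inv x _ ihx =>
    rw [map_inv]
    exact (Commute.inv_right (show Commute z (f x) from ihx)).eq

private theorem fe_one (h : RayQ θ e fA fB) {a b : Kˣ} {i : Fin 16} (hab : mo θ a (cA i) * mo θ b (cB i) = 1) {x : G} (hx : x ∈ Xg e i) :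
    (fA (dg a) * fB (tY θ b)) * x = x * (fA (dg a) * fB (tY θ b)) := by
  refine fe_cm ?_ hx
  rintro y ⟨t, rfl⟩
  have e1 := fe_act h a b i t
  rw [← mul_assoc, ← Units.val_mul, hab, Units.val_one, one_mul, mul_inv_eq_iff_eq_mul] at e1
  exact e1

/-- the element commutes with `e 8 t` and `e 0 t`; `R1.gen2 (r1Y hθ)`, `mem8`, `mem0` -/
theorem RayQ.ZBc (hθ : Rt θ) (h : RayQ θ e fA fB) {z : G} (hz : z ∈ ZBQ fA fB) (s : Sq θ) : z * fB s = fB s * z := by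
  obtain ⟨a, rfl⟩ := h.mem_ZB.1 hz
  refine fe_cmS fB (R1.gen2 (r1Y hθ)) ?_ s
  rintro g (hg | ⟨p, hp, rfl⟩)
  · refine fe_one h ?_ ((h.mem8 hθ).2 ⟨g, hg, rfl⟩)
    show mo θ (a ^ 2) (-1, 0) * mo θ a (2, 0) = 1
    simp only [mo, zpow_zero, mul_one]
    group
  · refine fe_one h ?_ ((h.mem0 hθ).2 ⟨p, hp, rfl⟩)
    show mo θ (a ^ 2) (1, 0) * mo θ a (-2, 0) = 1
    simp only [mo, zpow_zero, mul_one]
    group

/-- `sl2_gen` -/
theorem RayQ.ZAc (hθ : Rt θ) (h : RayQ θ e fA fB) {z : G} (hz : z ∈ ZAQ fA fB) (s : SL2 K) : z * fA s = fA s * z := by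
  obtain ⟨a, rfl⟩ := h.mem_ZA.1 hz
  refine fe_cmS fA sl2_gen ?_ s
  rintro g ⟨t, rfl | rfl⟩
  · rw [h.e1]
    refine fe_one h ?_ (Subgroup.subset_closure ⟨t, rfl⟩)
    show mo θ (a * tu θ a) (2, 0) * mo θ a (-2, -2) = 1
    simp only [mo, zpow_zero, mul_one, mul_zpow]
    have h1 : ∀ x y : Kˣ, x ^ (2 : ℤ) * y ^ (2 : ℤ) * (x ^ (-2 : ℤ) * y ^ (-2 : ℤ)) = 1 := fun x y => by
      rw [mul_mul_mul_comm, ← zpow_add, ← zpow_add]
      simp
    exact h1 _ _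
  · rw [h.e9 hθ]
    refine fe_one h ?_ (Subgroup.subset_closure ⟨t, rfl⟩)
    show mo θ (a * tu θ a) (-2, 0) * mo θ a (2, 2) = 1
    simp only [mo, zpow_zero, mul_one, mul_zpow]
    have h1 : ∀ x y : Kˣ, x ^ (-2 : ℤ) * y ^ (-2 : ℤ) * (x ^ (2 : ℤ) * y ^ (2 : ℤ)) = 1 := fun x y => by
      rw [mul_mul_mul_comm, ← zpow_add, ← zpow_add]
      simp
    exact h1 _ _
-- END fe

-- BEGIN ff
private theorem ff_X (i k : Fin 16) {l j : Fin 16} (hl : l ≤ k) (hj : i + l = j) : Xg e j ≤ Iv e i k := by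
  refine (Subgroup.closure_le _).2 ?_
  rintro g ⟨t, rfl⟩
  exact Subgroup.subset_closure ⟨l, t, hl, by rw [hj]⟩

private theorem ff_I {i k j m : Fin 16} (hj : ∀ l : Fin 16, l ≤ m → ∃ l' : Fin 16, l' ≤ k ∧ j + l = i + l') : Iv e j m ≤ Iv e i k := by
  refine (Subgroup.closure_le _).2 ?_
  rintro g ⟨l, t, hl, rfl⟩
  obtain ⟨l', h1, h2⟩ := hj l hl
  exact Subgroup.subset_closure ⟨l', t, h1, by rw [h2]⟩

private theorem ff_Hc (h : RayQ θ e fA fB) : ∀ a ∈ HQ fA fB, ∀ b ∈ HQ fA fB, a * b = b * a := by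
  intro g hg g' hg'
  obtain ⟨a, b, rfl⟩ := h.mem_HH.1 hg
  obtain ⟨c, d, rfl⟩ := h.mem_HH.1 hg'
  have e1 : ∀ b c : Kˣ, (tY θ b : Sq θ) * tY θ c = tY θ (b * c) := fun b c => (Subtype.ext (tQ_mul b c)).symm
  calc fA (dg a) * fB (tY θ b) * (fA (dg c) * fB (tY θ d)) = fA (dg a) * (fB (tY θ b) * fA (dg c)) * fB (tY θ d) := by group
    _ = fA (dg a * dg c) * fB (tY θ b * tY θ d) := by rw [← h.cm, map_mul, map_mul]; group
    _ = fA (dg c * dg a) * fB (tY θ d * tY θ b) := by rw [← dg_mul, ← dg_mul, e1, e1, mul_comm a c, mul_comm b d]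
    _ = fA (dg c) * (fA (dg a) * fB (tY θ d)) * fB (tY θ b) := by rw [map_mul, map_mul]; group
    _ = _ := by rw [h.cm]; group

/-- ROW ff. The node `B`.  `sU`: `splitR` (`Iv e 1 7`), `mem8`; `sV`: `splitR` for `Iv e 9 7`, `9 + 6 + 1 = 0`, `mem0`; `HTZ`: `fA (dg a) * fB (tY θ b) = fB (tY θ (b * a⁻¹)) * (fA (dg a) * fB (tY θ a))` -/
theorem RayQ.ndB (hθ : Rt θ) (h : RayQ θ e fA fB) : Nd (PY θ) (TY θ) (JY θ) fB (HQ fA fB) (Iv e 1 7) (Iv e 9 7) (ZBQ fA fB) (Iv e 1 6) (Iv e 9 6) := by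
  exact {
    r1 := r1Y hθ
    nU := fun s u hu => h.nUB hθ s hu
    nV := fun s u hu => h.nVB hθ s hu
    hU := fun g hg u hu => h.hIv 1 6 hg hu
    hV := fun g hg u hu => h.hIv 9 6 hg hu
    UiU := ff_I (by decide)
    ViV := ff_I (by decide)
    pU := fun p hp => ff_X 1 7 (l := 7) (j := 8) (by decide) (by decide) ((h.mem8 hθ).2 ⟨p, hp, rfl⟩)
    qV := fun p hp => ff_X 9 7 (l := 7) (j := 0) (by decide) (by decide) ((h.mem0 hθ).2 ⟨p, hp, rfl⟩)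
    sU := fun u hu => by
      have e7 : (6 + 1 : Fin 16) = 7 := by decide
      have e8 : (1 + 6 + 1 : Fin 16) = 8 := by decide
      rw [← e7] at hu
      obtain ⟨x, hx, u', hu', rfl⟩ := h.splitR hθ (by decide) hu
      rw [e8] at hx
      obtain ⟨p, hp, rfl⟩ := (h.mem8 hθ).1 hx
      exact ⟨p, hp, u', hu', rfl⟩
    sV := fun u hu => by
      have e7 : (6 + 1 : Fin 16) = 7 := by decide
      have e8 : (9 + 6 + 1 : Fin 16) = 0 := by decide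
      rw [← e7] at hu
      obtain ⟨x, hx, u', hu', rfl⟩ := h.splitR hθ (by decide) hu
      rw [e8] at hx
      obtain ⟨p, hp, rfl⟩ := (h.mem0 hθ).1 hx
      exact ⟨p, hp, u', hu', rfl⟩
    TH := fun t ht => by
      obtain ⟨b, rfl⟩ := mem_TY.1 ht
      exact h.mem_HH.2 ⟨1, b, by rw [dg_one, map_one, one_mul]⟩
    ZH := fun z hz => by
      obtain ⟨a, rfl⟩ := h.mem_ZB.1 hz
      exact h.mem_HH.2 ⟨a ^ 2, a, rfl⟩
    Zc := fun z hz s => h.ZBc hθ hz s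
    HTZ := fun g hg => by
      obtain ⟨a, b, rfl⟩ := h.mem_HH.1 hg
      refine ⟨tY θ (b * (tu θ (tu θ a))⁻¹), mem_TY.2 ⟨_, rfl⟩, fA (dg a) * fB (tY θ (tu θ (tu θ a))), h.mem_ZB.2 ⟨tu θ (tu θ a), by rw [hθ.unit]⟩, ?_⟩
      have e1 : (tY θ b : Sq θ) = tY θ (b * (tu θ (tu θ a))⁻¹) * tY θ (tu θ (tu θ a)) := by
        refine Subtype.ext ?_
        have e2 := tQ_mul (θ := θ) (b * (tu θ (tu θ a))⁻¹) (tu θ (tu θ a))
        rw [inv_mul_cancel_right] at e2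
        exact e2
      rw [e1, map_mul, ← mul_assoc, ← mul_assoc, h.cm]
    Hc := ff_Hc h
  }

/-- The node `A`.  `sU`: `splitL` (`Iv e 1 7`), `mem1`; `sV`: `splitL` for `Iv e 9 7`, `mem9`; `HTZ`: `fA (dg a) * fB (tY θ b) = fA (dg (a * (b ^ 5)⁻¹)) * (fA (dg (b ^ 5)) * fB (tY θ b))` -/
theorem RayQ.ndA (hθ : Rt θ) (h : RayQ θ e fA fB) : Nd (PA K) (TA K) (nA K) fA (HQ fA fB) (Iv e 1 7) (Iv e 9 7) (ZAQ fA fB) (Iv e 2 6) (Iv e 10 6) := by
  exact {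
    r1 := r1B hθ
    nU := fun s u hu => h.nUA hθ s hu
    nV := fun s u hu => h.nVA hθ s hu
    hU := fun g hg u hu => h.hIv 2 6 hg hu
    hV := fun g hg u hu => h.hIv 10 6 hg hu
    UiU := ff_I (by decide)
    ViV := ff_I (by decide)
    pU := fun p hp => ff_X 1 7 (l := 0) (j := 1) (by decide) (by decide) (h.mem1.2 ⟨p, hp, rfl⟩)
    qV := fun p hp => ff_X 9 7 (l := 0) (j := 9) (by decide) (by decide) ((h.mem9 hθ).2 ⟨p, hp, rfl⟩)
    sU := fun u hu => by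
      have e7 : (6 + 1 : Fin 16) = 7 := by decide
      have e8 : (1 + 1 : Fin 16) = 2 := by decide
      rw [← e7] at hu
      obtain ⟨x, hx, u', hu', rfl⟩ := h.splitL hθ (by decide) hu
      rw [e8] at hu'
      obtain ⟨p, hp, rfl⟩ := h.mem1.1 hx
      exact ⟨p, hp, u', hu', rfl⟩
    sV := fun u hu => by
      have e7 : (6 + 1 : Fin 16) = 7 := by decide
      have e8 : (9 + 1 : Fin 16) = 10 := by decide
      rw [← e7] at hu
      obtain ⟨x, hx, u', hu', rfl⟩ := h.splitL hθ (by decide) hu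
      rw [e8] at hu'
      obtain ⟨p, hp, rfl⟩ := (h.mem9 hθ).1 hx
      exact ⟨p, hp, u', hu', rfl⟩
    TH := fun t ht => by
      obtain ⟨b, rfl⟩ := mem_TA.1 ht
      have e1 : (tY θ 1 : Sq θ) = 1 := Subtype.ext tQ_one
      exact h.mem_HH.2 ⟨b, 1, by rw [e1, map_one, mul_one]⟩
    ZH := fun z hz => by
      obtain ⟨a, rfl⟩ := h.mem_ZA.1 hz
      exact h.mem_HH.2 ⟨a * tu θ a, a, rfl⟩
    Zc := fun z hz s => h.ZAc hθ hz s
    HTZ := fun g hg => by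
      obtain ⟨a, b, rfl⟩ := h.mem_HH.1 hg
      refine ⟨dg (a * (b * tu θ b)⁻¹), mem_TA.2 ⟨_, rfl⟩, fA (dg (b * tu θ b)) * fB (tY θ b), h.mem_ZA.2 ⟨b, rfl⟩, ?_⟩
      rw [← mul_assoc, ← map_mul, ← dg_mul, inv_mul_cancel_right]
    Hc := ff_Hc h
  }
-- END ff

/-- the two nodes: `true` = `A`, `false` = `B` -/
def StQ (fA : SL2 K →* G) (fB : Sq θ →* G) (e : Fin 16 → K → G) : Bool → G → Prop
  | true => Stt fA (ZAQ fA fB) (Iv e 2 6) (Iv e 10 6)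
  | false => Stt fB (ZBQ fA fB) (Iv e 1 6) (Iv e 9 6)

-- BEGIN fg
private theorem fg_succ : ∀ k : ℕ, k < 15 → Fin.ofNat 16 (k + 1) = Fin.ofNat 16 k + 1 := by
  decide

private theorem fg_le6 : ∀ k : ℕ, k < 7 → Fin.ofNat 16 k ≤ (6 : Fin 16) := by
  decide

private theorem fg_val {k : ℕ} (hk : k < 16) : ((Fin.ofNat 16 k : Fin 16) : ℕ) = k :=
  Nat.mod_eq_of_lt hk

omit [Field K] in
private theorem fg_zero {j : Fin 16} {u : G} (hu : u ∈ Iv e j 0) : u ∈ Xg e j := by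
  refine Subgroup.closure_mono ?_ hu
  rintro g ⟨l, s, hl, rfl⟩
  have h0 : l = 0 := Fin.le_zero_iff.1 hl
  exact ⟨s, by rw [h0, add_zero]⟩

private theorem fg_nat (hθ : Rt θ) (h : RayQ θ e fA fB) (i : Fin 16) (k : ℕ) : ∀ a : ℕ, k ≤ 7 → a + k ≤ 8 → ∀ u ∈ Iv e (i + Fin.ofNat 16 a) (Fin.ofNat 16 k),
    ∃ L : List (Fin 16 × G), (L.map Prod.fst).Nodup ∧ (∀ p ∈ L, (a ≤ (p.1 : ℕ) ∧ (p.1 : ℕ) ≤ a + k) ∧ p.2 ∈ Xs e (i + p.1)) ∧ u = (L.map Prod.snd).prod := by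
  induction k with
  | zero =>
    intro a _ ha u hu
    have hx : u ∈ Xg e (i + Fin.ofNat 16 a) := fg_zero hu
    by_cases h1 : u = 1
    · exact ⟨[], by simp, by simp, by simp [h1]⟩
    · refine ⟨[(Fin.ofNat 16 a, u)], by simp, ?_, by simp⟩
      intro p hp
      rw [List.mem_singleton] at hp
      subst hp
      have hv : ((Fin.ofNat 16 a : Fin 16) : ℕ) = a := fg_val (by omega)
      refine ⟨⟨?_, ?_⟩, hx, h1⟩
      · exact hv.ge
      · exact hv.le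
  | succ k ih =>
    intro a hk7 ha u hu
    rw [fg_succ k (by omega)] at hu
    obtain ⟨x, hx, u', hu', rfl⟩ := RayQ.splitL hθ h (fg_le6 k (by omega)) hu
    have e1 : i + Fin.ofNat 16 a + 1 = i + Fin.ofNat 16 (a + 1) := by
      rw [fg_succ a (by omega), add_assoc]
    rw [e1] at hu'
    obtain ⟨L, hL1, hL2, hL3⟩ := ih (a + 1) (by omega) (by omega) u' hu'
    by_cases h1 : x = 1
    · refine ⟨L, hL1, ?_, ?_⟩
      · intro p hp
        obtain ⟨⟨q1, q2⟩, q3⟩ := hL2 p hp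
        exact ⟨⟨by omega, by omega⟩, q3⟩
      · rw [h1, one_mul]
        exact hL3
    · have hv : ((Fin.ofNat 16 a : Fin 16) : ℕ) = a := fg_val (by omega)
      refine ⟨(Fin.ofNat 16 a, x) :: L, ?_, ?_, ?_⟩
      · rw [List.map_cons, List.nodup_cons]
        refine ⟨?_, hL1⟩
        intro hm
        obtain ⟨p, hp, hp2⟩ := List.mem_map.1 hm
        obtain ⟨⟨q1, _⟩, _⟩ := hL2 p hp
        rw [hp2] at q1
        change a + 1 ≤ ((Fin.ofNat 16 a : Fin 16) : ℕ) at q1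
        omega
      · intro p hp
        rcases List.mem_cons.1 hp with rfl | hp
        · refine ⟨⟨?_, ?_⟩, hx, h1⟩
          · exact hv.ge
          · change ((Fin.ofNat 16 a : Fin 16) : ℕ) ≤ a + (k + 1)
            omega
        · obtain ⟨⟨q1, q2⟩, q3⟩ := hL2 p hp
          exact ⟨⟨by omega, by omega⟩, q3⟩
      · rw [List.map_cons, List.prod_cons, ← hL3]

/-- ROW fg. Normal form: repeated `splitL`, drop the trivial factors (seven steps, or induction over the length) -/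
theorem RayQ.nf (hθ : Rt θ) (h : RayQ θ e fA fB) (i : Fin 16) {u : G} (hu : u ∈ Iv e (i + 1) 7) :
    ∃ L : List (Fin 16 × G), (L.map Prod.fst).Nodup ∧ (∀ p ∈ L, (1 ≤ p.1 ∧ p.1 ≤ 8) ∧ p.2 ∈ Xs e (i + p.1)) ∧ u = (L.map Prod.snd).prod := by
  obtain ⟨L, h1, h2, h3⟩ := fg_nat hθ h i 7 1 le_rfl le_rfl u hu
  refine ⟨L, h1, ?_, h3⟩
  intro p hp
  obtain ⟨⟨q1, q2⟩, q3⟩ := h2 p hp
  exact ⟨⟨Fin.le_def.2 q1, Fin.le_def.2 q2⟩, q3⟩
-- END fg

-- BEGIN fh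
private theorem fh_conj {w : G} {i j : Fin 16} (hw : ∀ t, w * e i t * w⁻¹ = e j t) {g : G} (hg : g ∈ Xs e i) : w * g * w⁻¹ ∈ Xs e j := by
  refine ⟨?_, ?_⟩
  · have h1 : g ∈ Xg e i := hg.1
    unfold Xg at h1
    refine Subgroup.closure_induction (p := fun x _ => w * x * w⁻¹ ∈ Xg e j) ?_ ?_ ?_ ?_ h1
    · rintro x ⟨t, rfl⟩
      rw [hw t]
      exact Subgroup.subset_closure ⟨t, rfl⟩
    · rw [mul_one, mul_inv_cancel]
      exact Subgroup.one_mem _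
    · intro x y _ _ hx hy
      have h2 : w * (x * y) * w⁻¹ = (w * x * w⁻¹) * (w * y * w⁻¹) := by group
      rw [h2]
      exact Subgroup.mul_mem _ hx hy
    · intro x _ hx
      have h2 : w * x⁻¹ * w⁻¹ = (w * x * w⁻¹)⁻¹ := by group
      rw [h2]
      exact Subgroup.inv_mem _ hx
  · intro h1
    apply hg.2
    have h2 : g = w⁻¹ * (w * g * w⁻¹) * w := by group
    rw [h2, h1]
    group

private theorem fh_sub {i k l j : Fin 16} (hl : l ≤ k) (hj : j = i + l) {g : G} (hg : g ∈ Xg e j) : g ∈ Iv e i k := by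
  subst hj
  unfold Xg at hg
  refine Subgroup.closure_mono ?_ hg
  rintro x ⟨t, rfl⟩
  exact ⟨l, t, hl, rfl⟩

private theorem fh_le {i k i' k' d : Fin 16} (hd : ∀ l : Fin 16, l ≤ k → l + d ≤ k' ∧ i + l = i' + (l + d)) : Iv e i k ≤ Iv e i' k' := by
  refine (Subgroup.closure_le _).2 ?_
  rintro x ⟨l, s, hl, rfl⟩
  obtain ⟨h1, h2⟩ := hd l hl
  exact Subgroup.subset_closure ⟨l + d, s, h1, by rw [h2]⟩

private theorem fh_ne {S : Type*} [Group S] (f : S →* G) {p : S} {g : G} (hg : g ≠ 1) (h : g = f p) : p ≠ 1 := by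
  rintro rfl
  exact hg (by rw [h, map_one])

private theorem fh_ne2 {S : Type*} [Group S] (f : S →* G) {p n : S} (hn : n * n = 1) {g : G} (hg : g ≠ 1) (h : g = f (n * p * n)) : p ≠ 1 := by
  rintro rfl
  exact hg (by rw [h, mul_one, hn, map_one])

private theorem fh_inv {S : Type*} [Group S] {n t : S} (hn : n * n = 1) (h : n * t * n = t⁻¹) : n * t * n⁻¹ = t⁻¹ := by
  rw [← eq_inv_of_mul_eq_one_left hn]
  exact h

private theorem fh_nhA (hθ : Rt θ) (h : RayQ θ e fA fB) {g : G} (hg : g ∈ HQ fA fB) : fA (nA K) * g * (fA (nA K))⁻¹ ∈ HQ fA fB := by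
  obtain ⟨a, b, rfl⟩ := (RayQ.mem_HH h).1 hg
  have h1 : fA (nA K) * fA (dg a) * (fA (nA K))⁻¹ = fA (dg a)⁻¹ := by
    rw [← map_inv, ← map_mul, ← map_mul, fh_inv (r1B hθ).nn ((r1B hθ).nt (dg a) (mem_TA.2 ⟨a, rfl⟩))]
  have h2 : fA (nA K) * (fA (dg a) * fB (tY θ b)) * (fA (nA K))⁻¹ = (fA (nA K) * fA (dg a) * (fA (nA K))⁻¹) * (fA (nA K) * fB (tY θ b) * (fA (nA K))⁻¹) := by group
  rw [h2, h1, h.nAt b]
  have h3 : (fA (dg a)⁻¹ : G) ∈ HQ fA fB := by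
    rw [map_inv]
    refine Subgroup.inv_mem _ ((RayQ.mem_HH h).2 ⟨a, 1, ?_⟩)
    have h4 : (tY θ (1 : Kˣ) : Sq θ) = 1 := Subtype.ext tQ_one
    rw [h4, map_one, mul_one]
  exact Subgroup.mul_mem _ h3 ((RayQ.mem_HH h).2 ⟨b ^ 2 * tu θ b ^ 2, b, rfl⟩)

private theorem fh_nhB (hθ : Rt θ) (h : RayQ θ e fA fB) {g : G} (hg : g ∈ HQ fA fB) : fB (JY θ) * g * (fB (JY θ))⁻¹ ∈ HQ fA fB := by
  obtain ⟨a, b, rfl⟩ := (RayQ.mem_HH h).1 hg
  have h1 : fB (JY θ) * fB (tY θ b) * (fB (JY θ))⁻¹ = fB (tY θ b)⁻¹ := by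
    rw [← map_inv, ← map_mul, ← map_mul, fh_inv (r1Y hθ).nn ((r1Y hθ).nt (tY θ b) (mem_TY.2 ⟨b, rfl⟩))]
  have h2 : fB (JY θ) * (fA (dg a) * fB (tY θ b)) * (fB (JY θ))⁻¹ = (fB (JY θ) * fA (dg a) * (fB (JY θ))⁻¹) * (fB (JY θ) * fB (tY θ b) * (fB (JY θ))⁻¹) := by group
  rw [h2, h1, h.nBt a]
  have h3 : (fB (tY θ b)⁻¹ : G) ∈ HQ fA fB := by
    rw [map_inv]
    refine Subgroup.inv_mem _ ((RayQ.mem_HH h).2 ⟨1, b, ?_⟩)
    have h4 : (dg (1 : Kˣ) : SL2 K) = 1 := by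
      have h5 : (dg (1 : Kˣ) : SL2 K) * dg (1 : Kˣ) = dg (1 : Kˣ) := by rw [← dg_mul, one_mul]
      exact mul_eq_left.1 h5
    rw [h4, map_one, one_mul]
  exact Subgroup.mul_mem _ ((RayQ.mem_HH h).2 ⟨a, a, rfl⟩) h3

/-- ROW fh. The axioms `Let` (heights `min (r - 1) (8 - r)`).  `nfU`: `nf` with `i = 0`; `nfV`: `nf` with `i = 8`; `nX`, `nY`: `wA`, `wB` (`10 - (r + 8) = (10 - r) + 8` in `Fin 16`); `wp`, `wi`, `wh`: `decide`; `XU`: `r ≠ 1`, `1 ≤ r ≤ 8`: `r = 2 + l`, `l ≤ 6`;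
`aU`, `aV`: `left`, `right` or `nUA` ..; `su`, `sv`: `NS.of_u`, `NS.of_v` for `ndA`, `ndB` with `mem1`, `mem8`, `mem9`, `mem0`; `nh`: `nAt`, `nBt`, `fA (nA K) * fA (dg a) * (fA (nA K))⁻¹ = fA (dg a⁻¹)`, `JS_tQ`. -/
theorem RayQ.lt (hθ : Rt θ) (h : RayQ θ e fA fB) : Let (ι := Bool) (R := Fin 16) (StQ fA fB e) (HQ fA fB) (Iv e 1 7) (Iv e 9 7) (fun i => if i then Iv e 2 6 else Iv e 1 6) (fun i => if i then Iv e 10 6 else Iv e 9 6)
    (fun r => 1 ≤ r ∧ r ≤ 8) (fun r => min ((r : ℕ) - 1) (8 - (r : ℕ))) (fun i => if i then 1 else 8) (fun i r => if i then 10 - r else 8 - r) (fun i => if i then fA (nA K) else fB (JY θ)) (Xs e) (fun r => Xs e (r + 8)) := by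
  have hA := RayQ.ndA hθ h
  have hB := RayQ.ndB hθ h
  refine ⟨?_, ?_, ?_, ?_, ?_, ?_, ?_, ?_, ?_, ?_, ?_, ?_, ?_, ?_, ?_, ?_, ?_, ?_⟩
  · -- nfU
    intro u hu
    obtain ⟨L, h1, h2, h3⟩ := RayQ.nf hθ h 0 (u := u) (by rw [zero_add]; exact hu)
    refine ⟨L, h1, ?_, h3⟩
    intro p hp
    have h4 := h2 p hp
    rw [zero_add] at h4
    exact h4
  · -- nfV
    intro u hu
    have h0 : (8 : Fin 16) + 1 = 9 := rfl
    obtain ⟨L, h1, h2, h3⟩ := RayQ.nf hθ h 8 (u := u) (by rw [h0]; exact hu)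
    refine ⟨L, h1, ?_, h3⟩
    intro p hp
    have h4 := h2 p hp
    rw [add_comm] at h4
    exact h4
  · -- nX
    intro i r _ _ g hg
    cases i
    · exact fh_conj (fun t => h.wB r t) hg
    · exact fh_conj (fun t => h.wA r t) hg
  · -- nY
    intro i r _ _ g hg
    have hg' : g ∈ Xs e (r + 8) := hg
    cases i
    · have h1 : ∀ r : Fin 16, (8 : Fin 16) - (r + 8) = 8 - r + 8 := by decide
      have h2 := fh_conj (fun t => h.wB (r + 8) t) hg'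
      rw [h1] at h2
      exact h2
    · have h1 : ∀ r : Fin 16, (10 : Fin 16) - (r + 8) = 10 - r + 8 := by decide
      have h2 := fh_conj (fun t => h.wA (r + 8) t) hg'
      rw [h1] at h2
      exact h2
  · -- wp
    decide
  · -- wi
    intro i r s _ _ _ _ hrs
    cases i
    · have h1 : (8 : Fin 16) - r = 8 - s := hrs
      exact sub_right_injective h1
    · have h1 : (10 : Fin 16) - r = 10 - s := hrs
      exact sub_right_injective h1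
  · -- wh
    decide
  · -- XU
    intro i r hr hra g hg
    have h1 : g ∈ Xg e r := hg.1
    cases i
    · have h2 : ∀ r : Fin 16, 1 ≤ r ∧ r ≤ 8 → r ≠ 8 → r - 1 ≤ 6 ∧ r = 1 + (r - 1) := by decide
      obtain ⟨h3, h4⟩ := h2 r hr hra
      exact fh_sub h3 h4 h1
    · have h2 : ∀ r : Fin 16, 1 ≤ r ∧ r ≤ 8 → r ≠ 1 → r - 2 ≤ 6 ∧ r = 2 + (r - 2) := by decide
      obtain ⟨h3, h4⟩ := h2 r hr hra
      exact fh_sub h3 h4 h1
  · -- YV
    intro i r hr hra g hg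
    have h1 : g ∈ Xg e (r + 8) := hg.1
    cases i
    · have h2 : ∀ r : Fin 16, 1 ≤ r ∧ r ≤ 8 → r ≠ 8 → r - 1 ≤ 6 ∧ r + 8 = 9 + (r - 1) := by decide
      obtain ⟨h3, h4⟩ := h2 r hr hra
      exact fh_sub h3 h4 h1
    · have h2 : ∀ r : Fin 16, 1 ≤ r ∧ r ≤ 8 → r ≠ 1 → r - 2 ≤ 6 ∧ r + 8 = 10 + (r - 2) := by decide
      obtain ⟨h3, h4⟩ := h2 r hr hra
      exact fh_sub h3 h4 h1
  · -- aU
    intro i g hg u hu
    cases i
    · obtain ⟨p, _, rfl⟩ := (RayQ.mem8 hθ h).1 hg.1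
      have h1 := RayQ.nUB hθ h p⁻¹ (u := u) hu
      rw [map_inv, inv_inv] at h1
      exact h1
    · obtain ⟨p, _, rfl⟩ := (RayQ.mem1 h).1 hg.1
      have h1 := RayQ.nUA hθ h p⁻¹ (u := u) hu
      rw [map_inv, inv_inv] at h1
      exact h1
  · -- aV
    intro i g hg v hv
    cases i
    · have hg' : g ∈ Xg e 0 := hg.1
      obtain ⟨p, _, rfl⟩ := (RayQ.mem0 hθ h).1 hg'
      exact RayQ.nVB hθ h _ (u := v) hv
    · have hg' : g ∈ Xg e 9 := hg.1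
      obtain ⟨p, _, rfl⟩ := (RayQ.mem9 hθ h).1 hg'
      exact RayQ.nVA hθ h _ (u := v) hv
  · -- su
    intro i g hg u' hu' v hv k hk
    cases i
    · have hg' : g ∈ Xg e 8 := hg.1
      obtain ⟨p, hp, h1⟩ := (RayQ.mem8 hθ h).1 hg'
      have h2 := NS.of_u hB hv hk hp (fh_ne fB hg.2 h1) hu'
      rw [← h1] at h2
      exact h2
    · have hg' : g ∈ Xg e 1 := hg.1
      obtain ⟨p, hp, h1⟩ := (RayQ.mem1 h).1 hg'
      have h2 := NS.of_u hA hv hk hp (fh_ne fA hg.2 h1) hu'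
      rw [← h1] at h2
      exact h2
  · -- sv
    intro i g hg v' hv' u hu k hk
    cases i
    · have hg' : g ∈ Xg e 0 := hg.1
      obtain ⟨p, hp, h1⟩ := (RayQ.mem0 hθ h).1 hg'
      have h2 := NS.of_v hB hv' hk hp (fh_ne2 fB (r1Y hθ).nn hg.2 h1) hu
      rw [← h1] at h2
      exact h2
    · have hg' : g ∈ Xg e 9 := hg.1
      obtain ⟨p, hp, h1⟩ := (RayQ.mem9 hθ h).1 hg'
      have h2 := NS.of_v hA hv' hk hp (fh_ne2 fA (r1B hθ).nn hg.2 h1) hu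
      rw [← h1] at h2
      exact h2
  · -- UiU
    intro i
    cases i
    · exact fh_le (d := 0) (by decide)
    · exact fh_le (d := 1) (by decide)
  · -- ViV
    intro i
    cases i
    · exact fh_le (d := 0) (by decide)
    · exact fh_le (d := 1) (by decide)
  · -- XaU
    intro i g hg
    cases i
    · exact fh_sub (l := 7) (j := 8) (by decide) (by decide) hg.1
    · exact fh_sub (l := 0) (j := 1) (by decide) (by decide) hg.1
  · -- YaV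
    intro i g hg
    cases i
    · exact fh_sub (l := 7) (j := 0) (by decide) (by decide) hg.1
    · exact fh_sub (l := 0) (j := 9) (by decide) (by decide) hg.1
  · -- nh
    intro i k hk
    cases i
    · exact fh_nhB hθ h hk
    · exact fh_nhA hθ h hk
-- END fh

end Pool.Agent.ThO2
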