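import Pool.Agent.ThO2.RayE
import Pool.Agent.ThO3.RqA

/-! # The groups `²F_4(q)` as subgroups of `E_6(K)` -/

namespace Pool.Agent.ThO2.Q

open ThE ThG Pool.Agent.ThR

variable {K : Type*} [Field K] {θ : K →+* K} {G : Type*} [Group G]

/-- the root elements of `²F_4(q)` -/
def eQ (x : Root 6 → K → G) (θ : K →+* K) (i : Fin 16) (t : K) : G :=
  x (rR i) t * x (rS i) (θ t) * x (rB i) (θ t) * (if (i : ℕ) % 2 = 0 then x (rP i) (t * θ t) * x (rQ i) (t * θ t) else 1)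

/-- the torus elements of node `A` -/
def tAE (x : Root 6 → K → G) (θ : K →+* K) (b : Kˣ) : G := ThK.hh x (rR 1) (b : K) * ThK.hh x (rS 1) ((tu θ b : Kˣ) : K) * ThK.hh x (rB 1) ((tu θ b : Kˣ) : K)

/-- the torus elements of node `B` -/
def tBE (x : Root 6 → K → G) (θ : K →+* K) (b : Kˣ) : G := ThK.hh x (rS 8) ((b * tu θ b ^ 2 : Kˣ) : K) * ThK.hh x (rR 8) ((b ^ 2 * tu θ b ^ 2 : Kˣ) : K) * ThK.hh x (rB 8) ((b * tu θ b ^ 2 : Kˣ) : K)

variable {x : Root 6 → K → G}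

-- BEGIN ga
/-- ROW ga. Characteristic two (`two8`, `add8`: `-1 = 1`): no signs.  `Stb.add`, `Stb.zero`, `Stb.inv`, `Stb.sum`, `nn_conj` with `a = 1` -/
theorem ep8 (hθ : Rt θ) (v w : Vec 6) : (ThK.ep K v w : K) = 1 := by
  have h1 : (-1 : Kˣ) = 1 := Units.ext (by
    rw [Units.val_neg, Units.val_one]
    linear_combination -(hθ.two))
  rw [ThK.ep, h1, one_zpow, Units.val_one]

theorem x_sq (hθ : Rt θ) (h : ThK.Stb K 6 x) (r : Root 6) (a : K) : x r a * x r a = 1 := by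
  rw [← h.add, hθ.add, h.zero]

theorem x_inv (hθ : Rt θ) (h : ThK.Stb K 6 x) (r : Root 6) (a : K) : (x r a)⁻¹ = x r a :=
  inv_eq_of_mul_eq_one_right (x_sq hθ h r a)

/-- `x t (a * b)` commutes with both (`Stb.commute`: `bf t r = 1`), the commutator is `Stb.sum` -/
theorem x_sum (hθ : Rt θ) (h : ThK.Stb K 6 x) {r s t : Root 6} (ht : t.1 = r.1 + s.1) (a b : K) : x r a * x s b = x s b * x r a * x t (a * b) := by
  have h0 : bf r.1 s.1 = -1 := bf_of_add ht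
  have h1 := h.conj_add ht a b
  rw [ep8 hθ, one_mul] at h1
  have h2 : x r a * x t (a * b) = x t (a * b) * x r a := h.commute (by
    rw [ht, bf_add_right, bf_root, h0]
    norm_num) _ _
  have h3 : x s b * x t (a * b) = x t (a * b) * x s b := h.commute (by
    rw [ht, bf_add_right, bf_root, bf_comm, h0]
    norm_num) _ _
  rw [mul_assoc (x s b), h2, ← mul_assoc, h3, ← h1, inv_mul_cancel_right]

theorem nn_c (hθ : Rt θ) (h : ThK.Stb K 6 x) (r s : Root 6) (b : K) : ThK.nn x r 1 * x s b * (ThK.nn x r 1)⁻¹ = x (rf r s) b := by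
  rw [ThK.nn_conj (Or.inl rfl) h r s one_ne_zero b, ep8 hθ, one_zpow, one_zpow, one_mul, one_mul]
-- END ga

-- BEGIN gb
private theorem gb_c3 {a b c u v w z : G} (h1 : c * u * c⁻¹ = v) (h2 : b * v * b⁻¹ = w) (h3 : a * w * a⁻¹ = z) : a * b * c * u * (a * b * c)⁻¹ = z := by
  rw [← h3, ← h2, ← h1]
  group

private theorem gb_nnA (hθ : Rt θ) (h : ThK.Stb K 6 x) (s : Root 6) (b : K) : nnA x * x s b * (nnA x)⁻¹ = x (wa s) b :=
  gb_c3 (nn_c hθ h (rB 1) s b) (nn_c hθ h (rS 1) _ b) (nn_c hθ h (rR 1) _ b)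

private theorem gb_nnB (hθ : Rt θ) (h : ThK.Stb K 6 x) (s : Root 6) (b : K) : nnB x * x s b * (nnB x)⁻¹ = x (wb s) b := by
  have h1 := gb_c3 (nn_c hθ h (rS 8) s b) (nn_c hθ h (rB 8) _ b) (nn_c hθ h (rR 8) _ b)
  have h2 := gb_c3 (nn_c hθ h (rS 8) _ b) (nn_c hθ h (rB 8) (rf (rS 8) (rf (rR 8) (rf (rB 8) (rf (rS 8) s)))) b) (nn_c hθ h (rR 8) _ b)
  have h3 : nnB x = (ThK.nn x (rR 8) 1 * ThK.nn x (rB 8) 1 * ThK.nn x (rS 8) 1) * (ThK.nn x (rR 8) 1 * ThK.nn x (rB 8) 1 * ThK.nn x (rS 8) 1) := by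
    unfold nnB
    group
  have h4 : nnB x * x s b * (nnB x)⁻¹ = (ThK.nn x (rR 8) 1 * ThK.nn x (rB 8) 1 * ThK.nn x (rS 8) 1) * ((ThK.nn x (rR 8) 1 * ThK.nn x (rB 8) 1 * ThK.nn x (rS 8) 1) * x s b * (ThK.nn x (rR 8) 1 * ThK.nn x (rB 8) 1 * ThK.nn x (rS 8) 1)⁻¹) * (ThK.nn x (rR 8) 1 * ThK.nn x (rB 8) 1 * ThK.nn x (rS 8) 1)⁻¹ := by
    rw [h3]
    group
  rw [h4, h1]
  exact h2

private theorem gb_odd {i : Fin 16} (hi : ¬ (i : ℕ) % 2 = 0) (x : Root 6 → K → G) (t : K) : eQ x θ i t = x (rR i) t * x (rS i) (θ t) * x (rB i) (θ t) := by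
  unfold eQ
  rw [if_neg hi, mul_one]

private theorem gb_even {i : Fin 16} (hi : (i : ℕ) % 2 = 0) (x : Root 6 → K → G) (t : K) :
    eQ x θ i t = x (rR i) t * x (rS i) (θ t) * x (rB i) (θ t) * (x (rP i) (t * θ t) * x (rQ i) (t * θ t)) := by
  unfold eQ
  rw [if_pos hi]

/-- conjugation of the five factors -/
private theorem gb_map (h : ThK.Stb K 6 x) (n : G) (w : Root 6 → Root 6) (hn : ∀ s b, n * x s b * n⁻¹ = x (w s) b) (i j : Fin 16) (hij : (i : ℕ) % 2 = (j : ℕ) % 2) (h0 : (w (rR i)).1 = (rR j).1)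
    (h1 : ((w (rS i)).1 = (rS j).1 ∧ (w (rB i)).1 = (rB j).1 ∧ (w (rP i)).1 = (rP j).1 ∧ (w (rQ i)).1 = (rQ j).1) ∨
      ((w (rS i)).1 = (rB j).1 ∧ (w (rB i)).1 = (rS j).1 ∧ (w (rP i)).1 = (rQ j).1 ∧ (w (rQ i)).1 = (rP j).1)) (t : K) :
    n * eQ x θ i t * n⁻¹ = eQ x θ j t := by
  have cm : x (rS j) (θ t) * x (rB j) (θ t) = x (rB j) (θ t) * x (rS j) (θ t) :=
    h.commute (le_of_eq (bf_SB j).1.symm) _ _
  by_cases hi : (i : ℕ) % 2 = 0
  · have hj : (j : ℕ) % 2 = 0 := by omega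
    have cm2 : x (rP j) (t * θ t) * x (rQ j) (t * θ t) = x (rQ j) (t * θ t) * x (rP j) (t * θ t) :=
      h.commute (le_of_eq ((bf_SB j).2.1 hj).symm) _ _
    have e1 : n * eQ x θ i t * n⁻¹ = (n * x (rR i) t * n⁻¹) * (n * x (rS i) (θ t) * n⁻¹) * (n * x (rB i) (θ t) * n⁻¹) * ((n * x (rP i) (t * θ t) * n⁻¹) * (n * x (rQ i) (t * θ t) * n⁻¹)) := by
      rw [gb_even hi]
      group
    rw [e1, hn, hn, hn, hn, hn, gb_even hj, Subtype.ext h0]
    rcases h1 with ⟨a1, a2, a3, a4⟩ | ⟨a1, a2, a3, a4⟩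
    · rw [Subtype.ext a1, Subtype.ext a2, Subtype.ext a3, Subtype.ext a4]
    · rw [Subtype.ext a1, Subtype.ext a2, Subtype.ext a3, Subtype.ext a4, mul_assoc (x (rR j) t) (x (rB j) (θ t)), ← cm, ← cm2, ← mul_assoc (x (rR j) t)]
  · have hj : ¬ (j : ℕ) % 2 = 0 := by omega
    have e1 : n * eQ x θ i t * n⁻¹ = (n * x (rR i) t * n⁻¹) * (n * x (rS i) (θ t) * n⁻¹) * (n * x (rB i) (θ t) * n⁻¹) := by
      rw [gb_odd hi]
      group
    rw [e1, hn, hn, hn, gb_odd hj, Subtype.ext h0]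
    rcases h1 with ⟨a1, a2, _, _⟩ | ⟨a1, a2, _, _⟩
    · rw [Subtype.ext a1, Subtype.ext a2]
    · rw [Subtype.ext a1, Subtype.ext a2, mul_assoc (x (rR j) t) (x (rB j) (θ t)), ← cm, ← mul_assoc (x (rR j) t)]

private theorem gb_par (i : Fin 16) : (i : ℕ) % 2 = ((10 - i : Fin 16) : ℕ) % 2 ∧ (i : ℕ) % 2 = ((8 - i : Fin 16) : ℕ) % 2 := by
  revert i
  decide

/-- ROW gb. `nnA x * x s b * (nnA x)⁻¹ = x (wa s) b` (`nn_c` three times), `nnB x * x s b * (nnB x)⁻¹ = x (wb s) b`; `wa_R`, `wa_S`, `wb_R`, `wb_S` (`Subtype.ext`), `bf_SB` and `Stb.commute` for the order of the factors; `10 - i` has the parity of `i` -/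
theorem wAE (hθ : Rt θ) (h : ThK.Stb K 6 x) (i : Fin 16) (t : K) : nnA x * eQ x θ i t * (nnA x)⁻¹ = eQ x θ (10 - i) t :=
  gb_map h (nnA x) wa (gb_nnA hθ h) i (10 - i) (gb_par i).1 (wa_R i) (wa_S i) t

theorem wBE (hθ : Rt θ) (h : ThK.Stb K 6 x) (i : Fin 16) (t : K) : nnB x * eQ x θ i t * (nnB x)⁻¹ = eQ x θ (8 - i) t :=
  gb_map h (nnB x) wb (gb_nnB hθ h) i (8 - i) (gb_par i).2 (wb_R i) (wb_S i) t
-- END gb

-- BEGIN gc
private theorem gc_sq (θ : K →+* K) :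
    ∃ φ : SL2 K →* SL2 K, (∀ t, φ (up t) = up (θ t)) ∧ (∀ t, φ (lo t) = lo (θ t)) ∧ ∀ b : Kˣ, φ (ThG.dg b) = ThG.dg (tu θ b) := by
  refine ⟨Matrix.SpecialLinearGroup.map θ, fun t => ?_, fun t => ?_, fun b => ?_⟩
  · apply Subtype.ext
    ext i j
    show θ ((up t).1 i j) = (up (θ t)).1 i j
    fin_cases i <;> fin_cases j <;> simp [up]
  · apply Subtype.ext
    ext i j
    show θ ((lo t).1 i j) = (lo (θ t)).1 i j
    fin_cases i <;> fin_cases j <;> simp [lo]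
  · apply Subtype.ext
    ext i j
    show θ ((ThG.dg b).1 i j) = (ThG.dg (tu θ b)).1 i j
    fin_cases i <;> fin_cases j <;> simp [ThG.dg, tu]

private theorem gc_comm (h : ThK.Stb K 6 x) {r s : Root 6} (hrs : bf r.1 s.1 = 0) {f g : SL2 K →* G} (hf : ThK.IsTh x r f) (hg : ThK.IsTh x s g) (M N : SL2 K) :
    f M * g N = g N * f M := by
  have key : ∀ M : SL2 K, (∃ a, M = up a ∨ M = lo a) → ∀ N : SL2 K, (∃ b, N = up b ∨ N = lo b) → Commute (f M) (g N) := by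
    rintro _ ⟨a, rfl | rfl⟩ _ ⟨b, rfl | rfl⟩
    · rw [hf.up, hg.up]
      exact h.commute (by rw [hrs]) a b
    · rw [hf.up, hg.lo]
      exact h.commute (by rw [neg_val, bf_neg_right, hrs, neg_zero]) _ _
    · rw [hf.lo, hg.up]
      exact h.commute (by rw [neg_val, bf_neg_left, hrs, neg_zero]) _ _
    · rw [hf.lo, hg.lo]
      exact h.commute (by rw [neg_val, neg_val, bf_neg_left, bf_neg_right, hrs, neg_zero, neg_zero]) _ _
  have top : ∀ M : SL2 K, M ∈ Subgroup.closure {g : SL2 K | ∃ a, g = up a ∨ g = lo a} := by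
    intro M
    rw [sl2_gen]
    exact Subgroup.mem_top M
  have k2 : ∀ M : SL2 K, (∃ a, M = up a ∨ M = lo a) → ∀ N : SL2 K, Commute (f M) (g N) := by
    intro M hM N
    have hN := top N
    induction hN using Subgroup.closure_induction with
    | mem N hN => exact key M hM N hN
    | one => rw [map_one]; exact Commute.one_right _
    | mul a b _ _ ha hb => rw [map_mul]; exact ha.mul_right hb
    | inv a _ ha => rw [map_inv]; exact ha.inv_right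
  have hM := top M
  have goal : Commute (f M) (g N) := by
    induction hM using Subgroup.closure_induction with
    | mem M hM => exact k2 M hM N
    | one => rw [map_one]; exact Commute.one_left _
    | mul a b _ _ ha hb => rw [map_mul]; exact ha.mul_left hb
    | inv a _ ha => rw [map_inv]; exact ha.inv_left
  exact goal

/-- ROW gc. `f M = f₆ M * f₅ (φ M) * f₁ (φ M)`, where `f₆`, `f₅`, `f₁` are the homomorphisms of the roots `rR 1`, `rS 1`, `rB 1` (`ThK.exists_th`), which commute (the roots are orthogonal: `bf = 0` for all signs; `sl2_gen` and `Stb.commute`), and `φ` squares the entries (`frobenius K 2` or a ring hom `a ↦ a ^ 2`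
from `two8`; `Matrix.SpecialLinearGroup.map`); `φ (up t) = up (t ^ 2)`, `φ (dg b) = dg (b ^ 2)`, `φ (nA) = nA` (`-1 = 1`); `IsTh.up`, `IsTh.lo`, `IsTh.dg` -/
theorem exists_fA (hθ : Rt θ) (h : ThK.Stb K 6 x) : ∃ f : SL2 K →* G, (∀ t, f (up t) = eQ x θ 1 t) ∧ f (nA K) = nnA x ∧ ∀ b : Kˣ, f (dg b) = tAE x θ b := by
  obtain ⟨f6, h6⟩ := ThK.exists_th (Or.inl rfl) h (rR 1)
  obtain ⟨f5, h5⟩ := ThK.exists_th (Or.inl rfl) h (rS 1)
  obtain ⟨f1, h1⟩ := ThK.exists_th (Or.inl rfl) h (rB 1)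
  obtain ⟨φ, hu, hl, hd⟩ := gc_sq θ
  have b1 := bf_SB 1
  have bSB : bf (rS 1).1 (rB 1).1 = 0 := b1.1
  have bRS : bf (rR 1).1 (rS 1).1 = 0 := (b1.2.2 rfl).1
  have bRB : bf (rR 1).1 (rB 1).1 = 0 := (b1.2.2 rfl).2
  have c65 := gc_comm h bRS h6 h5
  have c61 := gc_comm h bRB h6 h1
  have c51 := gc_comm h bSB h5 h1
  have hneg : (-1 : K) = 1 := by linear_combination (-1 : K) * hθ.two
  have hφn : φ (nA K) = nA K := by
    unfold nA
    rw [map_mul, map_mul, hu, hl, map_one, map_neg, map_one, hneg]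
  have hnn : ∀ (r : Root 6) (f : SL2 K →* G), ThK.IsTh x r f → f (nA K) = ThK.nn x r 1 := by
    intro r f hf
    unfold nA ThK.nn
    rw [map_mul, map_mul, hf.up, hf.lo, neg_neg, inv_one]
  refine ⟨⟨⟨fun M => f6 M * f5 (φ M) * f1 (φ M), by simp⟩, fun M N => ?_⟩, fun t => ?_, ?_, fun b => ?_⟩
  · show f6 (M * N) * f5 (φ (M * N)) * f1 (φ (M * N)) = f6 M * f5 (φ M) * f1 (φ M) * (f6 N * f5 (φ N) * f1 (φ N))
    rw [map_mul, map_mul, map_mul, map_mul]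
    calc f6 M * f6 N * (f5 (φ M) * f5 (φ N)) * (f1 (φ M) * f1 (φ N))
        = f6 M * (f6 N * f5 (φ M)) * (f5 (φ N) * f1 (φ M)) * f1 (φ N) := by simp only [mul_assoc]
      _ = f6 M * (f5 (φ M) * f6 N) * (f1 (φ M) * f5 (φ N)) * f1 (φ N) := by rw [c65 N (φ M), c51 (φ N) (φ M)]
      _ = f6 M * f5 (φ M) * (f6 N * f1 (φ M)) * f5 (φ N) * f1 (φ N) := by simp only [mul_assoc]
      _ = f6 M * f5 (φ M) * (f1 (φ M) * f6 N) * f5 (φ N) * f1 (φ N) := by rw [c61 N (φ M)]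
      _ = f6 M * f5 (φ M) * f1 (φ M) * (f6 N * f5 (φ N) * f1 (φ N)) := by simp only [mul_assoc]
  · show f6 (up t) * f5 (φ (up t)) * f1 (φ (up t)) = eQ x θ 1 t
    rw [hu, h6.up, h5.up, h1.up]
    exact (mul_one _).symm
  · show f6 (nA K) * f5 (φ (nA K)) * f1 (φ (nA K)) = nnA x
    rw [hφn, hnn _ _ h6, hnn _ _ h5, hnn _ _ h1]
    rfl
  · show f6 (ThG.dg b) * f5 (φ (ThG.dg b)) * f1 (φ (ThG.dg b)) = tAE x θ b
    rw [hd, h6.dg, h5.dg, h1.dg]
    rfl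
-- END gc

-- BEGIN gd
/-- the family `e_4, e_3, e_2, e_1` -/
private def gd_u (i : Fin 4) : Vec 6 := (![(0, ![0, 0, 0, 0, 1, 0]), (0, ![0, 0, 0, 1, 0, 0]), (0, ![0, 0, 1, 0, 0, 0]), (0, ![0, 1, 0, 0, 0, 0])] : Fin 4 → Vec 6) i

private theorem gd_fam : Fam (fun _ => (0 : ℤ)) gd_u := by
  unfold Fam L0
  decide +kernel

private theorem gd_cf (hθ : Rt θ) (i j : Fin 4) : cf K gd_u i j = 1 := by
  have h1 := cf_sq (K := K) gd_u i j
  have h2 := hθ.two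
  have h3 : (cf K gd_u i j - 1) * (cf K gd_u i j - 1) = 0 := by linear_combination h1 + (1 - cf K gd_u i j) * h2
  exact sub_eq_zero.1 (mul_self_eq_zero.1 h3)

private theorem gd_F (hθ : Rt θ) {F : Matrix.SpecialLinearGroup (Fin 4) K →* G} (hF : HomF x gd_u F) {i j : Fin 4} (hij : i ≠ j) {r : Root 6}
    (hr : r.1 = gd_u i - gd_u j) (a : K) : F (ThK.el K i j a) = x r a := by
  have hr' : IsR (gd_u i - gd_u j) := by
    rw [← hr]
    exact r.2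
  rw [hF i j hij a, gd_cf hθ, one_mul, X_of x hr']
  congr 1
  exact Subtype.ext hr.symm

private theorem gd_el {i j : Fin 4} (h : i ≠ j) (a : K) : (ThK.el K i j a).1 = Matrix.transvection i j a := by
  unfold ThK.el
  rw [dif_pos h]

private theorem gd_nn (hθ : Rt θ) {F : Matrix.SpecialLinearGroup (Fin 4) K →* G} (hF : HomF x gd_u F) {i j : Fin 4} (hij : i ≠ j) {r : Root 6}
    (hr : r.1 = gd_u i - gd_u j) : F (ThK.nA (ThK.el K) i j 1) = ThK.nn x r 1 := by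
  have h2 := hθ.two
  have e1 : -(1 : K)⁻¹ = 1⁻¹ := by
    rw [inv_one]
    linear_combination (-1 : K) * h2
  unfold ThK.nA ThK.nn
  rw [map_mul, map_mul, gd_F hθ hF hij hr, gd_F hθ hF hij.symm (r := -r) (by rw [neg_val, hr]; abel), e1]

private theorem gd_T01 (a : K) : Matrix.transvection (0 : Fin 4) 1 a = !![1, a, 0, 0; 0, 1, 0, 0; 0, 0, 1, 0; 0, 0, 0, 1] := by
  ext p q
  fin_cases p <;> fin_cases q <;> simp [Matrix.transvection, Matrix.single_apply]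

private theorem gd_T10 (a : K) : Matrix.transvection (1 : Fin 4) 0 a = !![1, 0, 0, 0; a, 1, 0, 0; 0, 0, 1, 0; 0, 0, 0, 1] := by
  ext p q
  fin_cases p <;> fin_cases q <;> simp [Matrix.transvection, Matrix.single_apply]

private theorem gd_T12 (a : K) : Matrix.transvection (1 : Fin 4) 2 a = !![1, 0, 0, 0; 0, 1, a, 0; 0, 0, 1, 0; 0, 0, 0, 1] := by
  ext p q
  fin_cases p <;> fin_cases q <;> simp [Matrix.transvection, Matrix.single_apply]

private theorem gd_T21 (a : K) : Matrix.transvection (2 : Fin 4) 1 a = !![1, 0, 0, 0; 0, 1, 0, 0; 0, a, 1, 0; 0, 0, 0, 1] := by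
  ext p q
  fin_cases p <;> fin_cases q <;> simp [Matrix.transvection, Matrix.single_apply]

private theorem gd_T23 (a : K) : Matrix.transvection (2 : Fin 4) 3 a = !![1, 0, 0, 0; 0, 1, 0, 0; 0, 0, 1, a; 0, 0, 0, 1] := by
  ext p q
  fin_cases p <;> fin_cases q <;> simp [Matrix.transvection, Matrix.single_apply]

private theorem gd_T32 (a : K) : Matrix.transvection (3 : Fin 4) 2 a = !![1, 0, 0, 0; 0, 1, 0, 0; 0, 0, 1, 0; 0, 0, a, 1] := by
  ext p q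
  fin_cases p <;> fin_cases q <;> simp [Matrix.transvection, Matrix.single_apply]

private theorem gd_T02 (a : K) : Matrix.transvection (0 : Fin 4) 2 a = !![1, 0, a, 0; 0, 1, 0, 0; 0, 0, 1, 0; 0, 0, 0, 1] := by
  ext p q
  fin_cases p <;> fin_cases q <;> simp [Matrix.transvection, Matrix.single_apply]

private theorem gd_T13 (a : K) : Matrix.transvection (1 : Fin 4) 3 a = !![1, 0, 0, 0; 0, 1, 0, a; 0, 0, 1, 0; 0, 0, 0, 1] := by
  ext p q
  fin_cases p <;> fin_cases q <;> simp [Matrix.transvection, Matrix.single_apply]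

private theorem gd_pS (hθ : Rt θ) (t : K) : pQ θ t 0 = ThK.el K 1 2 t * ThK.el K 0 1 (θ t) * ThK.el K 2 3 (θ t) * (ThK.el K 0 2 (t * θ t) * ThK.el K 1 3 (t * θ t)) := by
  have h2 := hθ.two
  apply Subtype.ext
  show (pQ θ t 0).1 = (ThK.el K 1 2 t).1 * (ThK.el K 0 1 (θ t)).1 * (ThK.el K 2 3 (θ t)).1 * ((ThK.el K 0 2 (t * θ t)).1 * (ThK.el K 1 3 (t * θ t)).1)
  rw [gd_el (by decide), gd_el (by decide), gd_el (by decide), gd_el (by decide), gd_el (by decide), gd_T12, gd_T01, gd_T23, gd_T02, gd_T13]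
  have e1 : (!![1, 0, 0, 0; 0, 1, t, 0; 0, 0, 1, 0; 0, 0, 0, 1] : Matrix (Fin 4) (Fin 4) K) * !![1, θ t, 0, 0; 0, 1, 0, 0; 0, 0, 1, 0; 0, 0, 0, 1] =
      !![1, θ t, 0, 0; 0, 1, t, 0; 0, 0, 1, 0; 0, 0, 0, 1] := by
    ext p q
    fin_cases p <;> fin_cases q <;> simp [Matrix.mul_apply, Fin.sum_univ_four]
  have e2 : (!![1, θ t, 0, 0; 0, 1, t, 0; 0, 0, 1, 0; 0, 0, 0, 1] : Matrix (Fin 4) (Fin 4) K) * !![1, 0, 0, 0; 0, 1, 0, 0; 0, 0, 1, θ t; 0, 0, 0, 1] =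
      !![1, θ t, 0, 0; 0, 1, t, t * θ t; 0, 0, 1, θ t; 0, 0, 0, 1] := by
    ext p q
    fin_cases p <;> fin_cases q <;> simp [Matrix.mul_apply, Fin.sum_univ_four]
  have e3 : (!![1, 0, t * θ t, 0; 0, 1, 0, 0; 0, 0, 1, 0; 0, 0, 0, 1] : Matrix (Fin 4) (Fin 4) K) * !![1, 0, 0, 0; 0, 1, 0, t * θ t; 0, 0, 1, 0; 0, 0, 0, 1] =
      !![1, 0, t * θ t, 0; 0, 1, 0, t * θ t; 0, 0, 1, 0; 0, 0, 0, 1] := by
    ext p q
    fin_cases p <;> fin_cases q <;> simp [Matrix.mul_apply, Fin.sum_univ_four]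
  have e4 : (!![1, θ t, 0, 0; 0, 1, t, t * θ t; 0, 0, 1, θ t; 0, 0, 0, 1] : Matrix (Fin 4) (Fin 4) K) * !![1, 0, t * θ t, 0; 0, 1, 0, t * θ t; 0, 0, 1, 0; 0, 0, 0, 1] =
      !![1, θ t, t * θ t, θ t * (t * θ t); 0, 1, t, t * θ t + t * θ t; 0, 0, 1, θ t; 0, 0, 0, 1] := by
    ext p q
    fin_cases p <;> fin_cases q <;> simp [Matrix.mul_apply, Fin.sum_univ_four]
  rw [e1, e2, e3, e4]
  have e5 : t * θ t + t * θ t = (0 : K) := by linear_combination t * θ t * h2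
  have e6 : θ t * (t * θ t) = t * θ t ^ 2 := by ring
  rw [e5, e6]
  ext p q
  fin_cases p <;> fin_cases q <;> simp [pQ]

private theorem gd_s01 (hθ : Rt θ) : (ThK.nA (ThK.el K) (0 : Fin 4) 1 1).1 = !![0, 1, 0, 0; 1, 0, 0, 0; 0, 0, 1, 0; 0, 0, 0, 1] := by
  have h2 := hθ.two
  show (ThK.el K (0 : Fin 4) 1 1).1 * (ThK.el K (1 : Fin 4) 0 (-1⁻¹)).1 * (ThK.el K (0 : Fin 4) 1 1).1 = _
  rw [gd_el (by decide), gd_el (by decide), gd_T01, gd_T10]
  have e1 : -(1 : K)⁻¹ = 1 := by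
    rw [inv_one]
    linear_combination (-1 : K) * h2
  have e2 : (1 : K) + 1 = 0 := by linear_combination h2
  rw [e1]
  ext p q
  fin_cases p <;> fin_cases q <;> simp [Matrix.mul_apply, Fin.sum_univ_four, e2]

private theorem gd_s12 (hθ : Rt θ) : (ThK.nA (ThK.el K) (1 : Fin 4) 2 1).1 = !![1, 0, 0, 0; 0, 0, 1, 0; 0, 1, 0, 0; 0, 0, 0, 1] := by
  have h2 := hθ.two
  show (ThK.el K (1 : Fin 4) 2 1).1 * (ThK.el K (2 : Fin 4) 1 (-1⁻¹)).1 * (ThK.el K (1 : Fin 4) 2 1).1 = _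
  rw [gd_el (by decide), gd_el (by decide), gd_T12, gd_T21]
  have e1 : -(1 : K)⁻¹ = 1 := by
    rw [inv_one]
    linear_combination (-1 : K) * h2
  have e2 : (1 : K) + 1 = 0 := by linear_combination h2
  rw [e1]
  ext p q
  fin_cases p <;> fin_cases q <;> simp [Matrix.mul_apply, Fin.sum_univ_four, e2]

private theorem gd_s23 (hθ : Rt θ) : (ThK.nA (ThK.el K) (2 : Fin 4) 3 1).1 = !![1, 0, 0, 0; 0, 1, 0, 0; 0, 0, 0, 1; 0, 0, 1, 0] := by
  have h2 := hθ.two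
  show (ThK.el K (2 : Fin 4) 3 1).1 * (ThK.el K (3 : Fin 4) 2 (-1⁻¹)).1 * (ThK.el K (2 : Fin 4) 3 1).1 = _
  rw [gd_el (by decide), gd_el (by decide), gd_T23, gd_T32]
  have e1 : -(1 : K)⁻¹ = 1 := by
    rw [inv_one]
    linear_combination (-1 : K) * h2
  have e2 : (1 : K) + 1 = 0 := by linear_combination h2
  rw [e1]
  ext p q
  fin_cases p <;> fin_cases q <;> simp [Matrix.mul_apply, Fin.sum_univ_four, e2]

private theorem gd_JS (hθ : Rt θ) : JS K = ThK.nA (ThK.el K) (1 : Fin 4) 2 1 * ThK.nA (ThK.el K) (2 : Fin 4) 3 1 * ThK.nA (ThK.el K) (0 : Fin 4) 1 1 *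
    ThK.nA (ThK.el K) (1 : Fin 4) 2 1 * ThK.nA (ThK.el K) (2 : Fin 4) 3 1 * ThK.nA (ThK.el K) (0 : Fin 4) 1 1 := by
  apply Subtype.ext
  show (JS K).1 = (ThK.nA (ThK.el K) (1 : Fin 4) 2 1).1 * (ThK.nA (ThK.el K) (2 : Fin 4) 3 1).1 * (ThK.nA (ThK.el K) (0 : Fin 4) 1 1).1 *
    (ThK.nA (ThK.el K) (1 : Fin 4) 2 1).1 * (ThK.nA (ThK.el K) (2 : Fin 4) 3 1).1 * (ThK.nA (ThK.el K) (0 : Fin 4) 1 1).1
  rw [gd_s01 hθ, gd_s12 hθ, gd_s23 hθ]
  have e1 : (!![1, 0, 0, 0; 0, 0, 1, 0; 0, 1, 0, 0; 0, 0, 0, 1] : Matrix (Fin 4) (Fin 4) K) * !![1, 0, 0, 0; 0, 1, 0, 0; 0, 0, 0, 1; 0, 0, 1, 0] *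
      !![0, 1, 0, 0; 1, 0, 0, 0; 0, 0, 1, 0; 0, 0, 0, 1] = !![0, 1, 0, 0; 0, 0, 0, 1; 1, 0, 0, 0; 0, 0, 1, 0] := by
    ext p q
    fin_cases p <;> fin_cases q <;> simp [Matrix.mul_apply, Fin.sum_univ_four]
  rw [e1, Matrix.mul_assoc _ _ (!![0, 1, 0, 0; 1, 0, 0, 0; 0, 0, 1, 0; 0, 0, 0, 1] : Matrix (Fin 4) (Fin 4) K), Matrix.mul_assoc, ← Matrix.mul_assoc _ _ (!![0, 1, 0, 0; 1, 0, 0, 0; 0, 0, 1, 0; 0, 0, 0, 1] : Matrix (Fin 4) (Fin 4) K), e1]
  ext p q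
  fin_cases p <;> fin_cases q <;> simp [JS, Matrix.mul_apply, Fin.sum_univ_four]

private theorem gd_tS (b : Kˣ) : tQ θ b = ThK.hA (ThK.el K) (0 : Fin 4) 1 ((b * tu θ b ^ 2 : Kˣ) : K) * ThK.hA (ThK.el K) (1 : Fin 4) 2 ((b ^ 2 * tu θ b ^ 2 : Kˣ) : K) * ThK.hA (ThK.el K) (2 : Fin 4) 3 ((b * tu θ b ^ 2 : Kˣ) : K) := by
  have hb : (b : K) ≠ 0 := b.ne_zero
  apply Subtype.ext
  show (tQ θ b).1 = (ThK.hA (ThK.el K) (0 : Fin 4) 1 ((b * tu θ b ^ 2 : Kˣ) : K)).1 * (ThK.hA (ThK.el K) (1 : Fin 4) 2 ((b ^ 2 * tu θ b ^ 2 : Kˣ) : K)).1 * (ThK.hA (ThK.el K) (2 : Fin 4) 3 ((b * tu θ b ^ 2 : Kˣ) : K)).1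
  rw [hA_el (by decide), hA_el (by decide), hA_el (by decide), Matrix.diagonal_mul_diagonal, Matrix.diagonal_mul_diagonal]
  ext p q
  fin_cases p <;> fin_cases q <;> simp [tQ]
  · field_simp
  · field_simp

/-- ROW gd. `exists_HomF` (`ThR/Six.lean`) for the family `u i = ε_(4 - i)` (`u 0 - u 1 = vS 8`, `u 1 - u 2 = vR 8`, `u 2 - u 3 = vB 8`, `u 0 - u 2 = vP 8`, `u 1 - u 3 = vQ 8`; level `l = 0`; `cf` is `1` by characteristic two), `HomF.hA`.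
`pQ θ t 0 = el 1 2 t * el 0 1 (θ t) * el 2 3 (θ t) * el 0 2 (t * θ t) * el 1 3 (t * θ t)`; `JS K = s₁₂ s₂₃ s₀₁ s₁₂ s₂₃ s₀₁` with `s_ij = el i j 1 * el j i 1 * el i j 1`; `tQ θ b = h₀₁(b⁻¹) h₁₂(b⁻⁴) h₂₃(b⁻¹)`, `h_ij(c) = ThK.hA (el K) i j c` (diagonal `c` at `i`, `c⁻¹` at `j`). -/
theorem exists_fB (hθ : Rt θ) (h : ThK.Stb K 6 x) :
    ∃ f : Matrix.SpecialLinearGroup (Fin 4) K →* G, (∀ t, f (pQ θ t 0) = eQ x θ 8 t) ∧ f (JS K) = nnB x ∧ ∀ b : Kˣ, f (tQ θ b) = tBE x θ b := by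
  obtain ⟨F, hF⟩ := exists_HomF (Or.inl rfl) h gd_fam
  have r01 : (rS 8).1 = gd_u 0 - gd_u 1 := by decide
  have r12 : (rR 8).1 = gd_u 1 - gd_u 2 := by decide
  have r23 : (rB 8).1 = gd_u 2 - gd_u 3 := by decide
  have r02 : (rP 8).1 = gd_u 0 - gd_u 2 := by decide
  have r13 : (rQ 8).1 = gd_u 1 - gd_u 3 := by decide
  refine ⟨F, fun t => ?_, ?_, fun b => ?_⟩
  · rw [gd_pS hθ, map_mul, map_mul, map_mul, map_mul, gd_F hθ hF (by decide) r12, gd_F hθ hF (by decide) r01, gd_F hθ hF (by decide) r23,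
      gd_F hθ hF (by decide) r02, gd_F hθ hF (by decide) r13]
    unfold eQ
    rw [if_pos (by decide)]
  · rw [gd_JS hθ, map_mul, map_mul, map_mul, map_mul, map_mul, gd_nn hθ hF (by decide) r12, gd_nn hθ hF (by decide) r23, gd_nn hθ hF (by decide) r01]
    rfl
  · rw [gd_tS, map_mul, map_mul, HomF.hA (Or.inl rfl) h gd_fam hF (by decide) r01, HomF.hA (Or.inl rfl) h gd_fam hF (by decide) r12,
      HomF.hA (Or.inl rfl) h gd_fam hF (by decide) r23]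
    rfl
-- END gd

-- BEGIN ge
/-- the exponents of node `A` -/
def eAQ (v : Vec 6) : ℤ × ℤ := (bf (vR 1) v, bf (vS 1) v + bf (vB 1) v)

/-- the exponents of node `B` -/
def eBQ (v : Vec 6) : ℤ × ℤ := (bf (vS 8) v + bf (vB 8) v + 2 * bf (vR 8) v, 2 * (bf (vS 8) v + bf (vB 8) v + bf (vR 8) v))

/-- the exponents `p θ` for even `p.2` -/
def tw (p : ℤ × ℤ) : ℤ × ℤ := (p.2 / 2, p.1)

theorem eAQ_ok : ∀ i : Fin 16, (cA i).2 % 2 = 0 ∧ eAQ (vR i) = cA i ∧ eAQ (vS i) = tw (cA i) ∧ eAQ (vB i) = tw (cA i) ∧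
    ((i : ℕ) % 2 = 0 → eAQ (vP i) = cA i + tw (cA i) ∧ eAQ (vQ i) = cA i + tw (cA i)) := by
  decide +kernel

theorem eBQ_ok : ∀ i : Fin 16, (cB i).2 % 2 = 0 ∧ eBQ (vR i) = cB i ∧ eBQ (vS i) = tw (cB i) ∧ eBQ (vB i) = tw (cB i) ∧
    ((i : ℕ) % 2 = 0 → eBQ (vP i) = cB i + tw (cB i) ∧ eBQ (vQ i) = cB i + tw (cB i)) := by
  decide +kernel

private theorem ge_tw (hθ : Rt θ) (b : Kˣ) {p : ℤ × ℤ} (hp : p.2 % 2 = 0) : mo θ b (tw p) = tu θ (mo θ b p) := by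
  obtain ⟨k, hk⟩ : ∃ k, p.2 = 2 * k := ⟨p.2 / 2, by omega⟩
  unfold mo tw
  have e1 : p.2 / 2 = k := by omega
  simp only [map_mul, map_zpow]
  rw [e1, hk, zpow_mul, zpow_two, ← sq, hθ.unit, mul_comm]

private theorem ge_one (hθ : Rt θ) (h : ThK.Stb K 6 x) (b : Kˣ) (s : Root 6) (c : K) : tAE x θ b * x s c * (tAE x θ b)⁻¹ = x s ((mo θ b (eAQ s.1) : K) * c) := by
  have e : ∀ p q r y : G, p * q * r * y * (p * q * r)⁻¹ = p * (q * (r * y * r⁻¹) * q⁻¹) * p⁻¹ := fun p q r y => by group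
  rw [tAE, e, ThK.hh_conj (Or.inl rfl) h _ _ (Units.ne_zero _), ThK.hh_conj (Or.inl rfl) h _ _ (Units.ne_zero _), ThK.hh_conj (Or.inl rfl) h _ _ (Units.ne_zero _),
    ← Units.val_zpow_eq_zpow_val, ← Units.val_zpow_eq_zpow_val, ← Units.val_zpow_eq_zpow_val, ← mul_assoc, ← mul_assoc, ← Units.val_mul, ← Units.val_mul]
  congr 3
  unfold mo eAQ
  simp only
  rw [zpow_add, ← mul_assoc]
  rfl

private theorem ge_two (hθ : Rt θ) (h : ThK.Stb K 6 x) (b : Kˣ) (s : Root 6) (c : K) : tBE x θ b * x s c * (tBE x θ b)⁻¹ = x s ((mo θ b (eBQ s.1) : K) * c) := by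
  have e : ∀ p q r y : G, p * q * r * y * (p * q * r)⁻¹ = p * (q * (r * y * r⁻¹) * q⁻¹) * p⁻¹ := fun p q r y => by group
  rw [tBE, e, ThK.hh_conj (Or.inl rfl) h _ _ (Units.ne_zero _), ThK.hh_conj (Or.inl rfl) h _ _ (Units.ne_zero _), ThK.hh_conj (Or.inl rfl) h _ _ (Units.ne_zero _),
    ← Units.val_zpow_eq_zpow_val, ← Units.val_zpow_eq_zpow_val, ← Units.val_zpow_eq_zpow_val, ← mul_assoc, ← mul_assoc, ← Units.val_mul, ← Units.val_mul]
  congr 3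
  unfold mo eBQ
  simp only
  generalize tu θ b = u
  have key : ∀ p q r : ℤ, (b * u ^ 2) ^ p * (b ^ 2 * u ^ 2) ^ r * (b * u ^ 2) ^ q = b ^ (p + q + 2 * r) * u ^ (2 * (p + q + r)) := by
    intro p q r
    have e1 : u ^ (2 : ℕ) = u ^ (2 : ℤ) := rfl
    have e2 : b ^ (2 : ℕ) = b ^ (2 : ℤ) := rfl
    rw [e1, e2, mul_zpow, mul_zpow, mul_zpow, ← zpow_mul, ← zpow_mul, ← zpow_mul, ← zpow_mul, zpow_add, zpow_add, mul_add, mul_add, zpow_add, zpow_add]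
    simp only [mul_assoc, mul_comm, mul_left_comm]
  exact key _ _ _

private theorem ge_fac (hθ : Rt θ) (x : Root 6 → K → G) {T : G} {b : Kˣ} {e : Vec 6 → ℤ × ℤ} {cc : Fin 16 → ℤ × ℤ} (hT : ∀ s c, T * x s c * T⁻¹ = x s ((mo θ b (e s.1) : K) * c))
    (he : ∀ i : Fin 16, (cc i).2 % 2 = 0 ∧ e (vR i) = cc i ∧ e (vS i) = tw (cc i) ∧ e (vB i) = tw (cc i) ∧
      ((i : ℕ) % 2 = 0 → e (vP i) = cc i + tw (cc i) ∧ e (vQ i) = cc i + tw (cc i))) (i : Fin 16) (t : K) :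
    T * eQ x θ i t * T⁻¹ = eQ x θ i ((mo θ b (cc i) : K) * t) := by
  obtain ⟨h0, h1, h2, h3, h4⟩ := he i
  have kt : (mo θ b (tw (cc i)) : K) = θ (mo θ b (cc i) : K) := by
    rw [ge_tw hθ b h0]
    rfl
  have k1 : T * x (rR i) t * T⁻¹ = x (rR i) ((mo θ b (cc i) : K) * t) := by
    rw [hT]
    have e1 : e (rR i).1 = cc i := h1
    rw [e1]
  have k2 : T * x (rS i) (θ t) * T⁻¹ = x (rS i) (θ ((mo θ b (cc i) : K) * t)) := by
    rw [hT]
    have e1 : e (rS i).1 = tw (cc i) := h2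
    rw [e1, kt, map_mul]
  have k3 : T * x (rB i) (θ t) * T⁻¹ = x (rB i) (θ ((mo θ b (cc i) : K) * t)) := by
    rw [hT]
    have e1 : e (rB i).1 = tw (cc i) := h3
    rw [e1, kt, map_mul]
  have d : ∀ p q : G, T * (p * q) * T⁻¹ = T * p * T⁻¹ * (T * q * T⁻¹) := fun p q => by group
  by_cases hi : (i : ℕ) % 2 = 0
  · obtain ⟨h5, h6⟩ := h4 hi
    have ks : ∀ s : K, (mo θ b (cc i + tw (cc i)) : K) * (s * θ s) = (mo θ b (cc i) : K) * s * θ ((mo θ b (cc i) : K) * s) := by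
      intro s
      rw [mo_add, Units.val_mul, kt, map_mul]
      ring
    have k4 : T * x (rP i) (t * θ t) * T⁻¹ = x (rP i) ((mo θ b (cc i) : K) * t * θ ((mo θ b (cc i) : K) * t)) := by
      rw [hT]
      have e1 : e (rP i).1 = cc i + tw (cc i) := h5
      rw [e1, ks]
    have k5 : T * x (rQ i) (t * θ t) * T⁻¹ = x (rQ i) ((mo θ b (cc i) : K) * t * θ ((mo θ b (cc i) : K) * t)) := by
      rw [hT]
      have e1 : e (rQ i).1 = cc i + tw (cc i) := h6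
      rw [e1, ks]
    rw [eQ, eQ, if_pos hi, if_pos hi, d, d, d, d, k1, k2, k3, k4, k5]
  · rw [eQ, eQ, if_neg hi, if_neg hi, mul_one, mul_one, d, d, k1, k2, k3]

/-- ROW ge. `tAE x θ b * x s c * (tAE x θ b)⁻¹ = x s (mo θ b (eAQ s) * c)` (`hh_conj` three times; zpow), `eAQ_ok`, `eBQ_ok` -/
theorem tAE_conj (hθ : Rt θ) (h : ThK.Stb K 6 x) (b : Kˣ) (i : Fin 16) (t : K) : tAE x θ b * eQ x θ i t * (tAE x θ b)⁻¹ = eQ x θ i ((mo θ b (cA i) : K) * t) :=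
  ge_fac hθ x (ge_one hθ h b) eAQ_ok i t

theorem tBE_conj (hθ : Rt θ) (h : ThK.Stb K 6 x) (b : Kˣ) (i : Fin 16) (t : K) : tBE x θ b * eQ x θ i t * (tBE x θ b)⁻¹ = eQ x θ i ((mo θ b (cB i) : K) * t) :=
  ge_fac hθ x (ge_two hθ h b) eBQ_ok i t

/-- `hh_comm` -/
theorem tAE_tBE (h : ThK.Stb K 6 x) (b c : Kˣ) : tAE x θ b * tBE x θ c = tBE x θ c * tAE x θ b := by
  have q : ∀ (r s : Root 6) (u v : Kˣ), Commute (ThK.hh x r (u : K)) (ThK.hh x s (v : K)) := fun r s u v => ThK.hh_comm (Or.inl rfl) h r s u.ne_zero v.ne_zero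
  have q1 : ∀ (s : Root 6) (v : Kˣ), Commute (tAE x θ b) (ThK.hh x s (v : K)) := fun s v => Commute.mul_left (Commute.mul_left (q _ _ _ _) (q _ _ _ _)) (q _ _ _ _)
  exact Commute.mul_right (Commute.mul_right (q1 _ _) (q1 _ _)) (q1 _ _)
-- END ge

-- BEGIN gf
private theorem gf_sm (hθ : Rt θ) (h : ThK.Stb K 6 x) {a b c : Fin 36} (hs : sm a b = some c) : x (pr a) 1 * x (pr b) 1 = x (pr b) 1 * x (pr a) 1 * x (pr c) 1 := by
  have h1 := sm_ok a b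
  unfold smc at h1
  rw [hs] at h1
  have h2 : pv c = pv a + pv b := by
    simpa only [decide_eq_true_eq] using h1
  have h3 := x_sum hθ h (r := pr a) (s := pr b) (t := pr c) h2 1 1
  rw [mul_one] at h3
  exact h3

private theorem gf_no (h : ThK.Stb K 6 x) {a b : Fin 36} (hs : sm a b = none) : x (pr a) 1 * x (pr b) 1 = x (pr b) 1 * x (pr a) 1 := by
  have h1 := sm_ok a b
  unfold smc at h1
  rw [hs] at h1
  have h2 : 0 ≤ bf (pv a) (pv b) := by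
    simpa only [decide_eq_true_eq] using h1
  exact h.commute (r := pr a) (s := pr b) h2 1 1

/-- ROW gf. The collecting procedure is correct: `x (pr a) 1 * x (pr a) 1 = 1`; `sm_ok`: if `sm a b = some c` then `x (pr a) 1 * x (pr b) 1 = x (pr b) 1 * x (pr a) 1 * x (pr c) 1` (`x_sum`), otherwise they commute (`Stb.commute`); induction on the fuel -/
theorem ins_ok (hθ : Rt θ) (h : ThK.Stb K 6 x) (n : ℕ) (a : Fin 36) (w : List (Fin 36)) : ((ins n a w).map fun k => x (pr k) 1).prod = x (pr a) 1 * (w.map fun k => x (pr k) 1).prod := by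
  induction n generalizing a w with
  | zero =>
    unfold ins
    rw [List.map_cons, List.prod_cons]
  | succ n ih =>
    cases w with
    | nil =>
      unfold ins
      rw [List.map_cons, List.prod_cons]
    | cons b w =>
      unfold ins
      split_ifs with h1 h2
      · rw [List.map_cons, List.prod_cons]
      · subst h2
        rw [List.map_cons, List.prod_cons, ← mul_assoc, x_sq hθ h, one_mul]
      · cases hs : sm a b with
        | some c =>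
          show (((b :: ins n a (ins n c w)).map fun k => x (pr k) 1)).prod = _
          rw [List.map_cons, List.prod_cons, ih, ih, List.map_cons, List.prod_cons]
          have e : x (pr a) 1 * (x (pr b) 1 * (w.map fun k => x (pr k) 1).prod) = x (pr b) 1 * (x (pr a) 1 * (x (pr c) 1 * (w.map fun k => x (pr k) 1).prod)) := by
            rw [← mul_assoc, gf_sm hθ h hs]
            simp only [mul_assoc]
          exact e.symm
        | none =>
          show (((b :: ins n a w).map fun k => x (pr k) 1)).prod = _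
          rw [List.map_cons, List.prod_cons, ih, List.map_cons, List.prod_cons]
          have e : x (pr a) 1 * (x (pr b) 1 * (w.map fun k => x (pr k) 1).prod) = x (pr b) 1 * (x (pr a) 1 * (w.map fun k => x (pr k) 1).prod) := by
            rw [← mul_assoc, gf_no h hs, mul_assoc]
          exact e.symm

theorem nrm_ok (hθ : Rt θ) (h : ThK.Stb K 6 x) (w : List (Fin 36)) : ((nrm w).map fun k => x (pr k) 1).prod = (w.map fun k => x (pr k) 1).prod := by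
  unfold nrm
  induction w with
  | nil => rfl
  | cons a w ih =>
    rw [List.foldr_cons, ins_ok hθ h, ih, List.map_cons, List.prod_cons]

open Classical in
private noncomputable def gf_y (x : Root 6 → K → G) (v : Vec 6) : G := if hv : IsR v then x ⟨v, hv⟩ 1 else 1

private theorem gf_y_eq (x : Root 6 → K → G) (r : Root 6) : gf_y x r.1 = x r 1 := by
  unfold gf_y
  exact dif_pos r.2

/-- `wd_ok`: the word of `e i 1` -/
theorem wd_prod (i : Fin 16) (h1 : 1 ≤ i) (h8 : i ≤ 8) : ((wd i).map fun k => x (pr k) 1).prod = eQ x θ i 1 := by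
  have e1 : ((wd i).map fun k => x (pr k) 1) = ((wd i).map pv).map (gf_y x) := by
    rw [List.map_map]
    refine List.map_congr_left fun k _ => ?_
    exact (gf_y_eq x (pr k)).symm
  rw [e1, wd_ok i h1 h8]
  unfold eQ
  have kR : gf_y x (vR i) = x (rR i) 1 := gf_y_eq x (rR i)
  have kS : gf_y x (vS i) = x (rS i) 1 := gf_y_eq x (rS i)
  have kB : gf_y x (vB i) = x (rB i) 1 := gf_y_eq x (rB i)
  have kP : gf_y x (vP i) = x (rP i) 1 := gf_y_eq x (rP i)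
  have kQ : gf_y x (vQ i) = x (rQ i) 1 := gf_y_eq x (rQ i)
  split_ifs with h2
  · simp only [List.map_append, List.map_cons, List.map_nil, List.prod_append, List.prod_cons, List.prod_nil, kR, kS, kB, kP, kQ, map_one, mul_one, mul_assoc]
  · simp only [List.map_append, List.map_cons, List.map_nil, List.prod_append, List.prod_cons, List.prod_nil, kR, kS, kB, map_one, mul_one, mul_assoc]
-- END gf

-- BEGIN gg
private theorem gg_wd {n : ℕ} (h1 : 1 ≤ n) (h8 : n ≤ 8) : ((wd n).map fun k => x (pr k) 1).prod = eQ x θ (Fin.ofNat 16 n) 1 := by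
  have h2 : 1 ≤ Fin.ofNat 16 n ∧ Fin.ofNat 16 n ≤ 8 ∧ ((Fin.ofNat 16 n : Fin 16) : ℕ) = n := by
    interval_cases n <;> decide
  have h3 := wd_prod (x := x) (θ := θ) (Fin.ofNat 16 n) h2.1 h2.2.1
  rw [h2.2.2] at h3
  exact h3

private theorem gg_rev (hθ : Rt θ) (h : ThK.Stb K 6 x) (w : List (Fin 36)) : (w.reverse.map fun k => x (pr k) 1).prod = ((w.map fun k => x (pr k) 1).prod)⁻¹ := by
  induction w with
  | nil => simp
  | cons a w ih =>
    have e1 : x (pr a) 1 = (x (pr a) 1)⁻¹ := eq_inv_of_mul_eq_one_left (x_sq hθ h (pr a) 1)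
    rw [List.reverse_cons, List.map_append, List.prod_append, ih, List.map_singleton, List.prod_singleton, List.map_cons, List.prod_cons, mul_inv_rev, ← e1]

private theorem gg_wds {l : List ℕ} (hl : ∀ k ∈ l, 1 ≤ k ∧ k ≤ 8) : ((wds l).map fun k => x (pr k) 1).prod = (l.map fun k => eQ x θ (Fin.ofNat 16 k) 1).prod := by
  induction l with
  | nil => rfl
  | cons a l ih =>
    have e1 : wds (a :: l) = wd a ++ wds l := by
      unfold wds
      rw [List.map_cons, List.flatten_cons]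
    rw [e1, List.map_append, List.prod_append, ih (fun k hk => hl k (List.mem_cons_of_mem _ hk)), List.map_cons, List.prod_cons, gg_wd (hl a List.mem_cons_self).1 (hl a List.mem_cons_self).2]

private theorem gg_tab : ∀ q ∈ tabE, (1 ≤ q.1 ∧ q.1 ≤ 8) ∧ (1 ≤ q.2.1 ∧ q.2.1 ≤ 8) ∧ ∀ k ∈ q.2.2, 1 ≤ k ∧ k ≤ 8 := by
  decide

/-- ROW gg. `tabE_ok`, `nrm_ok`, `wd_prod`; the reversed word gives the inverse (`x_sq`) -/
theorem com1 (hθ : Rt θ) (h : ThK.Stb K 6 x) {i j : ℕ} {l : List ℕ} (hq : (i, j, l) ∈ tabE) :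
    eQ x θ (Fin.ofNat 16 i) 1 * eQ x θ (Fin.ofNat 16 j) 1 * (eQ x θ (Fin.ofNat 16 i) 1)⁻¹ * (eQ x θ (Fin.ofNat 16 j) 1)⁻¹ = (l.map fun k => eQ x θ (Fin.ofNat 16 k) 1).prod := by
  obtain ⟨⟨i1, i8⟩, ⟨j1, j8⟩, hl⟩ := gg_tab _ hq
  have h1 := tabE_ok _ hq
  have h2 := congrArg (fun w : List (Fin 36) => (w.map fun k => x (pr k) 1).prod) h1
  simp only [nrm_ok hθ h] at h2
  rw [gg_wds hl] at h2
  rw [← h2]
  show _ = ((cwd i j).map fun k => x (pr k) 1).prod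
  unfold cwd
  rw [List.map_append, List.map_append, List.map_append, List.prod_append, List.prod_append, List.prod_append, gg_rev hθ h, gg_rev hθ h, gg_wd i1 i8, gg_wd j1 j8]
-- END gg

end Pool.Agent.ThO2.Q
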