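import Pool.Agent.ThO3.EqA

/-! # The groups `²F_4(q)` as subgroups of `E_6(K)`: commutators, the two nodes -/

namespace Pool.Agent.ThO2.Q

open ThE ThG Pool.Agent.ThR

variable {K : Type*} [Field K] {θ : K →+* K} {G : Type*} [Group G] {x : Root 6 → K → G}

-- BEGIN gh
private theorem gh_pair : ∀ i k : Fin 16, (i = 1 ∧ 1 ≤ k ∧ k ≤ 7) ∨ (i = 2 ∧ (k = 2 ∨ k = 4 ∨ k = 6)) →
    ∃ q ∈ tabE, Fin.ofNat 16 q.1 = i ∧ Fin.ofNat 16 q.2.1 = i + k ∧ ∀ n ∈ q.2.2, 0 < Fin.ofNat 16 n - i ∧ Fin.ofNat 16 n - i < k := by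
  decide +kernel

/-- the product of two exponents (with even second entries) -/
private def qm (p q : ℤ × ℤ) : ℤ × ℤ := (p.1 * q.1 + p.2 * q.2 / 2, p.1 * q.2 + p.2 * q.1)

private theorem gh_ev : ∀ i : Fin 16, (cA i).2 % 2 = 0 ∧ (cB i).2 % 2 = 0 := by decide

private theorem gh_det : ∀ i k : Fin 16, (i = 1 ∧ 1 ≤ k ∧ k ≤ 7) ∨ (i = 2 ∧ (k = 2 ∨ k = 4 ∨ k = 6)) → ∃ m : Fin 5,
    2 * (qm (cA i) (cB (i + k)) - qm (cA (i + k)) (cB i)).1 ^ 2 - (qm (cA i) (cB (i + k)) - qm (cA (i + k)) (cB i)).2 ^ 2 = 2 ^ (m : ℕ) ∨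
    2 * (qm (cA i) (cB (i + k)) - qm (cA (i + k)) (cB i)).1 ^ 2 - (qm (cA i) (cB (i + k)) - qm (cA (i + k)) (cB i)).2 ^ 2 = -2 ^ (m : ℕ) := by
  decide +kernel

private theorem gh_mm (hθ : Rt θ) (z : Kˣ) {p q : ℤ × ℤ} (hp : p.2 % 2 = 0) : mo θ (mo θ z p) q = mo θ z (qm p q) := by
  obtain ⟨k, hk⟩ : ∃ k, p.2 = 2 * k := ⟨p.2 / 2, by omega⟩
  refine mo_mo hθ z p q ?_
  rw [hk, mul_assoc]
  have h1 : 2 * (k * q.2) / 2 = k * q.2 := Int.mul_ediv_cancel_left _ (by norm_num)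
  rw [h1]

private theorem gh_qc (p q : ℤ × ℤ) : qm p q = qm q p := by
  unfold qm
  rw [mul_comm p.1 q.1, mul_comm p.2 q.2, mul_comm p.1 q.2, mul_comm p.2 q.1, add_comm (q.2 * p.1)]

private theorem gh_sub (z : Kˣ) (p q : ℤ × ℤ) (h : mo θ z p = mo θ z q) : mo θ z (p - q) = 1 := by
  have h1 := mo_add (θ := θ) z (p - q) q
  rw [sub_add_cancel, h] at h1
  exact mul_eq_right.1 h1.symm

private theorem gh_one (p : ℤ × ℤ) : mo θ (1 : Kˣ) p = 1 := by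
  unfold mo
  rw [map_one, one_zpow, one_zpow, one_mul]

private theorem gh_cross {a b c d : Kˣ} (h1 : a * b = 1) (h2 : c * d = 1) (h : b = d) : a = c := by
  rw [h] at h1
  exact mul_right_cancel (h1.trans h2.symm)

/-- the two characters of a base pair have no common kernel -/
private theorem gh_ker (hθ : Rt θ) {i j : Fin 16} {m : ℕ}
    (hD : 2 * (qm (cA i) (cB j) - qm (cA j) (cB i)).1 ^ 2 - (qm (cA i) (cB j) - qm (cA j) (cB i)).2 ^ 2 = 2 ^ m ∨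
      2 * (qm (cA i) (cB j) - qm (cA j) (cB i)).1 ^ 2 - (qm (cA i) (cB j) - qm (cA j) (cB i)).2 ^ 2 = -2 ^ m)
    {b c : Kˣ} (h1 : mo θ b (cA i) * mo θ c (cB i) = 1) (h2 : mo θ b (cA j) * mo θ c (cB j) = 1) : b = 1 ∧ c = 1 := by
  have app : ∀ (q p p' : ℤ × ℤ), p.2 % 2 = 0 → p'.2 % 2 = 0 → mo θ b p * mo θ c p' = 1 → mo θ b (qm p q) * mo θ c (qm p' q) = 1 := by
    intro q p p' hp hp' h3
    rw [← gh_mm hθ b hp, ← gh_mm hθ c hp', ← mo_mul, h3, gh_one]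
  have a1 := app (cB j) _ _ (gh_ev i).1 (gh_ev i).2 h1
  have a2 := app (cB i) _ _ (gh_ev j).1 (gh_ev j).2 h2
  have a3 := app (cA j) _ _ (gh_ev i).1 (gh_ev i).2 h1
  have a4 := app (cA i) _ _ (gh_ev j).1 (gh_ev j).2 h2
  constructor
  · refine mo_inj hθ hD (gh_sub b _ _ ?_)
    exact gh_cross a1 a2 (by rw [gh_qc (cB i) (cB j)])
  · refine mo_inj hθ hD ?_
    have h3 : mo θ c (qm (cB i) (cA j)) = mo θ c (qm (cB j) (cA i)) := by
      refine gh_cross (b := mo θ b (qm (cA i) (cA j))) (d := mo θ b (qm (cA j) (cA i))) ?_ ?_ (by rw [gh_qc])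
      · rw [mul_comm]
        exact a3
      · rw [mul_comm]
        exact a4
    refine gh_sub c _ _ ?_
    rw [gh_qc (cA i) (cB j), gh_qc (cA j) (cB i)]
    exact h3.symm

private theorem gh_sur (hθ : Rt θ) [Finite K] {i j : Fin 16} {m : ℕ}
    (hD : 2 * (qm (cA i) (cB j) - qm (cA j) (cB i)).1 ^ 2 - (qm (cA i) (cB j) - qm (cA j) (cB i)).2 ^ 2 = 2 ^ m ∨
      2 * (qm (cA i) (cB j) - qm (cA j) (cB i)).1 ^ 2 - (qm (cA i) (cB j) - qm (cA j) (cB i)).2 ^ 2 = -2 ^ m)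
    (T U : Kˣ) : ∃ b c : Kˣ, mo θ b (cA i) * mo θ c (cB i) = T ∧ mo θ b (cA j) * mo θ c (cB j) = U := by
  let f : Kˣ × Kˣ → Kˣ × Kˣ := fun q => (mo θ q.1 (cA i) * mo θ q.2 (cB i), mo θ q.1 (cA j) * mo θ q.2 (cB j))
  have hf : Function.Injective f := by
    rintro ⟨b, c⟩ ⟨b', c'⟩ h
    have h1 : mo θ b (cA i) * mo θ c (cB i) = mo θ b' (cA i) * mo θ c' (cB i) := congrArg Prod.fst h
    have h2 : mo θ b (cA j) * mo θ c (cB j) = mo θ b' (cA j) * mo θ c' (cB j) := congrArg Prod.snd h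
    have red : ∀ p q : ℤ × ℤ, mo θ b p * mo θ c q = mo θ b' p * mo θ c' q → mo θ (b * b'⁻¹) p * mo θ (c * c'⁻¹) q = 1 := by
      intro p q h3
      have inv : ∀ (z : Kˣ) (r : ℤ × ℤ), mo θ z⁻¹ r = (mo θ z r)⁻¹ := by
        intro z r
        refine eq_inv_of_mul_eq_one_left ?_
        rw [← mo_mul, inv_mul_cancel, gh_one]
      rw [mo_mul, mo_mul, inv, inv, mul_mul_mul_comm, h3, ← mul_inv, mul_inv_cancel]
    obtain ⟨h3, h4⟩ := gh_ker hθ hD (red _ _ h1) (red _ _ h2)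
    exact Prod.ext (mul_inv_eq_one.1 h3) (mul_inv_eq_one.1 h4)
  obtain ⟨⟨b, c⟩, h⟩ := (Finite.injective_iff_surjective.1 hf) (T, U)
  exact ⟨b, c, congrArg Prod.fst h, congrArg Prod.snd h⟩

private theorem gh_zero (h : ThK.Stb K 6 x) (i : Fin 16) : eQ x θ i 0 = 1 := by
  unfold eQ
  rw [map_zero, mul_zero, h.zero, h.zero, h.zero, h.zero, h.zero, one_mul, one_mul, one_mul, ite_self]

private theorem gh_conj (hθ : Rt θ) (h : ThK.Stb K 6 x) (b c : Kˣ) (l : Fin 16) (s : K) :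
    (tAE x θ b * tBE x θ c) * eQ x θ l s * (tAE x θ b * tBE x θ c)⁻¹ = eQ x θ l ((mo θ b (cA l) : K) * ((mo θ c (cB l) : K) * s)) := by
  rw [← tAE_conj hθ h, ← tBE_conj hθ h]
  group

private theorem gh_bet (hθ : Rt θ) (h : ThK.Stb K 6 x) (b c : Kˣ) (i k : Fin 16) {g : G} (hg : g ∈ Bet (eQ x θ) i k) :
    (tAE x θ b * tBE x θ c) * g * (tAE x θ b * tBE x θ c)⁻¹ ∈ Bet (eQ x θ) i k := by
  unfold Bet at hg
  induction hg using Subgroup.closure_induction with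
  | mem g hg =>
    obtain ⟨l, s, h0, h1, rfl⟩ := hg
    rw [gh_conj hθ h]
    exact Subgroup.subset_closure ⟨l, _, h0, h1, rfl⟩
  | one =>
    rw [mul_one, mul_inv_cancel]
    exact one_mem _
  | mul a d _ _ ha hd =>
    have e : (tAE x θ b * tBE x θ c) * (a * d) * (tAE x θ b * tBE x θ c)⁻¹ = ((tAE x θ b * tBE x θ c) * a * (tAE x θ b * tBE x θ c)⁻¹) * ((tAE x θ b * tBE x θ c) * d * (tAE x θ b * tBE x θ c)⁻¹) := by group
    rw [e]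
    exact mul_mem ha hd
  | inv a _ ha =>
    have e : (tAE x θ b * tBE x θ c) * a⁻¹ * (tAE x θ b * tBE x θ c)⁻¹ = ((tAE x θ b * tBE x θ c) * a * (tAE x θ b * tBE x θ c)⁻¹)⁻¹ := by group
    rw [e]
    exact inv_mem ha

/-- ROW gh. The base pairs, all parameters.  `t = 0` or `u = 0`: `eQ x θ i 0 = 1`.  Otherwise `t`, `u` are the values of the two characters at some `(b, c)` (`gh_sur`); conjugate `com1` with `tAE x θ b * tBE x θ c`, which maps `Bet (eQ x θ) i k` to itself. -/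
theorem com_base (hθ : Rt θ) [Finite K] (h : ThK.Stb K 6 x) {i k : Fin 16} (hik : (i = 1 ∧ 1 ≤ k ∧ k ≤ 7) ∨ (i = 2 ∧ (k = 2 ∨ k = 4 ∨ k = 6))) (t u : K) :
    eQ x θ i t * eQ x θ (i + k) u * (eQ x θ i t)⁻¹ * (eQ x θ (i + k) u)⁻¹ ∈ Bet (eQ x θ) i k := by
  by_cases ht : t = 0
  · rw [ht, gh_zero h, inv_one, one_mul, mul_one, mul_inv_cancel]
    exact one_mem _
  by_cases hu : u = 0
  · rw [hu, gh_zero h, inv_one, mul_one, mul_one, mul_inv_cancel]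
    exact one_mem _
  -- the commutator with the parameters `1`, `1`
  have h1 : eQ x θ i 1 * eQ x θ (i + k) 1 * (eQ x θ i 1)⁻¹ * (eQ x θ (i + k) 1)⁻¹ ∈ Bet (eQ x θ) i k := by
    obtain ⟨⟨m, n, l⟩, hq, e1, e2, hl⟩ := gh_pair i k hik
    have hc := com1 hθ h hq
    simp only at e1 e2 hl
    rw [e1, e2] at hc
    rw [hc]
    refine Subgroup.list_prod_mem _ fun g hg => ?_
    obtain ⟨a, ha, rfl⟩ := List.mem_map.1 hg
    obtain ⟨h0, h2⟩ := hl a ha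
    refine Subgroup.subset_closure ⟨Fin.ofNat 16 a - i, 1, h0, h2, ?_⟩
    rw [add_sub_cancel]
  obtain ⟨m, hD⟩ := gh_det i k hik
  obtain ⟨b, c, key1, key2⟩ := gh_sur hθ hD (Units.mk0 t ht) (Units.mk0 u hu)
  have et : (mo θ b (cA i) : K) * ((mo θ c (cB i) : K) * 1) = t := by
    have e := congrArg (fun w : Kˣ => (w : K)) key1
    simp only [Units.val_mul] at e
    rw [mul_one, e]
    rfl
  have eu : (mo θ b (cA (i + k)) : K) * ((mo θ c (cB (i + k)) : K) * 1) = u := by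
    have e := congrArg (fun w : Kˣ => (w : K)) key2
    simp only [Units.val_mul] at e
    rw [mul_one, e]
    rfl
  have c1 := gh_conj hθ h b c i 1
  have c2 := gh_conj hθ h b c (i + k) 1
  rw [et] at c1
  rw [eu] at c2
  have h2 := gh_bet hθ h b c i k h1
  have e : (tAE x θ b * tBE x θ c) * (eQ x θ i 1 * eQ x θ (i + k) 1 * (eQ x θ i 1)⁻¹ * (eQ x θ (i + k) 1)⁻¹) * (tAE x θ b * tBE x θ c)⁻¹ =
      ((tAE x θ b * tBE x θ c) * eQ x θ i 1 * (tAE x θ b * tBE x θ c)⁻¹) * ((tAE x θ b * tBE x θ c) * eQ x θ (i + k) 1 * (tAE x θ b * tBE x θ c)⁻¹) *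
        ((tAE x θ b * tBE x θ c) * eQ x θ i 1 * (tAE x θ b * tBE x θ c)⁻¹)⁻¹ * ((tAE x θ b * tBE x θ c) * eQ x θ (i + k) 1 * (tAE x θ b * tBE x θ c)⁻¹)⁻¹ := by group
  rw [e, c1, c2] at h2
  exact h2
-- END gh

-- BEGIN gi
private theorem gi_arith : ∀ k l : Fin 16, 0 < l → l < k → 0 < k - l ∧ k - l < k := by
  decide

private theorem gi_step {e : Fin 16 → K → G} {w : G} {m : Fin 16} (hw : ∀ i t, w * e i t * w⁻¹ = e (m - i) t) {i k : Fin 16}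
    (hQ : ∀ t u, e i t * e (i + k) u * (e i t)⁻¹ * (e (i + k) u)⁻¹ ∈ Bet e i k) (t u : K) :
    e (m - i - k) t * e (m - i - k + k) u * (e (m - i - k) t)⁻¹ * (e (m - i - k + k) u)⁻¹ ∈ Bet e (m - i - k) k := by
  have hB : ∀ g ∈ Bet e i k, w * g * w⁻¹ ∈ Bet e (m - i - k) k := by
    intro g hg
    unfold Bet at hg
    induction hg using Subgroup.closure_induction with
    | mem y hy =>
      obtain ⟨l, s, h0, h1, rfl⟩ := hy
      rw [hw]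
      obtain ⟨h2, h3⟩ := gi_arith k l h0 h1
      refine Subgroup.subset_closure ⟨k - l, s, h2, h3, ?_⟩
      have e1 : m - (i + l) = m - i - k + (k - l) := by abel
      rw [e1]
    | one =>
      rw [mul_one, mul_inv_cancel]
      exact Subgroup.one_mem _
    | mul a b _ _ ha hb =>
      have e1 : w * (a * b) * w⁻¹ = w * a * w⁻¹ * (w * b * w⁻¹) := by group
      rw [e1]
      exact Subgroup.mul_mem _ ha hb
    | inv a _ ha =>
      have e1 : w * a⁻¹ * w⁻¹ = (w * a * w⁻¹)⁻¹ := by group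
      rw [e1]
      exact Subgroup.inv_mem _ ha
  have h1 := Subgroup.inv_mem _ (hB _ (hQ u t))
  have e1 : (w * (e i u * e (i + k) t * (e i u)⁻¹ * (e (i + k) t)⁻¹) * w⁻¹)⁻¹ =
      (w * e (i + k) t * w⁻¹) * (w * e i u * w⁻¹) * (w * e (i + k) t * w⁻¹)⁻¹ * (w * e i u * w⁻¹)⁻¹ := by group
  rw [e1, hw, hw] at h1
  have e2 : m - (i + k) = m - i - k := by abel
  rw [e2] at h1
  rw [sub_add_cancel (m - i) k]
  exact h1

private theorem gi_it {P : Fin 16 → Prop} (hP : ∀ i, P i → P (i + 2)) {i : Fin 16} (h : P i) (n : ℕ) : P (i + n • 2) := by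
  induction n with
  | zero => rw [zero_smul, add_zero]; exact h
  | succ n ih =>
    rw [succ_nsmul, ← add_assoc]
    exact hP _ ih

private theorem gi_two : ∀ i k : Fin 16, 10 - (8 - i - k) - k = i + 2 := by
  decide

private theorem gi_cov : ∀ i k : Fin 16, 1 ≤ k → k ≤ 7 → (∃ n : Fin 8, i = 1 + (n : ℕ) • 2) ∨ ((k = 2 ∨ k = 4 ∨ k = 6) ∧ ∃ n : Fin 8, i = 2 + (n : ℕ) • 2) ∨ ∃ n : Fin 8, i = (8 - 1 - k) + (n : ℕ) • 2 := by
  decide +kernel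

/-- ROW gi. `Q i k` : the statement for all `t, u`.  Conjugation with `nnA x` (`wAE`) gives `Q i k → Q (10 - i - k) k` (the commutator of `eQ (10 - i) t`, `eQ (10 - i - k) u`, invert and swap; `Bet (eQ x θ) i k` goes to `Bet (eQ x θ) (10 - i - k) k`), with `nnB x`: `Q i k → Q (8 - i - k) k`; so `Q i k → Q (i + 2) k`.
`k` odd: all `i` from `i = 1`; `k` even: from `i = 1` and `i = 2`. -/
theorem comE (hθ : Rt θ) [Finite K] (h : ThK.Stb K 6 x) (i k : Fin 16) (h1 : 1 ≤ k) (h7 : k ≤ 7) (t u : K) :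
    eQ x θ i t * eQ x θ (i + k) u * (eQ x θ i t)⁻¹ * (eQ x θ (i + k) u)⁻¹ ∈ Bet (eQ x θ) i k := by
  have hB : ∀ j : Fin 16, (∀ t u, eQ x θ j t * eQ x θ (j + k) u * (eQ x θ j t)⁻¹ * (eQ x θ (j + k) u)⁻¹ ∈ Bet (eQ x θ) j k) →
      ∀ t u, eQ x θ (8 - j - k) t * eQ x θ (8 - j - k + k) u * (eQ x θ (8 - j - k) t)⁻¹ * (eQ x θ (8 - j - k + k) u)⁻¹ ∈ Bet (eQ x θ) (8 - j - k) k :=
    fun j hj => gi_step (wBE hθ h) hj
  have hP : ∀ j : Fin 16, (∀ t u, eQ x θ j t * eQ x θ (j + k) u * (eQ x θ j t)⁻¹ * (eQ x θ (j + k) u)⁻¹ ∈ Bet (eQ x θ) j k) →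
      ∀ t u, eQ x θ (j + 2) t * eQ x θ (j + 2 + k) u * (eQ x θ (j + 2) t)⁻¹ * (eQ x θ (j + 2 + k) u)⁻¹ ∈ Bet (eQ x θ) (j + 2) k := by
    intro j hj
    have h3 := gi_step (wAE hθ h) (hB j hj)
    rw [gi_two] at h3
    exact h3
  have b1 : ∀ t u, eQ x θ 1 t * eQ x θ (1 + k) u * (eQ x θ 1 t)⁻¹ * (eQ x θ (1 + k) u)⁻¹ ∈ Bet (eQ x θ) 1 k := fun t u => com_base hθ h (Or.inl ⟨rfl, h1, h7⟩) t u
  rcases gi_cov i k h1 h7 with ⟨n, rfl⟩ | ⟨hk, n, rfl⟩ | ⟨n, rfl⟩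
  · exact gi_it (P := fun j => ∀ t u, eQ x θ j t * eQ x θ (j + k) u * (eQ x θ j t)⁻¹ * (eQ x θ (j + k) u)⁻¹ ∈ Bet (eQ x θ) j k) hP b1 n t u
  · exact gi_it (P := fun j => ∀ t u, eQ x θ j t * eQ x θ (j + k) u * (eQ x θ j t)⁻¹ * (eQ x θ (j + k) u)⁻¹ ∈ Bet (eQ x θ) j k) hP
      (fun t u => com_base hθ h (Or.inr ⟨rfl, hk⟩) t u) n t u
  · exact gi_it (P := fun j => ∀ t u, eQ x θ j t * eQ x θ (j + k) u * (eQ x θ j t)⁻¹ * (eQ x θ (j + k) u)⁻¹ ∈ Bet (eQ x θ) j k) hP (hB 1 b1) n t u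
-- END gi

/-- the data of `²F_4(q)` inside a larger group -/
structure RayQ0 (θ : K →+* K) (e : Fin 16 → K → G) (fA : SL2 K →* G) (fB : Sq θ →* G) : Prop where
  wA : ∀ i t, fA (nA K) * e i t * (fA (nA K))⁻¹ = e (10 - i) t
  wB : ∀ i t, fB (JY θ) * e i t * (fB (JY θ))⁻¹ = e (8 - i) t
  e1 : ∀ t, fA (up t) = e 1 t
  e8 : ∀ t, fB (pY θ t 0) = e 8 t
  tA : ∀ (b : Kˣ) i t, fA (dg b) * e i t * (fA (dg b))⁻¹ = e i ((mo θ b (cA i) : K) * t)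
  tB : ∀ (b : Kˣ) i t, fB (tY θ b) * e i t * (fB (tY θ b))⁻¹ = e i ((mo θ b (cB i) : K) * t)
  cm : ∀ b c : Kˣ, fA (dg b) * fB (tY θ c) = fB (tY θ c) * fA (dg b)
  com : ∀ i k : Fin 16, 1 ≤ k → k ≤ 7 → ∀ t u, e i t * e (i + k) u * (e i t)⁻¹ * (e (i + k) u)⁻¹ ∈ Bet e i k

variable {e : Fin 16 → K → G} {fA : SL2 K →* G} {fB : Sq θ →* G}

-- BEGIN ha
private theorem ha_nA (hθ : Rt θ) (l : Kˣ) : nA K = ThG.dg l⁻¹ * (up (l : K) * lo ((l⁻¹ : Kˣ) : K) * up (l : K)) := by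
  have h2 := hθ.two
  have hl : (l : K) * ((l⁻¹ : Kˣ) : K) = 1 := by rw [← Units.val_mul, mul_inv_cancel, Units.val_one]
  apply Subtype.ext
  unfold nA
  simp only [Matrix.SpecialLinearGroup.coe_mul]
  show !![(1 : K), 1; 0, 1] * !![1, 0; -1, 1] * !![1, 1; 0, 1] = !![((l⁻¹ : Kˣ) : K), 0; 0, (((l⁻¹)⁻¹ : Kˣ) : K)] * (!![1, (l : K); 0, 1] * !![1, 0; ((l⁻¹ : Kˣ) : K), 1] * !![1, (l : K); 0, 1])
  rw [inv_inv]
  generalize ((l⁻¹ : Kˣ) : K) = m at hl ⊢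
  generalize (l : K) = l at hl ⊢
  ext i j
  fin_cases i <;> fin_cases j <;> simp only [Matrix.mul_apply, Fin.sum_univ_two, Matrix.of_apply, Matrix.cons_val', Matrix.cons_val_zero, Matrix.cons_val_one, Matrix.cons_val_fin_one, Fin.zero_eta, Fin.mk_one, Fin.isValue]
  · linear_combination (-m) * hl - m * h2
  · linear_combination (-(m * l) - 3) * hl + (-1 : K) * h2
  · linear_combination (-1 : K) * hl - h2
  · linear_combination (-l) * hl - l * h2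

private theorem ha_lo (hθ : Rt θ) (t : K) : nA K * up t * (nA K)⁻¹ = lo t := by
  have h2 := hθ.two
  rw [mul_inv_eq_iff_eq_mul]
  apply Subtype.ext
  unfold nA
  simp only [Matrix.SpecialLinearGroup.coe_mul]
  show !![(1 : K), 1; 0, 1] * !![1, 0; -1, 1] * !![1, 1; 0, 1] * !![1, t; 0, 1] = !![1, 0; t, 1] * (!![(1 : K), 1; 0, 1] * !![1, 0; -1, 1] * !![1, 1; 0, 1])
  ext i j
  fin_cases i <;> fin_cases j <;> simp only [Matrix.mul_apply, Fin.sum_univ_two, Matrix.of_apply, Matrix.cons_val', Matrix.cons_val_zero, Matrix.cons_val_one, Matrix.cons_val_fin_one, Fin.zero_eta, Fin.mk_one, Fin.isValue]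
  · ring
  · ring
  · ring
  · linear_combination (-t) * h2

private theorem ha_mo (b : Kˣ) : mo θ b (-2, -2) = (b ^ 2 * tu θ b ^ 2)⁻¹ ∧ mo θ b (2, 2) = b ^ 2 * tu θ b ^ 2 := by
  unfold mo
  constructor
  · simp only
    rw [zpow_neg, zpow_neg, ← mul_inv]
    rfl
  · rfl

/-- ROW ha. `h = fB (tY θ b)` acts on `e 1 t = fA (up t)` by `l = (b² θ(b)²)⁻¹`, on `e 9 t = fA (lo t)` (`nA * up t * nA⁻¹ = lo t`, `wA`) by `l⁻¹`; `nA = up 1 * lo 1 * up 1`, so `h * fA nA * h⁻¹ = fA (up l * lo l⁻¹ * up l)`. -/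
theorem RayQ0.nAt (hθ : Rt θ) (h : RayQ0 θ e fA fB) (b : Kˣ) : fA (nA K) * fB (tY θ b) * (fA (nA K))⁻¹ = fA (dg (b ^ 2 * tu θ b ^ 2)) * fB (tY θ b) := by
  have hn : (-1 : K) = 1 := by linear_combination (-1 : K) * hθ.two
  have k9 : ∀ t, fA (lo t) = e 9 t := by
    intro t
    have h1 := h.wA 1 t
    rw [← h.e1, ← map_mul, ← map_inv, ← map_mul, ha_lo hθ] at h1
    exact h1
  obtain ⟨m1, m9⟩ := ha_mo (θ := θ) b
  set l : Kˣ := (b ^ 2 * tu θ b ^ 2)⁻¹ with hl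
  have a1 : ∀ t, fB (tY θ b) * fA (up t) * (fB (tY θ b))⁻¹ = fA (up ((l : K) * t)) := by
    intro t
    rw [h.e1, h.tB, h.e1]
    have e0 : cB 1 = (-2, -2) := rfl
    rw [e0, m1]
  have a9 : ∀ t, fB (tY θ b) * fA (lo t) * (fB (tY θ b))⁻¹ = fA (lo (((l⁻¹ : Kˣ) : K) * t)) := by
    intro t
    rw [k9, h.tB, k9]
    have e0 : cB 9 = (2, 2) := rfl
    rw [e0, m9, hl, inv_inv]
  have e1 : fB (tY θ b) * fA (nA K) * (fB (tY θ b))⁻¹ = fA (up (l : K) * lo ((l⁻¹ : Kˣ) : K) * up (l : K)) := by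
    have e2 : fB (tY θ b) * fA (nA K) * (fB (tY θ b))⁻¹ = (fB (tY θ b) * fA (up 1) * (fB (tY θ b))⁻¹) * (fB (tY θ b) * fA (lo (-1)) * (fB (tY θ b))⁻¹) * (fB (tY θ b) * fA (up 1) * (fB (tY θ b))⁻¹) := by
      unfold nA
      rw [map_mul, map_mul]
      group
    rw [e2, a1, a9, mul_one, hn, mul_one, map_mul, map_mul]
  have e3 : fA (nA K) = fA (ThG.dg l⁻¹) * (fB (tY θ b) * fA (nA K) * (fB (tY θ b))⁻¹) := by
    rw [e1, ← map_mul, ← ha_nA hθ l]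
  have e4 : b ^ 2 * tu θ b ^ 2 = l⁻¹ := by rw [hl, inv_inv]
  rw [mul_inv_eq_iff_eq_mul, e4]
  calc fA (nA K) * fB (tY θ b) = fA (ThG.dg l⁻¹) * (fB (tY θ b) * fA (nA K) * (fB (tY θ b))⁻¹) * fB (tY θ b) := by rw [← e3]
    _ = _ := by group

private theorem ha_pd (hθ : Rt θ) (t d : K) : pY θ t d = pY θ t 0 * (pY θ (zt θ d) 0 * pY θ (zt θ d) 0) := by
  apply Subtype.ext
  show pQ θ t d = pQ θ t 0 * (pQ θ (zt θ d) 0 * pQ θ (zt θ d) 0)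
  rw [pQ_mul hθ, pQ_mul hθ, hθ.add, zt_sq hθ]
  congr 1
  · ring
  · ring

private theorem ha_inv (b : Kˣ) : (tY θ b)⁻¹ = tY θ b⁻¹ := by
  rw [inv_eq_iff_mul_eq_one]
  apply Subtype.ext
  show tQ θ b * tQ θ b⁻¹ = 1
  rw [← tQ_mul, mul_inv_cancel, tQ_one]

private theorem ha_conj (hθ : Rt θ) (h : RayQ0 θ e fA fB) (w : Kˣ) (s : Sq θ) : fA (ThG.dg (w ^ 2)⁻¹) * fB s * (fA (ThG.dg (w ^ 2)⁻¹))⁻¹ = fB (tY θ w * s * (tY θ w)⁻¹) := by
  have hJ : JY θ * JY θ = 1 := (r1Y hθ).nn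
  have hJi : (JY θ)⁻¹ = JY θ := inv_eq_of_mul_eq_one_right hJ
  generalize hc : (w ^ 2)⁻¹ = c
  have hm : ∀ s s' : Sq θ, fA (ThG.dg c) * fB s * (fA (ThG.dg c))⁻¹ = fB (tY θ w * s * (tY θ w)⁻¹) → fA (ThG.dg c) * fB s' * (fA (ThG.dg c))⁻¹ = fB (tY θ w * s' * (tY θ w)⁻¹) →
      fA (ThG.dg c) * fB (s * s') * (fA (ThG.dg c))⁻¹ = fB (tY θ w * (s * s') * (tY θ w)⁻¹) := by
    intro s s' h1 h2
    have e1 : fA (ThG.dg c) * fB (s * s') * (fA (ThG.dg c))⁻¹ = (fA (ThG.dg c) * fB s * (fA (ThG.dg c))⁻¹) * (fA (ThG.dg c) * fB s' * (fA (ThG.dg c))⁻¹) := by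
      rw [map_mul]
      group
    rw [e1, h1, h2, ← map_mul]
    congr 1
    group
  have hp : ∀ t, fA (ThG.dg c) * fB (pY θ t 0) * (fA (ThG.dg c))⁻¹ = fB (tY θ w * pY θ t 0 * (tY θ w)⁻¹) := by
    intro t
    have e1 : tY θ w * pY θ t 0 * (tY θ w)⁻¹ = pY θ ((w : K) ^ 2 * t) 0 := by
      apply Subtype.ext
      show tQ θ w * pQ θ t 0 * (tQ θ w)⁻¹ = pQ θ ((w : K) ^ 2 * t) 0
      rw [tQ_pQ hθ, mul_zero]
    have e2 : mo θ c (cA 8) = w ^ 2 := by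
      have e3 : cA 8 = (-1, 0) := rfl
      rw [e3, ← hc]
      simp [mo]
    rw [e1, h.e8, h.e8, h.tA, e2]
    rfl
  have hq : ∀ t, fA (ThG.dg c) * fB (JY θ * pY θ t 0 * JY θ) * (fA (ThG.dg c))⁻¹ = fB (tY θ w * (JY θ * pY θ t 0 * JY θ) * (tY θ w)⁻¹) := by
    intro t
    have e0 : ∀ t, fB (JY θ * pY θ t 0 * JY θ) = e 0 t := by
      intro t
      have h1 := h.wB 8 t
      rw [← h.e8, ← map_inv, hJi, ← map_mul, ← map_mul] at h1
      exact h1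
    have e2 : JY θ * tY θ w * JY θ = (tY θ w)⁻¹ := (r1Y hθ).nt _ (mem_TY.2 ⟨_, rfl⟩)
    have e3 : tY θ w * (JY θ * pY θ t 0 * JY θ) * (tY θ w)⁻¹ = JY θ * ((tY θ w)⁻¹ * pY θ t 0 * ((tY θ w)⁻¹)⁻¹) * JY θ := by
      have e4 : tY θ w * JY θ = JY θ * (tY θ w)⁻¹ := by
        rw [← e2]
        calc tY θ w * JY θ = (JY θ * JY θ) * tY θ w * JY θ := by rw [hJ, one_mul]
          _ = _ := by simp only [mul_assoc]
      have e5 : JY θ * (tY θ w)⁻¹ = ((tY θ w)⁻¹)⁻¹ * JY θ := by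
        rw [inv_inv, e4]
      calc tY θ w * (JY θ * pY θ t 0 * JY θ) * (tY θ w)⁻¹ = (tY θ w * JY θ) * pY θ t 0 * (JY θ * (tY θ w)⁻¹) := by simp only [mul_assoc]
        _ = (JY θ * (tY θ w)⁻¹) * pY θ t 0 * (((tY θ w)⁻¹)⁻¹ * JY θ) := congrArg₂ (fun u v => u * pY θ t 0 * v) e4 e5
        _ = _ := by simp only [mul_assoc]
    have e7 : (tY θ w)⁻¹ * pY θ t 0 * ((tY θ w)⁻¹)⁻¹ = pY θ ((c : K) * t) 0 := by
      rw [ha_inv]
      apply Subtype.ext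
      show tQ θ w⁻¹ * pQ θ t 0 * (tQ θ w⁻¹)⁻¹ = pQ θ ((c : K) * t) 0
      rw [tQ_pQ hθ, mul_zero, ← hc, ← inv_pow, Units.val_pow_eq_pow_val]
    have e8 : mo θ c (cA 0) = c := by
      have e9 : cA 0 = (1, 0) := rfl
      rw [e9]
      simp [mo]
    rw [e3, e7, e0, e0, h.tA, e8]
  have hJm : ∀ a b : Sq θ, JY θ * (a * b) * JY θ = (JY θ * a * JY θ) * (JY θ * b * JY θ) := by
    intro a b
    calc JY θ * (a * b) * JY θ = JY θ * a * (1 * b) * JY θ := by rw [one_mul]; simp only [mul_assoc]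
      _ = _ := by
        rw [← hJ]
        simp only [mul_assoc]
  have hs : s ∈ Subgroup.closure ((PY θ : Set (Sq θ)) ∪ {g | ∃ p ∈ PY θ, g = JY θ * p * JY θ}) := by
    rw [R1.gen2 (r1Y hθ)]
    exact Subgroup.mem_top s
  induction hs using Subgroup.closure_induction with
  | mem g hg =>
    rcases hg with hg | ⟨p, hg, rfl⟩
    · obtain ⟨t, d, rfl⟩ := (mem_PY hθ).1 hg
      rw [ha_pd hθ]
      exact hm _ _ (hp t) (hm _ _ (hp _) (hp _))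
    · obtain ⟨t, d, rfl⟩ := (mem_PY hθ).1 hg
      rw [ha_pd hθ, hJm, hJm]
      exact hm _ _ (hq t) (hm _ _ (hq _) (hq _))
  | one => rw [map_one, mul_one, mul_one, mul_inv_cancel, mul_inv_cancel, map_one]
  | mul a b _ _ iha ihb => exact hm _ _ iha ihb
  | inv a _ iha =>
    have e1 : fA (ThG.dg c) * fB a⁻¹ * (fA (ThG.dg c))⁻¹ = (fA (ThG.dg c) * fB a * (fA (ThG.dg c))⁻¹)⁻¹ := by
      rw [map_inv]
      group
    rw [e1, iha, ← map_inv]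
    congr 1
    group

/-- `(fA (dg b))⁻¹` acts on the `fB s` as `fB (tY θ w)`, `w = θ(θ(b))`, `w ^ 2 = b` (`ha_conj`) -/
theorem RayQ0.nBt (hθ : Rt θ) (h : RayQ0 θ e fA fB) (b : Kˣ) : fB (JY θ) * fA (dg b) * (fB (JY θ))⁻¹ = fA (dg b) * fB (tY θ b) := by
  have hJ : JY θ * JY θ = 1 := (r1Y hθ).nn
  have h1 := ha_conj hθ h (tu θ (tu θ b)) (JY θ)
  have e2 : fA (ThG.dg (tu θ (tu θ b) ^ 2)⁻¹) = (fA (ThG.dg b))⁻¹ := by
    rw [hθ.unit, ← map_inv]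
    congr 1
    rw [eq_inv_iff_mul_eq_one, ← dg_mul, inv_mul_cancel, dg_one]
  have hu : tu θ (tu θ b) ^ 2 = b := hθ.unit b
  generalize tu θ (tu θ b) = w at h1 e2 hu
  have e3 : JY θ * tY θ w * JY θ = (tY θ w)⁻¹ := (r1Y hθ).nt _ (mem_TY.2 ⟨_, rfl⟩)
  have e4 : tY θ w * JY θ * (tY θ w)⁻¹ = tY θ b * JY θ := by
    have e5 : tY θ b = tY θ w * tY θ w := by
      apply Subtype.ext
      show tQ θ b = tQ θ w * tQ θ w
      rw [← hu, pow_two, tQ_mul]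
    have e6 : JY θ * (tY θ w)⁻¹ = tY θ w * JY θ := by
      rw [← e3]
      calc JY θ * (JY θ * tY θ w * JY θ) = (JY θ * JY θ) * tY θ w * JY θ := by simp only [mul_assoc]
        _ = _ := by rw [hJ, one_mul]
    rw [mul_assoc, e6, e5, mul_assoc]
  rw [e2, inv_inv, e4, map_mul] at h1
  rw [mul_inv_eq_iff_eq_mul]
  calc fB (JY θ) * fA (ThG.dg b) = fA (ThG.dg b) * ((fA (ThG.dg b))⁻¹ * fB (JY θ) * fA (ThG.dg b)) := by group
    _ = _ := by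
      rw [h1]
      simp only [mul_assoc]
-- END ha

end Pool.Agent.ThO2.Q
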