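import Pool.Agent.ThO3.RqA

/-! # The groups `²F_4(q)`: the theorem for `q > 8` -/

namespace Pool.Agent.ThO2

open ThG

variable {K : Type*} [Field K] {θ : K →+* K} {G : Type*} [Group G]

variable {e : Fin 16 → K → G} {fA : SL2 K →* G} {fB : Sq θ →* G}

-- BEGIN fi
/-- ROW fi. `gen` for the two nodes: `e (i + 2) t` is the conjugate of `e i t` by `fA (nA K) * fB (JY θ)` (`10 - (8 - i) = i + 2`), and every ray is `1 + 2 k` or `8 + 2 k` -/
theorem RayQ.gen2 (h : RayQ θ e fA fB) : Subgroup.closure {g : G | (∃ s, g = fB s) ∨ ∃ s, g = fA s} = ⊤ := by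
  set W := Subgroup.closure {g : G | (∃ s, g = fB s) ∨ ∃ s, g = fA s} with hW
  have mA : ∀ s, fA s ∈ W := fun s => Subgroup.subset_closure (Or.inr ⟨s, rfl⟩)
  have mB : ∀ s, fB s ∈ W := fun s => Subgroup.subset_closure (Or.inl ⟨s, rfl⟩)
  have st : ∀ i j : Fin 16, i + 2 = j → (∀ t, e i t ∈ W) → ∀ t, e j t ∈ W := by
    intro i j hij hi t
    rw [← hij, ← h.rot i t]
    exact mul_mem (mul_mem (mul_mem (mA _) (mB _)) (hi t)) (inv_mem (mul_mem (mA _) (mB _)))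
  have h1 : ∀ t, e 1 t ∈ W := fun t => by rw [← h.e1 t]; exact mA _
  have h3 := st 1 3 (by decide) h1
  have h5 := st 3 5 (by decide) h3
  have h7 := st 5 7 (by decide) h5
  have h9 := st 7 9 (by decide) h7
  have h11 := st 9 11 (by decide) h9
  have h13 := st 11 13 (by decide) h11
  have h15 := st 13 15 (by decide) h13
  have h8 : ∀ t, e 8 t ∈ W := fun t => by rw [← h.e8 t]; exact mB _
  have h10 := st 8 10 (by decide) h8
  have h12 := st 10 12 (by decide) h10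
  have h14 := st 12 14 (by decide) h12
  have h0 := st 14 0 (by decide) h14
  have h2 := st 0 2 (by decide) h0
  have h4 := st 2 4 (by decide) h2
  have h6 := st 4 6 (by decide) h4
  have all : ∀ (i : Fin 16) (t : K), e i t ∈ W := by
    intro i
    fin_cases i
    · exact h0
    · exact h1
    · exact h2
    · exact h3
    · exact h4
    · exact h5
    · exact h6
    · exact h7
    · exact h8
    · exact h9
    · exact h10
    · exact h11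
    · exact h12
    · exact h13
    · exact h14
    · exact h15
  rw [eq_top_iff, ← h.gen, Subgroup.closure_le]
  rintro g ⟨i, t, rfl⟩
  exact all i t

private theorem fi_tZ_mul (b c : Kˣ) : tY θ (b * c) = tY θ b * tY θ c := Subtype.ext (tQ_mul b c)

private theorem fi_tZ_one : tY θ (1 : Kˣ) = 1 := Subtype.ext tQ_one

private theorem fi_tZ_ne {b : Kˣ} (hb : b ≠ 1) : tY θ b ≠ 1 := by
  intro h
  apply hb
  have h1 : tQ θ b = 1 := congrArg Subtype.val h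
  have h2 := congrArg (fun M : Matrix.SpecialLinearGroup (Fin 4) K => M.1 1 1) h1
  apply Units.ext
  simpa [tQ] using h2

private theorem fi_dg_ne {b : Kˣ} (hb : b ≠ 1) : dg b ≠ (1 : SL2 K) := by
  intro h
  apply hb
  have h2 := congrArg (fun M : SL2 K => M.1 0 0) h
  apply Units.ext
  simpa [dg] using h2

private theorem fi_eB (h : RayQ θ e fA fB) (s a b : Kˣ) : fB (tY θ s) * (fA (dg a) * fB (tY θ b)) = fA (dg a) * fB (tY θ (s * b)) := by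
  rw [← mul_assoc, ← h.cm, mul_assoc, ← map_mul, ← fi_tZ_mul]

private theorem fi_eA (s a : Kˣ) (X : G) : fA (dg s) * (fA (dg a) * X) = fA (dg (s * a)) * X := by
  rw [← mul_assoc, ← map_mul, ← dg_mul]

private theorem fi_ex2 (hθ : Rt θ) [Finite K] (h2 : 2 < Nat.card K) (a : Kˣ) : ∃ c : Kˣ, c ≠ 1 ∧ c * tu θ c ≠ a := by
  have hp : Even (Nat.card K) := by
    have h1 : addOrderOf (1 : K) ∣ Nat.card K := addOrderOf_dvd_natCard 1
    have h3 : addOrderOf (1 : K) = 2 := by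
      refine addOrderOf_eq_prime ?_ one_ne_zero
      rw [two_nsmul, hθ.add]
    rw [h3] at h1
    exact even_iff_two_dvd.2 h1
  have h3 : 2 < Nat.card Kˣ := by
    have h4 := Nat.card_units K
    obtain ⟨m, hm⟩ := hp
    omega
  have : Finite Kˣ := inferInstance
  have : Fintype Kˣ := Fintype.ofFinite _
  rw [Nat.card_eq_fintype_card] at h3
  obtain ⟨x, y, z, hxy, hxz, hyz⟩ := Fintype.two_lt_card_iff.1 h3
  have inj : ∀ c d : Kˣ, c * tu θ c = d * tu θ d → c = d := by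
    intro c d h4
    refine mo_ne hθ (p := (1, 1)) (k := 0) (Or.inl (by norm_num)) ?_
    simp only [mo, zpow_one]
    exact h4
  by_contra hc
  push Not at hc
  have key : ∀ c d : Kˣ, c ≠ 1 → d ≠ 1 → c = d := fun c d h4 h5 => inj c d ((hc c h4).trans (hc d h5).symm)
  by_cases h4 : x = 1
  · subst h4
    exact hyz (key y z (Ne.symm hxy) (Ne.symm hxz))
  · by_cases h5 : y = 1
    · subst h5
      exact hxz (key x z h4 (Ne.symm hyz))
    · exact hxy (key x y h4 h5)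

/-- `reach` with `ndB`, `ndA`, `gen2`, `Let.start`.  In coordinates `(a, b)` for `fA (dg a) * fB (tY θ b)`: `ZB = {(a², a)}`, `ZA = {(b θ(b), b)}` -/
theorem RayQ.reach (hθ : Rt θ) [Finite K] (h2 : 2 < Nat.card K) (h : RayQ θ e fA fB) {g : G} (hg : g ≠ 1) : ∃ c : G, NS fB (Iv e 1 6) (Iv e 9 6) (c * g * c⁻¹) 1 := by
  refine Pool.Agent.ThO2.reach (h.ndB hθ) (h.ndA hθ) h.gen2 ?_ ?_ ?_ ?_ hg
  · intro v hv a ha u hu h1
    obtain ⟨c, i, hc⟩ := Let.start (h.lt hθ) hv ha hu h1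
    cases i
    · exact ⟨c, Or.inl hc⟩
    · exact ⟨c, Or.inr hc⟩
  · intro x hx hx1
    obtain ⟨a, b, rfl⟩ := h.mem_HH.1 hx
    by_cases hab : b = tu θ (tu θ a)
    · right
      refine ⟨dg (a * (b * tu θ b)⁻¹), mem_TA.2 ⟨_, rfl⟩, fA (dg (b * tu θ b)) * fB (tY θ b), h.mem_ZA.2 ⟨b, rfl⟩, ?_, fi_dg_ne fun h2 => hx1 ?_⟩
      · rw [fi_eA, inv_mul_cancel_right]
      · have h3 : a = b * tu θ b := mul_inv_eq_one.1 h2
        have h4 : b ^ 2 = a := by rw [hab, hθ.unit]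
        have h5 : b = tu θ b := by
          have h6 : b * b = b * tu θ b := by rw [← h3, ← h4, sq]
          exact mul_left_cancel h6
        have h6 : (b : K) = 0 ∨ (b : K) = 1 := hθ.fixed (by
          have h7 := congrArg (fun u : Kˣ => (u : K)) h5
          exact h7.symm)
        have h7 : b = 1 := by
          rcases h6 with h6 | h6
          · exact absurd h6 b.ne_zero
          · exact Units.ext h6
        rw [← h4, h7, one_pow, dg_one, fi_tZ_one, map_one, map_one, mul_one]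
    · left
      refine ⟨tY θ (b * (tu θ (tu θ a))⁻¹), mem_TY.2 ⟨_, rfl⟩, fA (dg a) * fB (tY θ (tu θ (tu θ a))), h.mem_ZB.2 ⟨tu θ (tu θ a), by rw [hθ.unit]⟩, ?_, fi_tZ_ne fun h2 => hab (mul_inv_eq_one.1 h2)⟩
      rw [fi_eB h, inv_mul_cancel_right]
  · intro z hz
    obtain ⟨a, rfl⟩ := h.mem_ZB.1 hz
    obtain ⟨c, hc, hca⟩ := fi_ex2 hθ h2 (a ^ 2)
    refine ⟨tY θ (c * a⁻¹), mem_TY.2 ⟨_, rfl⟩, dg (a ^ 2 * (c * tu θ c)⁻¹), mem_TA.2 ⟨_, rfl⟩, fA (dg (c * tu θ c)) * fB (tY θ c), h.mem_ZA.2 ⟨c, rfl⟩, ?_,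
      fi_dg_ne fun h2 => hca (mul_inv_eq_one.1 h2).symm, dg (c * tu θ c)⁻¹, mem_TA.2 ⟨_, rfl⟩, tY θ c, mem_TY.2 ⟨_, rfl⟩, ?_, fi_tZ_ne hc⟩
    · rw [fi_eB h, fi_eA, inv_mul_cancel_right, inv_mul_cancel_right]
    · rw [fi_eA, inv_mul_cancel, dg_one, map_one, one_mul]
  · intro z hz
    obtain ⟨b, rfl⟩ := h.mem_ZA.1 hz
    by_cases hb : b = 1
    · right
      obtain ⟨c, hc, _⟩ := fi_ex2 hθ h2 1
      refine ⟨dg (c ^ 2), mem_TA.2 ⟨_, rfl⟩, tY θ c⁻¹, mem_TY.2 ⟨_, rfl⟩, fA (dg (c ^ 2)) * fB (tY θ c), h.mem_ZB.2 ⟨c, rfl⟩, ?_, fi_tZ_ne fun h2 => hc (inv_eq_one.1 h2)⟩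
      rw [fi_eB h, fi_eA, hb, map_one, mul_one, mul_one, inv_mul_cancel]
    · left
      refine ⟨dg (b * tu θ b)⁻¹, mem_TA.2 ⟨_, rfl⟩, tY θ b, mem_TY.2 ⟨_, rfl⟩, ?_, fi_tZ_ne hb⟩
      rw [fi_eA, inv_mul_cancel, dg_one, map_one, one_mul]
-- END fi

-- BEGIN fj
private theorem fj_pZ (hθ : Rt θ) (t d u c : K) : pY θ t d * pY θ u c = pY θ (t + u) (d + c + θ t ^ 2 * u) :=
  Subtype.ext (pQ_mul hθ t d u c)

private theorem fj_sq (hθ : Rt θ) (c : K) : pY θ (zt θ c) 0 * pY θ (zt θ c) 0 = pY θ 0 c := by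
  rw [fj_pZ hθ, hθ.add, zt_sq hθ, add_zero, zero_add]

/-- ROW fj. The group law of the root subgroups: `i` odd: from `e1` and `wA`, `wB` (rotation `i ↦ i + 2`); `i` even: `pY θ t 0 * pY θ u 0 = pY θ (t + u) (θ t ^ 2 * u) = pY θ (t + u) 0 * pY θ (zt θ c) 0 * pY θ (zt θ c) 0`, `c = θ t ^ 2 * u` (`pS_mul`, `pow8`) -/
theorem RayQ.mul_odd (hθ : Rt θ) (h : RayQ θ e fA fB) {i : Fin 16} (hi : (i : ℕ) % 2 = 1) (t u : K) : e i t * e i u = e i (t + u) := by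
  obtain ⟨c, hc⟩ := h.rot1 hi
  rw [hc, hc, hc, ← h.e1, ← h.e1, ← h.e1, up_add, map_mul]
  group

theorem RayQ.mul_even (hθ : Rt θ) (h : RayQ θ e fA fB) {i : Fin 16} (hi : (i : ℕ) % 2 = 0) (t u : K) : e i t * e i u = e i (t + u) * (e i (zt θ (θ t ^ 2 * u)) * e i (zt θ (θ t ^ 2 * u))) := by
  obtain ⟨c, hc⟩ := h.rot8 hi
  have h1 : pY θ t 0 * pY θ u 0 = pY θ (t + u) 0 * (pY θ (zt θ (θ t ^ 2 * u)) 0 * pY θ (zt θ (θ t ^ 2 * u)) 0) := by
    rw [fj_sq hθ, fj_pZ hθ, fj_pZ hθ]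
    simp only [zero_add, add_zero, mul_zero]
  have h2 := congrArg fB h1
  rw [map_mul, map_mul, map_mul] at h2
  rw [hc, hc, hc, hc, ← h.e8, ← h.e8, ← h.e8, ← h.e8]
  calc c * fB (pY θ t 0) * c⁻¹ * (c * fB (pY θ u 0) * c⁻¹) = c * (fB (pY θ t 0) * fB (pY θ u 0)) * c⁻¹ := by group
    _ = c * (fB (pY θ (t + u) 0) * (fB (pY θ (zt θ (θ t ^ 2 * u)) 0) * fB (pY θ (zt θ (θ t ^ 2 * u)) 0))) * c⁻¹ := by rw [h2]
    _ = _ := by group

/-- every element is `e i t * (e i d * e i d)` (the second factor is in the centre of `Xg e i`) -/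
theorem RayQ.mem_even (hθ : Rt θ) (h : RayQ θ e fA fB) {i : Fin 16} (hi : (i : ℕ) % 2 = 0) {g : G} (hg : g ∈ Xg e i) : ∃ t d : K, g = e i t * (e i d * e i d) := by
  obtain ⟨c, hc⟩ := h.rot8 hi
  have h1 : ∃ t d : K, g = c * fB (pY θ t d) * c⁻¹ := by
    unfold Xg at hg
    induction hg using Subgroup.closure_induction with
    | mem x hx =>
      obtain ⟨t, rfl⟩ := hx
      exact ⟨t, 0, by rw [hc, h.e8]⟩
    | one =>
      refine ⟨0, 0, ?_⟩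
      have h2 : (pY θ (0 : K) 0) = 1 := Subtype.ext pQ_zero
      rw [h2, map_one, mul_one, mul_inv_cancel]
    | mul x y _ _ hx hy =>
      obtain ⟨t, d, rfl⟩ := hx
      obtain ⟨u, f, rfl⟩ := hy
      refine ⟨t + u, d + f + θ t ^ 2 * u, ?_⟩
      rw [← fj_pZ hθ, map_mul]
      group
    | inv x _ hx =>
      obtain ⟨t, d, rfl⟩ := hx
      refine ⟨t, d + θ t ^ 2 * t, ?_⟩
      have h2 : (pY θ t d)⁻¹ = pY θ t (d + θ t ^ 2 * t) := Subtype.ext (pQ_inv hθ t d)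
      rw [← h2, map_inv]
      group
  obtain ⟨t, d, rfl⟩ := h1
  refine ⟨t, zt θ d, ?_⟩
  have h2 : pY θ t d = pY θ t 0 * (pY θ (zt θ d) 0 * pY θ (zt θ d) 0) := by
    rw [fj_sq hθ, fj_pZ hθ]
    simp only [zero_add, add_zero, mul_zero]
  rw [h2, map_mul, map_mul, hc, hc, ← h.e8, ← h.e8]
  group

theorem RayQ.cen (hθ : Rt θ) (h : RayQ θ e fA fB) {i : Fin 16} (hi : (i : ℕ) % 2 = 0) (t d : K) : e i t * (e i d * e i d) = (e i d * e i d) * e i t := by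
  obtain ⟨c, hc⟩ := h.rot8 hi
  have h1 : pY θ t 0 * (pY θ d 0 * pY θ d 0) = (pY θ d 0 * pY θ d 0) * pY θ t 0 := by
    rw [fj_pZ hθ d 0 d 0, hθ.add d, fj_pZ hθ, fj_pZ hθ]
    congr 1
    · ring
    · simp
  have h2 := congrArg fB h1
  rw [map_mul, map_mul, map_mul, map_mul] at h2
  rw [hc, hc, ← h.e8, ← h.e8]
  calc c * fB (pY θ t 0) * c⁻¹ * (c * fB (pY θ d 0) * c⁻¹ * (c * fB (pY θ d 0) * c⁻¹))
      = c * (fB (pY θ t 0) * (fB (pY θ d 0) * fB (pY θ d 0))) * c⁻¹ := by group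
    _ = c * (fB (pY θ d 0) * fB (pY θ d 0) * fB (pY θ t 0)) * c⁻¹ := by rw [h2]
    _ = _ := by group
-- END fj

-- BEGIN fk
private theorem fk_X (hθ : Rt θ) [Finite K] (h : RayQ θ e fA fB) (i : Fin 16) : ((Xg e i : Subgroup G) : Set G).Finite := by
  rcases Nat.mod_two_eq_zero_or_one (i : ℕ) with hi | hi
  · refine Set.Finite.subset (Set.finite_range fun p : K × K => e i p.1 * (e i p.2 * e i p.2)) ?_
    intro g hg
    obtain ⟨t, d, rfl⟩ := h.mem_even hθ hi hg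
    exact ⟨(t, d), rfl⟩
  · have h0 : e i 0 = 1 := by
      have h1 := h.mul_odd hθ hi 0 0
      rw [add_zero] at h1
      exact mul_eq_left.mp h1
    refine Set.Finite.subset (Set.finite_range fun t : K => e i t) ?_
    intro g hg
    refine Subgroup.closure_induction (p := fun g _ => g ∈ Set.range fun t : K => e i t) ?_ ?_ ?_ ?_ hg
    · rintro _ ⟨t, rfl⟩
      exact ⟨t, rfl⟩
    · exact ⟨0, h0⟩
    · rintro _ _ _ _ ⟨t, rfl⟩ ⟨u, rfl⟩
      exact ⟨t + u, (h.mul_odd hθ hi t u).symm⟩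
    · rintro _ _ ⟨t, rfl⟩
      refine ⟨-t, ?_⟩
      show e i (-t) = (e i t)⁻¹
      exact eq_inv_of_mul_eq_one_left (by rw [h.mul_odd hθ hi, neg_add_cancel, h0])

private theorem fk_zero (hθ : Rt θ) [Finite K] (h : RayQ θ e fA fB) (i : Fin 16) : ((Iv e i 0 : Subgroup G) : Set G).Finite := by
  refine Set.Finite.subset (fk_X hθ h i) ?_
  show Iv e i 0 ≤ Xg e i
  refine Subgroup.closure_mono ?_
  rintro g ⟨l, s, hl, rfl⟩
  have h0 : l = 0 := Fin.le_zero_iff.mp hl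
  subst h0
  exact ⟨s, by rw [add_zero]⟩

private theorem fk_step (hθ : Rt θ) [Finite K] (h : RayQ θ e fA fB) {k : Fin 16} (hk : k ≤ 6) (ih : ∀ i, ((Iv e i k : Subgroup G) : Set G).Finite) (i : Fin 16) : ((Iv e i (k + 1) : Subgroup G) : Set G).Finite := by
  refine Set.Finite.subset (Set.Finite.image2 (fun a b : G => a * b) (fk_X hθ h i) (ih (i + 1))) ?_
  intro u hu
  obtain ⟨x, hx, u', hu', rfl⟩ := h.splitL hθ hk hu
  exact ⟨x, hx, u', hu', rfl⟩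

/-- ROW fk. Finite: `Xg e i` is finite (`mul_odd`: it is the image of `K`; `mem_even`), `Iv e i (k + 1)` is the product (`splitL`); induction on `k`; `Iv e i 0 = Xg e i` -/
theorem RayQ.fin (hθ : Rt θ) [Finite K] (h : RayQ θ e fA fB) (i : Fin 16) {k : Fin 16} (hk : k ≤ 7) : ((Iv e i k : Subgroup G) : Set G).Finite := by
  have h0 : ∀ i, ((Iv e i 0 : Subgroup G) : Set G).Finite := fk_zero hθ h
  have h1 : ∀ i, ((Iv e i 1 : Subgroup G) : Set G).Finite := fk_step hθ h (k := 0) (by decide) h0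
  have h2 : ∀ i, ((Iv e i 2 : Subgroup G) : Set G).Finite := fk_step hθ h (k := 1) (by decide) h1
  have h3 : ∀ i, ((Iv e i 3 : Subgroup G) : Set G).Finite := fk_step hθ h (k := 2) (by decide) h2
  have h4 : ∀ i, ((Iv e i 4 : Subgroup G) : Set G).Finite := fk_step hθ h (k := 3) (by decide) h3
  have h5 : ∀ i, ((Iv e i 5 : Subgroup G) : Set G).Finite := fk_step hθ h (k := 4) (by decide) h4
  have h6 : ∀ i, ((Iv e i 6 : Subgroup G) : Set G).Finite := fk_step hθ h (k := 5) (by decide) h5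
  have h7 : ∀ i, ((Iv e i 7 : Subgroup G) : Set G).Finite := fk_step hθ h (k := 6) (by decide) h6
  have hc : k = 0 ∨ k = 1 ∨ k = 2 ∨ k = 3 ∨ k = 4 ∨ k = 5 ∨ k = 6 ∨ k = 7 := by
    revert hk
    revert k
    decide
  rcases hc with rfl | rfl | rfl | rfl | rfl | rfl | rfl | rfl
  · exact h0 i
  · exact h1 i
  · exact h2 i
  · exact h3 i
  · exact h4 i
  · exact h5 i
  · exact h6 i
  · exact h7 i
-- END fk

variable (θ) in
/-- the character of the torus on the ray `i` -/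
def chi (a b : Kˣ) (i : Fin 16) : Kˣ := mo θ a (cA i) * mo θ b (cB i)

-- BEGIN fl
private theorem fl_conj (h : RayQ θ e fA fB) (a b : Kˣ) (i : Fin 16) (t : K) :
    (fA (dg a) * fB (tY θ b)) * e i t * (fA (dg a) * fB (tY θ b))⁻¹ = e i ((chi θ a b i : K) * t) := by
  have h1 : (fA (dg a) * fB (tY θ b)) * e i t * (fA (dg a) * fB (tY θ b))⁻¹ = fA (dg a) * (fB (tY θ b) * e i t * (fB (tY θ b))⁻¹) * (fA (dg a))⁻¹ := by
    group
  rw [h1, h.tB, h.tA, chi, Units.val_mul, mul_assoc]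

private theorem fl_add (hθ : Rt θ) {c : K} (hc : c ≠ 1) : 1 + c ≠ 0 := by
  intro h1
  apply hc
  have h2 := hθ.add (1 : K)
  exact (add_left_cancel (h1.trans h2.symm))

/-- the root subgroup of an even ray is a copy of the group of the `pY θ t d` -/
private theorem fl_phi (hθ : Rt θ) (h : RayQ θ e fA fB) {i : Fin 16} (hi : (i : ℕ) % 2 = 0) :
    ∃ φ : K → K → G, (∀ t, φ t 0 = e i t) ∧ ∀ t d u c, φ t d * φ u c = φ (t + u) (d + c + θ t ^ 2 * u) := by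
  obtain ⟨c, hc⟩ := h.rot8 hi
  refine ⟨fun t d => c * fB (pY θ t d) * c⁻¹, fun t => ?_, fun t d u c' => ?_⟩
  · rw [hc t, ← h.e8 t]
  · have h1 : pY θ t d * pY θ u c' = pY θ (t + u) (d + c' + θ t ^ 2 * u) := Subtype.ext (pQ_mul hθ t d u c')
    change c * fB (pY θ t d) * c⁻¹ * (c * fB (pY θ u c') * c⁻¹) = c * fB (pY θ (t + u) (d + c' + θ t ^ 2 * u)) * c⁻¹
    rw [← h1, map_mul]
    group

private theorem fl_odd (hθ : Rt θ) (h : RayQ θ e fA fB) {i : Fin 16} (hi : (i : ℕ) % 2 = 1) {x : G} (hx : x ∈ Xg e i) : ∃ t, x = e i t := by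
  have h0 : e i 0 = 1 := by
    have h1 := h.mul_odd hθ hi 0 0
    rw [add_zero] at h1
    exact mul_eq_left.1 h1
  unfold Xg at hx
  induction hx using Subgroup.closure_induction with
  | mem x hx => exact hx
  | one => exact ⟨0, h0.symm⟩
  | mul x y _ _ hx hy =>
    obtain ⟨t, rfl⟩ := hx
    obtain ⟨u, rfl⟩ := hy
    exact ⟨t + u, h.mul_odd hθ hi t u⟩
  | inv x _ hx =>
    obtain ⟨t, rfl⟩ := hx
    refine ⟨t, inv_eq_of_mul_eq_one_right ?_⟩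
    rw [h.mul_odd hθ hi, hθ.add, h0]

/-- `ζ = fA (dg a) * fB (tY θ b)` acts on `e i t` by `c = chi θ a b i ≠ 1`: `y ↦ y⁻¹ * (ζ * y * ζ⁻¹)` is surjective on `Xg e i`: `i` odd: `y = e i t`: `e i ((c - 1) t)`.  `i` even: `y = e i t * z(d)`, `z(d) = e i (zt d) * e i (zt d)` -/
theorem RayQ.surX (hθ : Rt θ) (h : RayQ θ e fA fB) {a b : Kˣ} {i : Fin 16} (hab : chi θ a b i ≠ 1) {x : G} (hx : x ∈ Xg e i) :
    ∃ y ∈ Xg e i, y⁻¹ * ((fA (dg a) * fB (tY θ b)) * y * (fA (dg a) * fB (tY θ b))⁻¹) = x := by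
  have hcj := fl_conj h a b i
  have hc1 : (chi θ a b i : K) ≠ 1 := fun h1 => hab (Units.ext h1)
  have hc5 : (chi θ a b i : K) * θ (chi θ a b i : K) ^ 2 ≠ 1 := by
    intro h1
    apply hab
    refine mo_inj hθ (p := (1, 2)) (k := 1) (Or.inr (by norm_num)) (Units.ext ?_)
    simp only [mo, zpow_one]
    rw [Units.val_mul]
    exact h1
  set c : K := (chi θ a b i : K) with hcd
  have hn1 := fl_add hθ hc1
  rcases Nat.mod_two_eq_zero_or_one (i : ℕ) with hi | hi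
  · obtain ⟨φ, hp0, hpm⟩ := fl_phi hθ h hi
    have hsq : ∀ u : K, φ u 0 * φ u 0 = φ 0 (θ u ^ 2 * u) := by
      intro u
      rw [hpm, hθ.add]
      congr 1
      ring
    have hz : ∀ d : K, φ 0 d = e i (zt θ d) * e i (zt θ d) := by
      intro d
      rw [← hp0, hsq, zt_sq hθ]
    have hsp : ∀ t d : K, φ t d = φ t 0 * φ 0 d := by
      intro t d
      rw [hpm]
      congr 1
      · ring
      · ring
    have hmem : ∀ t d : K, φ t d ∈ Xg e i := by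
      intro t d
      rw [hsp, hz, hp0]
      have h1 : ∀ t, e i t ∈ Xg e i := fun t => Subgroup.subset_closure ⟨t, rfl⟩
      exact (Xg e i).mul_mem (h1 _) ((Xg e i).mul_mem (h1 _) (h1 _))
    have hcφ : ∀ t d : K, (fA (dg a) * fB (tY θ b)) * φ t d * (fA (dg a) * fB (tY θ b))⁻¹ = φ (c * t) (c * θ c ^ 2 * d) := by
      intro t d
      have e1 : (fA (dg a) * fB (tY θ b)) * φ t d * (fA (dg a) * fB (tY θ b))⁻¹ =
          (fA (dg a) * fB (tY θ b)) * e i t * (fA (dg a) * fB (tY θ b))⁻¹ *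
            (((fA (dg a) * fB (tY θ b)) * e i (zt θ d) * (fA (dg a) * fB (tY θ b))⁻¹) * ((fA (dg a) * fB (tY θ b)) * e i (zt θ d) * (fA (dg a) * fB (tY θ b))⁻¹)) := by
        rw [hsp, hz, hp0]
        group
      rw [e1, hcj, hcj, ← hp0, ← hp0, hsq, ← hsp]
      congr 1
      rw [map_mul]
      calc (θ c * θ (zt θ d)) ^ 2 * (c * zt θ d) = c * θ c ^ 2 * (θ (zt θ d) ^ 2 * zt θ d) := by ring
        _ = c * θ c ^ 2 * d := by rw [zt_sq hθ]
    have h00 : φ 0 0 = 1 := by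
      have h1 := hpm 0 0 0 0
      simp only [add_zero, mul_zero] at h1
      exact mul_eq_left.1 h1
    have hinv : ∀ t d : K, (φ t d)⁻¹ = φ t (d + θ t ^ 2 * t) := by
      intro t d
      apply inv_eq_of_mul_eq_one_right
      rw [hpm, hθ.add, ← h00]
      congr 1
      have h1 : d + (d + θ t ^ 2 * t) + θ t ^ 2 * t = (d + d) + (θ t ^ 2 * t + θ t ^ 2 * t) := by ring
      rw [h1, hθ.add, hθ.add, add_zero]
    have hn5 := fl_add hθ hc5
    obtain ⟨s, d', hx'⟩ := h.mem_even hθ hi hx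
    have hx2 : x = φ s (θ d' ^ 2 * d') := by
      rw [hx', ← hp0, ← hp0, hsq, ← hsp]
    refine ⟨φ (s / (1 + c)) ((θ d' ^ 2 * d' - θ (s / (1 + c)) ^ 2 * (s / (1 + c)) * (1 + c)) / (1 + c * θ c ^ 2)), hmem _ _, ?_⟩
    rw [hcφ, hinv, hpm, hx2]
    congr 1
    · field_simp
    · generalize hu : s / (1 + c) = u
      have e1 : ∀ d : K, d + θ u ^ 2 * u + c * θ c ^ 2 * d + θ u ^ 2 * (c * u) = d * (1 + c * θ c ^ 2) + θ u ^ 2 * u * (1 + c) := by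
        intro d
        ring
      rw [e1, div_mul_cancel₀ _ hn5]
      ring
  · obtain ⟨s, rfl⟩ := fl_odd hθ h hi hx
    refine ⟨e i (s / (1 + c)), Subgroup.subset_closure ⟨_, rfl⟩, ?_⟩
    have h00 : e i 0 = 1 := by
      have h1 := h.mul_odd hθ hi 0 0
      rw [add_zero] at h1
      exact mul_eq_left.1 h1
    have hinv : ∀ t : K, (e i t)⁻¹ = e i t := by
      intro t
      apply inv_eq_of_mul_eq_one_right
      rw [h.mul_odd hθ hi, hθ.add, h00]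
    rw [hcj, hinv, h.mul_odd hθ hi]
    congr 1
    field_simp
-- END fl

-- BEGIN fm
private theorem fm_zero (i : Fin 16) : Iv e i 0 = Xg e i := by
  unfold Iv Xg
  congr 1
  ext g
  constructor
  · rintro ⟨l, s, hl, rfl⟩
    have h1 : l = 0 := Fin.le_zero_iff'.1 hl
    exact ⟨s, by rw [h1, add_zero]⟩
  · rintro ⟨t, rfl⟩
    exact ⟨0, t, le_refl _, by rw [add_zero]⟩

private theorem fm_X (i k : Fin 16) : Xg e i ≤ Iv e i k := by
  unfold Xg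
  rw [Subgroup.closure_le]
  rintro g ⟨t, rfl⟩
  exact Subgroup.subset_closure ⟨0, t, Fin.zero_le _, by rw [add_zero]⟩

private theorem fm_up (i : Fin 16) {k : Fin 16} (hk : k ≤ 6) : Iv e (i + 1) k ≤ Iv e i (k + 1) := by
  unfold Iv
  rw [Subgroup.closure_le]
  rintro g ⟨l, s, hl, rfl⟩
  refine Subgroup.subset_closure ⟨l + 1, s, ?_, ?_⟩
  · have h1 : ∀ k l : Fin 16, k ≤ 6 → l ≤ k → l + 1 ≤ k + 1 := by decide
    exact h1 k l hk hl
  · rw [add_assoc, add_comm 1 l]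

private theorem fm_of (k : ℕ) (hk : k + 1 ≤ 7) : Fin.ofNat 16 (k + 1) = Fin.ofNat 16 k + 1 ∧ Fin.ofNat 16 k ≤ 6 := by
  have h1 : k < 7 := by omega
  interval_cases k <;> decide

/-- Induction on `k` (`k ≤ 7`; `k = 0`: `surX`): `v = x * v'` (`splitL`); `y₁ ∈ Xg e i` for `x` (`surX`); `c = y₁ * x * v' * x⁻¹ * y₁⁻¹` is in `Iv e (i + 1) (k - 1)` (`left`), `y₂` for `c`; `y = y₂ * y₁`: `y⁻¹ * ζ y ζ⁻¹ = y₁⁻¹ * c * y₁ * x = x * v'`. -/
theorem RayQ.surI (hθ : Rt θ) (h : RayQ θ e fA fB) {a b : Kˣ} (hab : ∀ i, chi θ a b i ≠ 1) (k : ℕ) : ∀ i : Fin 16, k ≤ 7 → ∀ v ∈ Iv e i (Fin.ofNat 16 k),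
    ∃ y ∈ Iv e i (Fin.ofNat 16 k), y⁻¹ * ((fA (dg a) * fB (tY θ b)) * y * (fA (dg a) * fB (tY θ b))⁻¹) = v := by
  generalize hζ : fA (dg a) * fB (tY θ b) = ζ
  induction k with
  | zero =>
    intro i _ v hv
    have e0 : Fin.ofNat 16 0 = 0 := rfl
    rw [e0, fm_zero] at hv ⊢
    rw [← hζ]
    exact h.surX hθ (hab i) hv
  | succ k ih =>
    intro i hk v hv
    obtain ⟨e1, hk6⟩ := fm_of k hk
    rw [e1] at hv ⊢
    obtain ⟨x, hx, v', hv', rfl⟩ := h.splitL hθ hk6 hv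
    obtain ⟨y₁, hy₁, hy1⟩ := h.surX hθ (hab i) hx
    rw [hζ] at hy1
    have hc : (y₁ * x) * v' * (y₁ * x)⁻¹ ∈ Iv e (i + 1) (Fin.ofNat 16 k) := h.left hθ hk6 ((Xg e i).mul_mem hy₁ hx) hv'
    obtain ⟨y₂, hy₂, hy2⟩ := ih (i + 1) (by omega) _ hc
    refine ⟨y₂ * y₁, (Iv e i (Fin.ofNat 16 k + 1)).mul_mem (fm_up i hk6 hy₂) (fm_X i _ hy₁), ?_⟩
    have e2 : (y₂ * y₁)⁻¹ * (ζ * (y₂ * y₁) * ζ⁻¹) = y₁⁻¹ * (y₂⁻¹ * (ζ * y₂ * ζ⁻¹)) * y₁ * (y₁⁻¹ * (ζ * y₁ * ζ⁻¹)) := by group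
    rw [e2, hy1, hy2]
    group

/-- a surjective map of a finite set is injective: `v` and `1` have the same image -/
theorem RayQ.fix (hθ : Rt θ) [Finite K] (h : RayQ θ e fA fB) {a b : Kˣ} (hab : ∀ i, chi θ a b i ≠ 1) (i : Fin 16)
    {v : G} (hv : v ∈ Iv e i 7) (h1 : (fA (dg a) * fB (tY θ b)) * v * (fA (dg a) * fB (tY θ b))⁻¹ = v) : v = 1 := by
  have hsur := h.surI hθ hab 7 i (le_refl _)
  have e6 : Fin.ofNat 16 7 = 7 := rfl
  rw [e6] at hsur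
  have hH : fA (dg a) * fB (tY θ b) ∈ HQ fA fB := Subgroup.subset_closure ⟨a, b, rfl⟩
  have hfin : Finite (Iv e i 7) := (h.fin hθ i (k := 7) (by decide)).to_subtype
  let f : Iv e i 7 → Iv e i 7 := fun y => ⟨y.1⁻¹ * ((fA (dg a) * fB (tY θ b)) * y.1 * (fA (dg a) * fB (tY θ b))⁻¹), (Iv e i 7).mul_mem ((Iv e i 7).inv_mem y.2) (h.hIv i 7 hH y.2)⟩
  have hf : Function.Surjective f := by
    intro w
    obtain ⟨y, hy, hy1⟩ := hsur w.1 w.2
    exact ⟨⟨y, hy⟩, Subtype.ext hy1⟩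
  have hinj := Finite.injective_iff_surjective.2 hf
  have h2 : f ⟨v, hv⟩ = f 1 := by
    apply Subtype.ext
    change v⁻¹ * ((fA (dg a) * fB (tY θ b)) * v * (fA (dg a) * fB (tY θ b))⁻¹) = (1 : G)⁻¹ * ((fA (dg a) * fB (tY θ b)) * (1 : G) * (fA (dg a) * fB (tY θ b))⁻¹)
    rw [h1]
    group
  exact congrArg Subtype.val (hinj h2)
-- END fm

-- BEGIN fn
private theorem fn_u (hθ : Rt θ) (x : Kˣ) : tu θ (tu θ x ^ 2) = x := by
  rw [map_pow, hθ.unit]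

private theorem fn_step (hθ : Rt θ) (h : RayQ θ e fA fB) (x y : Kˣ) :
    (fA (nA K) * fB (JY θ)) * (fA (dg x) * fB (tY θ y)) * (fA (nA K) * fB (JY θ))⁻¹ = fA (dg (x⁻¹ * ((x * y⁻¹) ^ 2 * tu θ (x * y⁻¹) ^ 2))) * fB (tY θ (x * y⁻¹)) := by
  have hJ : JY θ * tY θ y * (JY θ)⁻¹ = tY θ y⁻¹ := by
    apply Subtype.ext
    have h1 : (JY θ : Sq θ)⁻¹ = JY θ := by
      apply inv_eq_of_mul_eq_one_right
      exact Subtype.ext JS_JS
    rw [h1]
    have h2 : (tQ θ y)⁻¹ = tQ θ y⁻¹ := by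
      apply inv_eq_of_mul_eq_one_right
      rw [← tQ_mul, mul_inv_cancel, tQ_one]
    change JS K * tQ θ y * JS K = tQ θ y⁻¹
    rw [JS_tQ, h2]
  have hn : nA K * dg x * (nA K)⁻¹ = dg x⁻¹ := by
    have mulE : ∀ (A B : SL2 K) (i j : Fin 2), (A * B).1 i j = A.1 i 0 * B.1 0 j + A.1 i 1 * B.1 1 j := fun A B i j => by
      rw [Matrix.SpecialLinearGroup.coe_mul, Matrix.mul_apply, Fin.sum_univ_two]
    have n00 : (nA K).1 0 0 = 0 := by
      unfold nA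
      rw [mulE, mulE, mulE]
      simp [up, lo]
    have n01 : (nA K).1 0 1 = 1 := by
      unfold nA
      rw [mulE, mulE, mulE]
      simp [up, lo]
    have n11 : (nA K).1 1 1 = 0 := by
      unfold nA
      rw [mulE, mulE, mulE]
      simp [up, lo]
    rw [mul_inv_eq_iff_eq_mul]
    apply Subtype.ext
    ext i j
    rw [mulE, mulE]
    fin_cases i <;> fin_cases j
    · simp [n00, n01, n11, dg]
    · simp [n00, n01, n11, dg]
    · simp [n00, n01, n11, dg, mul_comm]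
    · simp [n00, n01, n11, dg]
  have e1 : (fA (nA K) * fB (JY θ)) * (fA (dg x) * fB (tY θ y)) * (fA (nA K) * fB (JY θ))⁻¹ =
      fA (nA K) * ((fB (JY θ) * fA (dg x) * (fB (JY θ))⁻¹) * (fB (JY θ) * fB (tY θ y) * (fB (JY θ))⁻¹)) * (fA (nA K))⁻¹ := by
    group
  have e2 : fB (JY θ) * fB (tY θ y) * (fB (JY θ))⁻¹ = fB (tY θ y⁻¹) := by
    rw [← map_mul, ← map_inv, ← map_mul, hJ]
  have e3 : fB (tY θ x) * fB (tY θ y⁻¹) = fB (tY θ (x * y⁻¹)) := by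
    rw [← map_mul]
    congr 1
    exact Subtype.ext (tQ_mul _ _).symm
  have e4 : fA (nA K) * fA (dg x) * (fA (nA K))⁻¹ = fA (dg x⁻¹) := by
    rw [← map_mul, ← map_inv, ← map_mul, hn]
  have e5 : fA (nA K) * (fA (dg x) * fB (tY θ (x * y⁻¹))) * (fA (nA K))⁻¹ =
      (fA (nA K) * fA (dg x) * (fA (nA K))⁻¹) * (fA (nA K) * fB (tY θ (x * y⁻¹)) * (fA (nA K))⁻¹) := by
    group
  rw [e1, h.nBt, e2, mul_assoc (fA (dg x)), e3, e5, e4, h.nAt, ← mul_assoc, ← map_mul, ← dg_mul]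

/-- the square of the step: `(x, y) ↦ (x θ(x)² y⁻² θ(y)⁻⁴, y⁻¹ θ(x)² θ(y)⁻²)` -/
private theorem fn_two (hθ : Rt θ) (h : RayQ θ e fA fB) (x y : Kˣ) :
    (fA (nA K) * fB (JY θ)) * ((fA (nA K) * fB (JY θ)) * (fA (dg x) * fB (tY θ y)) * (fA (nA K) * fB (JY θ))⁻¹) * (fA (nA K) * fB (JY θ))⁻¹ =
      fA (dg (x * tu θ x ^ 2 * (y ^ 2 * tu θ y ^ 4)⁻¹)) * fB (tY θ (y⁻¹ * tu θ x ^ 2 * (tu θ y ^ 2)⁻¹)) := by
  rw [fn_step hθ h, fn_step hθ h]
  have hx := hθ.unit x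
  have hy := hθ.unit y
  have e1 : x⁻¹ * ((x * y⁻¹) ^ 2 * tu θ (x * y⁻¹) ^ 2) * (x * y⁻¹)⁻¹ = y⁻¹ * tu θ x ^ 2 * (tu θ y ^ 2)⁻¹ := by
    rw [map_mul, map_inv]
    refine Units.ext ?_
    push_cast
    field_simp
  have e2 : tu θ (y⁻¹ * tu θ x ^ 2 * (tu θ y ^ 2)⁻¹) = (tu θ y)⁻¹ * x * y⁻¹ := by
    rw [map_mul, map_mul, map_inv, map_inv, fn_u hθ, fn_u hθ]
  rw [e1, e2]
  congr 3
  refine Units.ext ?_
  rw [map_mul, map_inv]
  push_cast
  field_simp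

/-- `n₀ = (fA (nA K) * fB (JY θ)) ^ 4` inverts the torus -/
theorem RayQ.n0 (hθ : Rt θ) (h : RayQ θ e fA fB) (x y : Kˣ) :
    (fA (nA K) * fB (JY θ)) ^ 4 * (fA (dg x) * fB (tY θ y)) * ((fA (nA K) * fB (JY θ)) ^ 4)⁻¹ = (fA (dg x) * fB (tY θ y))⁻¹ := by
  have h2 := fn_two hθ h
  have e1 : ∀ N z : G, N ^ 4 * z * (N ^ 4)⁻¹ = N * (N * (N * (N * z * N⁻¹) * N⁻¹) * N⁻¹) * N⁻¹ := by
    intro N z
    have e0 : N ^ 4 = N * N * N * N := by rw [pow_succ, pow_succ, pow_succ, pow_one]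
    rw [e0]
    simp only [mul_inv_rev, mul_assoc]
  have h1 : (dg x)⁻¹ = dg x⁻¹ := by
    apply inv_eq_of_mul_eq_one_right
    rw [← dg_mul, mul_inv_cancel, dg_one]
  have h3 : (tY θ y)⁻¹ = tY θ y⁻¹ := by
    apply inv_eq_of_mul_eq_one_right
    apply Subtype.ext
    change tQ θ y * tQ θ y⁻¹ = 1
    rw [← tQ_mul, mul_inv_cancel, tQ_one]
  have h4 : (fA (dg x) * fB (tY θ y))⁻¹ = fA (dg x⁻¹) * fB (tY θ y⁻¹) := by
    rw [mul_inv_rev, ← map_inv, ← map_inv, h1, h3, h.cm]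
  rw [e1, h2, h2, h4]
  have a1 : tu θ (x * tu θ x ^ 2 * (y ^ 2 * tu θ y ^ 4)⁻¹) = tu θ x * x * (tu θ y ^ 2 * y ^ 2)⁻¹ := by
    have e4 : tu θ (tu θ y ^ 4) = y ^ 2 := by
      rw [map_pow, show (4 : ℕ) = 2 * 2 from rfl, pow_mul, hθ.unit]
    rw [map_mul, map_mul, map_inv, map_mul, fn_u hθ, map_pow, e4]
  have a2 : tu θ (y⁻¹ * tu θ x ^ 2 * (tu θ y ^ 2)⁻¹) = (tu θ y)⁻¹ * x * y⁻¹ := by
    rw [map_mul, map_mul, map_inv, map_inv, fn_u hθ, fn_u hθ]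
  rw [a1, a2]
  congr 2
  · congr 1
    congr 1
    refine Units.ext ?_
    push_cast
    field_simp
  · congr 1
    refine Units.ext ?_
    push_cast
    field_simp
-- END fn

-- BEGIN fo
/-- the class of a regular element of the torus (abstract) -/
theorem squareR {S : Type*} [Group S] {G : Type*} [Group G] {P T : Subgroup S} {n : S} {th : S →* G} {H U V Z Ui Vi : Subgroup G}
    (B : Nd P T n th H U V Z Ui Vi) (hreach : ∀ g : G, g ≠ 1 → ∃ c : G, NS th Ui Vi (c * g * c⁻¹) 1) {b n₀ : G} (hb : b ∈ H) (hn : n₀ * b * n₀⁻¹ = b⁻¹)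
    (fU : (U : Set G).Finite) (fV : (V : Set G).Finite) (zU : ∀ u ∈ U, b * u * b⁻¹ = u → u = 1) (zV : ∀ v ∈ V, b * v * b⁻¹ = v → v = 1) :
    ∃ w : G, ∀ g : G, ∃ x y : G, IsConj w x ∧ IsConj w y ∧ x * y = g := by
  have hinv : IsConj b b⁻¹ := isConj_iff.2 ⟨n₀, hn⟩
  refine ⟨b, fun g => ?_⟩
  by_cases hg : g = 1
  · exact ⟨b, b⁻¹, IsConj.refl _, hinv, by rw [hg, mul_inv_cancel]⟩
  · obtain ⟨c, v, hv, m, hm, u, hu, e⟩ := hreach g hg
    obtain ⟨y, q, hq, p, hp, e2⟩ := R1.move B.r1 hm T.one_mem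
    set v₂ : G := th y * v * (th y)⁻¹ * th (n * q * n) with hv₂
    set u₂ : G := th p * (th y * u * (th y)⁻¹) with hu₂
    have hvV : v₂ ∈ V := V.mul_mem (B.ViV (B.nV y v hv)) (B.qV q hq)
    have huU : u₂ ∈ U := U.mul_mem (B.pU p hp) (B.UiU (B.nU y u hu))
    have e3 : (th y * c) * g * (th y * c)⁻¹ = v₂ * u₂ := by
      have e4 : (th y * c) * g * (th y * c)⁻¹ = th y * (c * g * c⁻¹) * (th y)⁻¹ := by group
      have e5 : th y * th m * (th y)⁻¹ = th (n * q * n) * th p := by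
        rw [← map_mul, ← map_inv, ← map_mul, e2, ← map_mul, mul_one]
      calc (th y * c) * g * (th y * c)⁻¹ = th y * (v * th m * 1 * u) * (th y)⁻¹ := by rw [e4, e]
        _ = th y * v * (th y)⁻¹ * (th y * th m * (th y)⁻¹) * (th y * u * (th y)⁻¹) := by group
        _ = v₂ * u₂ := by rw [e5, hv₂, hu₂]; group
    obtain ⟨a, -, ea⟩ := conj_of_fix fV (fun v hv => B.hVV hb hv) zV hvV
    have zU' : ∀ u ∈ U, b⁻¹ * u * b⁻¹⁻¹ = u → u = 1 := by
      intro u hu h1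
      refine zU u hu ?_
      calc b * u * b⁻¹ = b * (b⁻¹ * u * b⁻¹⁻¹) * b⁻¹ := by rw [h1]
        _ = u := by group
    obtain ⟨a', -, ea'⟩ := conj_of_fix' fU (fun u hu => B.hUU (H.inv_mem hb) hu) zU' huU
    set d : G := th y * c with hd
    refine ⟨d⁻¹ * (v₂ * b) * d⁻¹⁻¹, d⁻¹ * (b⁻¹ * u₂) * d⁻¹⁻¹, ?_, ?_, ?_⟩
    · rw [ea]
      exact (isConj_iff.2 ⟨a, rfl⟩).trans (isConj_iff.2 ⟨d⁻¹, rfl⟩)
    · rw [ea']
      exact hinv.trans ((isConj_iff.2 ⟨a', rfl⟩).trans (isConj_iff.2 ⟨d⁻¹, rfl⟩))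
    · calc d⁻¹ * (v₂ * b) * d⁻¹⁻¹ * (d⁻¹ * (b⁻¹ * u₂) * d⁻¹⁻¹) = d⁻¹ * (v₂ * u₂) * d := by group
        _ = g := by rw [← e3]; group

/-- the values of `b` with a nontrivial second character of norm `± 2 ^ k`: at most one value for every ray -/
private theorem fo_one (hθ : Rt θ) (a : Kˣ) (i : Fin 16) (hi : i ≠ 4) (hi' : i ≠ 12) {b c : Kˣ} (hb : chi θ a b i = 1) (hc : chi θ a c i = 1) : b = c := by
  have h1 : mo θ b (cB i) = mo θ c (cB i) := mul_left_cancel (hb.trans hc.symm)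
  have h2 : ∀ i : Fin 16, i ≠ 4 → i ≠ 12 → ∃ k : Fin 4, 2 * (cB i).1 ^ 2 - (cB i).2 ^ 2 = 2 ^ (k : ℕ) ∨ 2 * (cB i).1 ^ 2 - (cB i).2 ^ 2 = -2 ^ (k : ℕ) := by decide
  obtain ⟨k, hk⟩ := h2 i hi hi'
  exact mo_ne hθ hk h1

/-- a regular element of the torus, `8 ≤ Nat.card Kˣ` -/
theorem exists_reg (hθ : Rt θ) [Finite K] (h2 : 8 ≤ Nat.card Kˣ) : ∃ a b : Kˣ, ∀ i, chi θ a b i ≠ 1 := by
  classical
  have : Fintype Kˣ := Fintype.ofFinite _
  rw [Nat.card_eq_fintype_card] at h2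
  have : Nontrivial Kˣ := Fintype.one_lt_card_iff_nontrivial.1 (by omega)
  obtain ⟨a, ha⟩ := exists_ne (1 : Kˣ)
  let I : Finset (Fin 16) := {1, 2, 3, 5, 6, 7, 8}
  let bad : Fin 16 → Finset Kˣ := fun i => Finset.univ.filter fun b => chi θ a b i = 1
  have hbad : ∀ i ∈ I, (bad i).card ≤ 1 := by
    intro i hi
    have h3 : ∀ i ∈ I, i ≠ 4 ∧ i ≠ 12 := by decide
    rw [Finset.card_le_one]
    intro b hb c hc
    exact fo_one hθ a i (h3 i hi).1 (h3 i hi).2 (Finset.mem_filter.1 hb).2 (Finset.mem_filter.1 hc).2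
  have hcard : (I.biUnion bad).card ≤ 7 := by
    calc (I.biUnion bad).card ≤ ∑ i ∈ I, (bad i).card := Finset.card_biUnion_le
      _ ≤ ∑ i ∈ I, 1 := Finset.sum_le_sum hbad
      _ = 7 := by decide
  obtain ⟨b, hb⟩ : ∃ b, b ∉ I.biUnion bad := by
    by_contra hc
    push Not at hc
    have h4 : (Finset.univ : Finset Kˣ) ⊆ I.biUnion bad := fun b _ => hc b
    have h5 := Finset.card_le_card h4
    rw [Finset.card_univ] at h5
    omega
  have hI : ∀ i ∈ I, chi θ a b i ≠ 1 := by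
    intro i hi h5
    exact hb (Finset.mem_biUnion.2 ⟨i, hi, Finset.mem_filter.2 ⟨Finset.mem_univ _, h5⟩⟩)
  have h4 : chi θ a b 4 ≠ 1 := by
    intro h5
    apply ha
    refine mo_inj hθ (p := (-1, 2)) (k := 1) (Or.inr (by norm_num)) ?_
    have h6 : chi θ a b 4 = mo θ a (-1, 2) * mo θ b (0, 0) := rfl
    rw [h6] at h5
    simpa [mo] using h5
  have hneg : ∀ (z : Kˣ) (p : ℤ × ℤ), mo θ z (-p) = (mo θ z p)⁻¹ := by
    intro z p
    have h6 := mo_add (θ := θ) z (-p) p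
    rw [neg_add_cancel] at h6
    have h7 : mo θ z 0 = 1 := by simp [mo]
    rw [h7] at h6
    exact eq_inv_of_mul_eq_one_left h6.symm
  have hop : ∀ i : Fin 16, chi θ a b (i + 8) = (chi θ a b i)⁻¹ := by
    intro i
    have h6 : ∀ i : Fin 16, cA (i + 8) = -cA i ∧ cB (i + 8) = -cB i := by decide
    unfold chi
    rw [(h6 i).1, (h6 i).2, hneg, hneg, mul_inv]
  refine ⟨a, b, ?_⟩
  have hall : ∀ i : Fin 16, (i = 4 ∨ i ∈ I) ∨ ∃ j : Fin 16, i = j + 8 ∧ (j = 4 ∨ j ∈ I) := by decide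
  have hgood : ∀ i : Fin 16, (i = 4 ∨ i ∈ I) → chi θ a b i ≠ 1 := by
    rintro i (rfl | hi)
    · exact h4
    · exact hI i hi
  intro i
  rcases hall i with hi | ⟨j, rfl, hj⟩
  · exact hgood i hi
  · rw [hop]
    exact inv_ne_one.2 (hgood j hj)

/-- `squareR` with `ndB`, `reach`, `exists_reg`, `n0`, `fin`, `fix` -/
theorem RayQ.main (hθ : Rt θ) [Finite K] (h2 : 8 ≤ Nat.card Kˣ) (h : RayQ θ e fA fB) : ∃ w : G, ∀ g : G, ∃ x y : G, IsConj w x ∧ IsConj w y ∧ x * y = g := by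
  obtain ⟨a, b, hab⟩ := exists_reg hθ h2
  have h3 : 2 < Nat.card K := by
    have h4 := Nat.card_units K
    omega
  exact squareR (h.ndB hθ) (fun g hg => h.reach hθ h3 hg) (h.mem_HH.2 ⟨a, b, rfl⟩) (h.n0 hθ a b)
    (h.fin hθ 1 (by decide)) (h.fin hθ 9 (by decide))
    (fun u hu h1 => h.fix hθ hab 1 hu h1) (fun v hv h1 => h.fix hθ hab 9 hv h1)
-- END fo

end Pool.Agent.ThO2
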