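import Pool.Agent.ThO3.EqB
import Pool.Agent.ThO3.RqB
import Pool.Agent.ThO2.Fin

/-! # Thompson's conjecture for the groups `²F_4(q)`, `q = 2 ^ (2 m + 1) ≥ 8` -/

namespace Pool.Agent.ThO2.Q

open ThE ThG Pool.Agent.ThR

variable {K : Type*} [Field K] {θ : K →+* K} {G : Type*} [Group G] {x : Root 6 → K → G}

variable {e : Fin 16 → K → G} {fA : SL2 K →* G} {fB : Sq θ →* G}

-- BEGIN hb
private theorem hb_nn (hθ : Rt θ) : nA K * nA K = 1 := (r1B hθ).nn

private theorem hb_nA (hθ : Rt θ) : (nA K).1 = !![0, 1; 1, 0] := by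
  have h1 : (1 : K) + 1 = 0 := hθ.add 1
  have h2 : (-1 : K) = 1 := (eq_neg_of_add_eq_zero_left h1).symm
  show !![(1 : K), 1; 0, 1] * !![1, 0; -1, 1] * !![1, 1; 0, 1] = _
  rw [h2]
  ext i j
  fin_cases i <;> fin_cases j <;> simp [Matrix.mul_apply, Fin.sum_univ_two, h1]

private theorem hb_up (hθ : Rt θ) (t : K) : nA K * up t * nA K = lo t := by
  apply Subtype.ext
  show (nA K).1 * !![(1 : K), t; 0, 1] * (nA K).1 = !![(1 : K), 0; t, 1]
  rw [hb_nA hθ]
  ext i j
  fin_cases i <;> fin_cases j <;> simp [Matrix.mul_apply, Fin.sum_univ_two]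

private theorem hb_JJ : JY θ * JY θ = 1 := Subtype.ext JS_JS

private theorem hb_pZ (hθ : Rt θ) (t d : K) : (pY θ t d : Sq θ) = pY θ t 0 * (pY θ (zt θ d) 0 * pY θ (zt θ d) 0) := by
  apply Subtype.ext
  show pQ θ t d = pQ θ t 0 * (pQ θ (zt θ d) 0 * pQ θ (zt θ d) 0)
  rw [pQ_mul hθ, pQ_mul hθ, hθ.add, zt_sq hθ]
  congr 1
  · ring
  · ring

private theorem hb_A (hθ : Rt θ) (h : RayQ0 θ e fA fB) (s : SL2 K) : fA s ∈ Subgroup.closure {g : G | ∃ i t, g = e i t} := by
  have h0 : ∀ i t, e i t ∈ Subgroup.closure {g : G | ∃ i t, g = e i t} := fun i t => Subgroup.subset_closure ⟨i, t, rfl⟩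
  have hs : s ∈ Subgroup.closure {g : SL2 K | ∃ a, g = up a ∨ g = lo a} := by rw [sl2_gen]; trivial
  have hle : Subgroup.closure {g : SL2 K | ∃ a, g = up a ∨ g = lo a} ≤ (Subgroup.closure {g : G | ∃ i t, g = e i t}).comap fA := by
    refine (Subgroup.closure_le _).2 ?_
    rintro g ⟨a, rfl | rfl⟩
    · refine Subgroup.mem_comap.2 ?_
      rw [h.e1]
      exact h0 1 a
    · refine Subgroup.mem_comap.2 ?_
      have h1 := h.wA 1 a
      rw [← h.e1 a, ← map_inv, ← map_mul, ← map_mul, inv_eq_of_mul_eq_one_right (hb_nn hθ), hb_up hθ] at h1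
      rw [h1]
      exact h0 _ a
  exact hle hs

private theorem hb_B (hθ : Rt θ) (h : RayQ0 θ e fA fB) (s : Sq θ) : fB s ∈ Subgroup.closure {g : G | ∃ i t, g = e i t} := by
  have h0 : ∀ i t, e i t ∈ Subgroup.closure {g : G | ∃ i t, g = e i t} := fun i t => Subgroup.subset_closure ⟨i, t, rfl⟩
  have hs : s ∈ Subgroup.closure ((PY θ : Set (Sq θ)) ∪ {g | ∃ p ∈ PY θ, g = JY θ * p * JY θ}) := by
    rw [R1.gen2 (r1Y hθ)]; trivial
  have hle : Subgroup.closure ((PY θ : Set (Sq θ)) ∪ {g | ∃ p ∈ PY θ, g = JY θ * p * JY θ}) ≤ (Subgroup.closure {g : G | ∃ i t, g = e i t}).comap fB := by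
    have hc : ∀ t : K, fB (JY θ * pY θ t 0 * JY θ) = e 0 t := by
      intro t
      have h1 := h.wB 8 t
      rw [← h.e8 t, ← map_inv, ← map_mul, ← map_mul, inv_eq_of_mul_eq_one_right hb_JJ] at h1
      exact h1
    refine (Subgroup.closure_le _).2 ?_
    rintro g (hg | ⟨p, hp, rfl⟩)
    · obtain ⟨t, d, rfl⟩ := (mem_PY hθ).1 hg
      refine Subgroup.mem_comap.2 ?_
      rw [hb_pZ hθ, map_mul, map_mul, h.e8, h.e8]
      exact Subgroup.mul_mem _ (h0 _ _) (Subgroup.mul_mem _ (h0 _ _) (h0 _ _))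
    · obtain ⟨t, d, rfl⟩ := (mem_PY hθ).1 hp
      refine Subgroup.mem_comap.2 ?_
      have h2 : JY θ * pY θ t d * JY θ = (JY θ * pY θ t 0 * JY θ) * ((JY θ * pY θ (zt θ d) 0 * JY θ) * (JY θ * pY θ (zt θ d) 0 * JY θ)) := by
        have hj : ∀ a b : Sq θ, (JY θ * a * JY θ) * (JY θ * b * JY θ) = JY θ * (a * b) * JY θ := by
          intro a b
          calc (JY θ * a * JY θ) * (JY θ * b * JY θ) = JY θ * a * (JY θ * JY θ) * b * JY θ := by group
            _ = JY θ * (a * b) * JY θ := by rw [hb_JJ]; group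
        rw [hj, hj, ← hb_pZ hθ]
      rw [h2, map_mul fB (JY θ * pY θ t 0 * JY θ), map_mul fB (JY θ * pY θ (zt θ d) 0 * JY θ), hc, hc]
      exact Subgroup.mul_mem _ (h0 _ _) (Subgroup.mul_mem _ (h0 _ _) (h0 _ _))
  exact hle hs

/-- ROW hb. All `fA s`, `fB s` are in the subgroup generated by the `e i t` (`sl2_gen`, `e 9 t = fA (lo t)`; `R1.gen2 (r1Y hθ)`, `pY θ t d = pY θ t 0 * pY θ (zt θ d) 0 * pY θ (zt θ d) 0`, `e 0 t`): `MonoidHom.codRestrict`; `com`: the closure in the subgroup. -/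
theorem RayQ0.ray (hθ : Rt θ) (h : RayQ0 θ e fA fB) :
    ∃ (fA' : SL2 K →* Subgroup.closure {g : G | ∃ i t, g = e i t}) (fB' : Sq θ →* Subgroup.closure {g : G | ∃ i t, g = e i t}),
      RayQ θ (fun i t => (⟨e i t, Subgroup.subset_closure ⟨i, t, rfl⟩⟩ : Subgroup.closure {g : G | ∃ i t, g = e i t})) fA' fB' := by
  refine ⟨fA.codRestrict _ (hb_A hθ h), fB.codRestrict _ (hb_B hθ h), ?_⟩
  refine ⟨?_, fun i t => Subtype.ext (h.wA i t), fun i t => Subtype.ext (h.wB i t), fun t => Subtype.ext (h.e1 t),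
    fun t => Subtype.ext (h.e8 t), fun b i t => Subtype.ext (h.tA b i t), fun b i t => Subtype.ext (h.tB b i t),
    fun b c => Subtype.ext (h.cm b c), fun b => Subtype.ext (h.nAt hθ b), fun b => Subtype.ext (h.nBt hθ b), ?_⟩
  · rw [← Subgroup.closure_closure_coe_preimage (k := {g : G | ∃ i t, g = e i t})]
    congr 1
    ext g
    constructor
    · rintro ⟨i, t, rfl⟩
      exact ⟨i, t, rfl⟩
    · rintro ⟨i, t, hg⟩
      exact ⟨i, t, Subtype.ext hg⟩
  · intro i k h1 h7 t u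
    have hle : Bet e i k ≤ (Bet (fun i t => (⟨e i t, Subgroup.subset_closure ⟨i, t, rfl⟩⟩ : Subgroup.closure {g : G | ∃ i t, g = e i t})) i k).map
        (Subgroup.closure {g : G | ∃ i t, g = e i t}).subtype := by
      refine (Subgroup.closure_le _).2 ?_
      rintro g ⟨l, s, hl0, hlk, rfl⟩
      exact ⟨⟨e (i + l) s, Subgroup.subset_closure ⟨i + l, s, rfl⟩⟩, Subgroup.subset_closure ⟨l, s, hl0, hlk, rfl⟩, rfl⟩
    obtain ⟨y, hy, hy'⟩ := hle (h.com i k h1 h7 t u)
    have h2 : y = (⟨e i t, Subgroup.subset_closure ⟨i, t, rfl⟩⟩ : Subgroup.closure {g : G | ∃ i t, g = e i t}) * ⟨e (i + k) u, Subgroup.subset_closure ⟨i + k, u, rfl⟩⟩ *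
        (⟨e i t, Subgroup.subset_closure ⟨i, t, rfl⟩⟩ : Subgroup.closure {g : G | ∃ i t, g = e i t})⁻¹ * (⟨e (i + k) u, Subgroup.subset_closure ⟨i + k, u, rfl⟩⟩ : Subgroup.closure {g : G | ∃ i t, g = e i t})⁻¹ :=
      Subtype.ext hy'
    rw [← h2]
    exact hy
-- END hb

-- BEGIN hd
private theorem hd_A (hθ : Rt θ) (h : RayQ0 θ e fA fB) (s : SL2 K) : fA s ∈ sim e := by
  have hs : s ∈ Subgroup.closure {g : SL2 K | ∃ a, g = up a ∨ g = lo a} := by rw [sl2_gen]; trivial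
  have hle : Subgroup.closure {g : SL2 K | ∃ a, g = up a ∨ g = lo a} ≤ (sim e).comap fA := by
    refine (Subgroup.closure_le _).2 ?_
    rintro g ⟨a, rfl | rfl⟩
    · refine Subgroup.mem_comap.2 ?_
      rw [h.e1]
      exact Subgroup.subset_closure ⟨a, Or.inl rfl⟩
    · refine Subgroup.mem_comap.2 ?_
      have h1 := h.wA 1 a
      rw [← h.e1 a, ← map_inv, ← map_mul, ← map_mul, inv_eq_of_mul_eq_one_right (hb_nn hθ), hb_up hθ] at h1
      rw [h1]
      exact Subgroup.subset_closure ⟨a, Or.inr (Or.inl rfl)⟩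
  exact hle hs

private theorem hd_B (hθ : Rt θ) (h : RayQ0 θ e fA fB) (s : Sq θ) : fB s ∈ sim e := by
  have h8 : ∀ t, e 8 t ∈ sim e := fun t => Subgroup.subset_closure ⟨t, Or.inr (Or.inr (Or.inl rfl))⟩
  have h0 : ∀ t, e 0 t ∈ sim e := fun t => Subgroup.subset_closure ⟨t, Or.inr (Or.inr (Or.inr rfl))⟩
  have hs : s ∈ Subgroup.closure ((PY θ : Set (Sq θ)) ∪ {g | ∃ p ∈ PY θ, g = JY θ * p * JY θ}) := by
    rw [R1.gen2 (r1Y hθ)]; trivial
  have hle : Subgroup.closure ((PY θ : Set (Sq θ)) ∪ {g | ∃ p ∈ PY θ, g = JY θ * p * JY θ}) ≤ (sim e).comap fB := by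
    have hc : ∀ t : K, fB (JY θ * pY θ t 0 * JY θ) = e 0 t := by
      intro t
      have h1 := h.wB 8 t
      rw [← h.e8 t, ← map_inv, ← map_mul, ← map_mul, inv_eq_of_mul_eq_one_right hb_JJ] at h1
      exact h1
    refine (Subgroup.closure_le _).2 ?_
    rintro g (hg | ⟨p, hp, rfl⟩)
    · obtain ⟨t, d, rfl⟩ := (mem_PY hθ).1 hg
      refine Subgroup.mem_comap.2 ?_
      rw [hb_pZ hθ, map_mul, map_mul, h.e8, h.e8]
      exact Subgroup.mul_mem _ (h8 _) (Subgroup.mul_mem _ (h8 _) (h8 _))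
    · obtain ⟨t, d, rfl⟩ := (mem_PY hθ).1 hp
      refine Subgroup.mem_comap.2 ?_
      have h2 : JY θ * pY θ t d * JY θ = (JY θ * pY θ t 0 * JY θ) * ((JY θ * pY θ (zt θ d) 0 * JY θ) * (JY θ * pY θ (zt θ d) 0 * JY θ)) := by
        have hj : ∀ a b : Sq θ, (JY θ * a * JY θ) * (JY θ * b * JY θ) = JY θ * (a * b) * JY θ := by
          intro a b
          calc (JY θ * a * JY θ) * (JY θ * b * JY θ) = JY θ * a * (JY θ * JY θ) * b * JY θ := by group
            _ = JY θ * (a * b) * JY θ := by rw [hb_JJ]; group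
        rw [hj, hj, ← hb_pZ hθ]
      rw [h2, map_mul fB (JY θ * pY θ t 0 * JY θ), map_mul fB (JY θ * pY θ (zt θ d) 0 * JY θ), hc, hc]
      exact Subgroup.mul_mem _ (h0 _) (Subgroup.mul_mem _ (h0 _) (h0 _))
  exact hle hs

private theorem hd_step (hθ : Rt θ) (h : RayQ0 θ e fA fB) {i : Fin 16} (hi : ∀ t, e i t ∈ sim e) (t : K) : e (i + 2) t ∈ sim e := by
  have h1 := h.wB i t
  have h2 := h.wA (8 - i) t
  have h3 : (10 : Fin 16) - (8 - i) = i + 2 := (by decide : ∀ i : Fin 16, (10 : Fin 16) - (8 - i) = i + 2) i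
  rw [h3, ← h1] at h2
  rw [← h2]
  exact Subgroup.mul_mem _ (Subgroup.mul_mem _ (hd_A hθ h _) (Subgroup.mul_mem _ (Subgroup.mul_mem _ (hd_B hθ h _) (hi t)) (Subgroup.inv_mem _ (hd_B hθ h _))))
    (Subgroup.inv_mem _ (hd_A hθ h _))

/-- the rays `1, 9, 8, 0` generate the group -/
theorem sim_eq (hθ : Rt θ) (h : RayQ0 θ e fA fB) : sim e = Subgroup.closure {g : G | ∃ i t, g = e i t} := by
  refine le_antisymm ((Subgroup.closure_le _).2 ?_) ((Subgroup.closure_le _).2 ?_)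
  · rintro g ⟨t, rfl | rfl | rfl | rfl⟩
    · exact Subgroup.subset_closure ⟨1, t, rfl⟩
    · exact Subgroup.subset_closure ⟨9, t, rfl⟩
    · exact Subgroup.subset_closure ⟨8, t, rfl⟩
    · exact Subgroup.subset_closure ⟨0, t, rfl⟩
  · rintro g ⟨i, t, rfl⟩
    have h1 : ∀ t, e 1 t ∈ sim e := fun t => Subgroup.subset_closure ⟨t, Or.inl rfl⟩
    have h0 : ∀ t, e 0 t ∈ sim e := fun t => Subgroup.subset_closure ⟨t, Or.inr (Or.inr (Or.inr rfl))⟩
    have h3 := hd_step hθ h h1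
    have h5 := hd_step hθ h h3
    have h7 := hd_step hθ h h5
    have h9 := hd_step hθ h h7
    have h11 := hd_step hθ h h9
    have h13 := hd_step hθ h h11
    have h15 := hd_step hθ h h13
    have h2 := hd_step hθ h h0
    have h4 := hd_step hθ h h2
    have h6 := hd_step hθ h h4
    have h8 := hd_step hθ h h6
    have h10 := hd_step hθ h h8
    have h12 := hd_step hθ h h10
    have h14 := hd_step hθ h h12
    fin_cases i
    · exact h0 t
    · exact h1 t
    · exact h2 t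
    · exact h3 t
    · exact h4 t
    · exact h5 t
    · exact h6 t
    · exact h7 t
    · exact h8 t
    · exact h9 t
    · exact h10 t
    · exact h11 t
    · exact h12 t
    · exact h13 t
    · exact h14 t
    · exact h15 t
-- END hd

-- BEGIN he
/-- a root of `X³ + X + 1`: `θ t` is `t`, `t²` or `t⁴`, and only `t²` is possible -/
private theorem he_one (hθ : Rt θ) {t : K} (ht : t ^ 3 + t + 1 = 0) : θ t = t ^ 2 := by
  have h2 := hθ.two
  have hs : θ t ^ 3 + θ t + 1 = 0 := by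
    have h3 := congrArg θ ht
    simpa only [map_add, map_pow, map_one, map_zero] using h3
  have hr := hθ t
  have h7 : t ^ 7 = 1 := by linear_combination (t ^ 4 - t ^ 2 - t + 1) * ht + (t ^ 2 - 1) * h2
  have h01 : ∀ {a : Prop}, (t = 0 ∨ t = 1) → a := by
    intro a h3
    exfalso
    rcases h3 with h3 | h3
    · rw [h3] at ht
      have h4 : (1 : K) = 0 := by linear_combination ht
      exact one_ne_zero h4
    · rw [h3] at ht
      have h4 : (1 : K) = 0 := by linear_combination ht - h2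
      exact one_ne_zero h4
  have hP : (θ t + t) * (θ t + t ^ 2) * (θ t + t ^ 4) = 0 := by
    generalize θ t = s at hs
    linear_combination hs + (t * s ^ 2 + (t ^ 3 + t ^ 2 - t - 1) * s + t ^ 4 - t ^ 2 - t + 1) * ht + (t * s + t ^ 2 - 1) * h2
  have hn : ∀ {a b : K}, a + b = 0 → a = b := by
    intro a b h3
    linear_combination h3 - b * h2
  rcases mul_eq_zero.1 hP with h3 | h3
  · rcases mul_eq_zero.1 h3 with h4 | h4
    · exact h01 (hθ.fixed (hn h4))
    · exact hn h4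
  · have h4 := hn h3
    have h5 : t ^ 4 = t := by
      have h6 : θ (θ t) = (t ^ 4) ^ 4 := by rw [h4, map_pow, h4]
      rw [h6] at hr
      have h8 : (t ^ 4) ^ 4 = t ^ 2 := by
        calc (t ^ 4) ^ 4 = (t ^ 7) ^ 2 * t ^ 2 := by ring
          _ = t ^ 2 := by rw [h7, one_pow, one_mul]
      rw [h8] at hr
      calc t ^ 4 = (t ^ 2) ^ 2 := by ring
        _ = t := hr
    exact h01 (hθ.fixed (h4.trans h5))

theorem eight (hθ : Rt θ) (hK : Nat.card K = 8) (t : K) : θ t = t ^ 2 := by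
  have h2 := hθ.two
  have h8 := pow8 hK t
  have hP : t * (t + 1) * ((t ^ 3 + t + 1) * (t ^ 3 + t ^ 2 + 1)) = 0 := by
    linear_combination h8 + (t ^ 7 + t ^ 6 + 2 * t ^ 5 + 2 * t ^ 4 + t ^ 3 + t ^ 2 + t) * h2
  rcases mul_eq_zero.1 hP with h3 | h3
  · rcases mul_eq_zero.1 h3 with h4 | h4
    · rw [h4, map_zero, zero_pow two_ne_zero]
    · have h5 : t = 1 := by linear_combination h4 - h2
      rw [h5, map_one, one_pow]
  · rcases mul_eq_zero.1 h3 with h4 | h4
    · exact he_one hθ h4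
    · have h0 : t ≠ 0 := by
        rintro rfl
        norm_num at h4
      have h5 : (t⁻¹) ^ 3 + t⁻¹ + 1 = 0 := by
        field_simp
        linear_combination h4
      have h6 := he_one hθ h5
      rw [map_inv₀, inv_pow] at h6
      exact inv_injective h6

theorem eQ_eight (hθ : Rt θ) (hK : Nat.card K = 8) : eQ x θ = eG x := by
  funext i t
  unfold eQ eG
  rw [eight hθ hK]
  have h3 : t * t ^ 2 = t ^ 3 := by ring
  rw [h3]

/-- no field of four elements has such a `θ` -/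
theorem not_four (hθ : Rt θ) (hK : Nat.card K = 4) : False := by
  have h2 := hθ.two
  have hfin : Finite K := Nat.finite_of_card_ne_zero (by rw [hK]; norm_num)
  have hc : Nat.card Kˣ = 3 := by rw [Nat.card_units, hK]
  have h1 : 1 < Nat.card Kˣ := by rw [hc]; norm_num
  have hnt : Nontrivial Kˣ := Finite.one_lt_card_iff_nontrivial.1 h1
  obtain ⟨u, hu⟩ := exists_ne (1 : Kˣ)
  have h3 : u ^ 3 = 1 := by rw [← hc]; exact pow_card_eq_one'
  have ht1 : (u : K) ≠ 1 := fun h => hu (Units.ext h)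
  have ht0 : (u : K) ≠ 0 := u.ne_zero
  have ht3 : (u : K) ^ 3 = 1 := by rw [← Units.val_pow_eq_pow_val, h3, Units.val_one]
  generalize (u : K) = t at ht1 ht0 ht3
  have hq : t ^ 2 + t + 1 = 0 := by
    have h4 : (t - 1) * (t ^ 2 + t + 1) = 0 := by linear_combination ht3
    exact (mul_eq_zero.1 h4).resolve_left (sub_ne_zero.2 ht1)
  have hs : θ t ^ 2 + θ t + 1 = 0 := by
    have h4 := congrArg θ hq
    simpa only [map_add, map_pow, map_one, map_zero] using h4
  have hP : (θ t - t) * (θ t - t ^ 2) = 0 := by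
    have h5 : t ^ 2 = -t - 1 := by linear_combination hq
    rw [h5]
    linear_combination hs - hq
  rcases mul_eq_zero.1 hP with h4 | h4
  · rcases hθ.fixed (sub_eq_zero.1 h4) with h5 | h5
    · exact ht0 h5
    · exact ht1 h5
  · have h5 : θ t = t ^ 2 := sub_eq_zero.1 h4
    have hr := hθ t
    rw [h5, map_pow, h5] at hr
    have h6 : ((t ^ 2) ^ 2) ^ 2 = t ^ 2 := by
      calc ((t ^ 2) ^ 2) ^ 2 = (t ^ 3) ^ 2 * t ^ 2 := by ring
        _ = t ^ 2 := by rw [ht3, one_pow, one_mul]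
    rw [h6] at hr
    have h7 : t * (t - 1) = 0 := by linear_combination hr
    rcases mul_eq_zero.1 h7 with h8 | h8
    · exact ht0 h8
    · exact ht1 (sub_eq_zero.1 h8)

/-- `Nat.card K` is `8` or at least `16` -/
theorem card_cases (hθ : Rt θ) [Finite K] (h2 : 2 < Nat.card K) : Nat.card K = 8 ∨ 16 ≤ Nat.card K := by
  have : Fintype K := Fintype.ofFinite K
  have : CharP K 2 := CharTwo.of_one_ne_zero_of_two_eq_zero one_ne_zero hθ.two
  obtain ⟨n, -, hn⟩ := FiniteField.card K 2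
  rw [← Nat.card_eq_fintype_card] at hn
  have hn' : Nat.card K = 2 ^ (n : ℕ) := hn
  generalize (n : ℕ) = k at hn'
  by_cases hk : 4 ≤ k
  · right
    rw [hn']
    calc 16 = 2 ^ 4 := by norm_num
      _ ≤ 2 ^ k := Nat.pow_le_pow_right (by norm_num) hk
  · have hk3 : k ≤ 3 := by omega
    interval_cases k
    · omega
    · omega
    · exact (not_four hθ (by rw [hn']; norm_num)).elim
    · left
      rw [hn']
      norm_num
-- END he

-- BEGIN hf
theorem mainE (hθ : Rt θ) [Finite K] (h2 : 16 ≤ Nat.card K) (h : ThK.Stb K 6 x) : ∃ w : sim (eQ x θ), ∀ g : sim (eQ x θ), ∃ a b : sim (eQ x θ), IsConj w a ∧ IsConj w b ∧ a * b = g := by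
  obtain ⟨f, f1, f2, f3⟩ := exists_fA hθ h
  obtain ⟨f', g1, g2, g3⟩ := exists_fB hθ h
  have g1' : ∀ t, f'.comp (Sq θ).subtype (pY θ t 0) = eQ x θ 8 t := g1
  have g2' : f'.comp (Sq θ).subtype (JY θ) = nnB x := g2
  have g3' : ∀ b : Kˣ, f'.comp (Sq θ).subtype (tY θ b) = tBE x θ b := g3
  have h0 : RayQ0 θ (eQ x θ) f (f'.comp (Sq θ).subtype) := by
    refine ⟨?_, ?_, f1, g1', ?_, ?_, ?_, ?_⟩
    · intro i t
      rw [f2]
      exact wAE hθ h i t
    · intro i t
      rw [g2']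
      exact wBE hθ h i t
    · intro b i t
      rw [f3]
      exact tAE_conj hθ h b i t
    · intro b i t
      rw [g3']
      exact tBE_conj hθ h b i t
    · intro b c
      rw [f3, g3']
      exact tAE_tBE h b c
    · exact comE hθ h
  obtain ⟨fA', fB', hr⟩ := RayQ0.ray hθ h0
  have h3 : 8 ≤ Nat.card Kˣ := by
    have h4 := Nat.card_units K
    omega
  rw [sim_eq hθ h0]
  exact RayQ.main hθ h3 hr

/-- Thompson's conjecture for `²F_4(q)`, `q > 2` -/
theorem mainQ (hθ : Rt θ) [Finite K] (h2 : 2 < Nat.card K) (h : ThK.Stb K 6 x) : ∃ w : sim (eQ x θ), ∀ g : sim (eQ x θ), ∃ a b : sim (eQ x θ), IsConj w a ∧ IsConj w b ∧ a * b = g := by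
  rcases card_cases hθ h2 with h3 | h3
  · rw [eQ_eight hθ h3]
    exact mainS h3 h
  · exact mainE hθ h3 h
-- END hf

end Pool.Agent.ThO2.Q
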